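import Pool.Agent.MP_9a6faa_lc.W.Om
import Pool.Agent.Mg.F9a6faa.G897a99

set_option linter.unusedSectionVars false

section

namespace Pool.Agent.MP_9a6faa_lc.W

open Set Order FO Filter Meas

universe u v w

/-- The choice between the two patterns. -/
class Pat where
  b : Prop

variable [Pat]

section Dt

variable {m : Mach.{u}}

open Classical in
/-- The ordinals below this bound will be collapsed. -/
noncomputable def ka (m : Mach.{u}) : Ordinal.{u} := if Pat.b then m.κ else Ordinal.omega0 + 1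

theorem ka_lt_th : ka m < th m := by
  unfold ka; split_ifs
  exacts [κ_lt_th, gcl_th.succ gcl_th.1]

theorem lt_ka (h : Ordinal.omega0 < m.κ) : Ordinal.omega0 < ka m := by
  unfold ka; split_ifs
  exacts [h, lt_add_one _]

theorem ka_le (h : Ordinal.omega0 < m.κ) : ka m ≤ m.κ := by
  unfold ka; split_ifs
  exacts [le_rfl, add_one_le_iff.2 h]

/-- The ordinals that will get cofinality `ω`. -/
def Dt (m : Mach.{u}) (a : Ordinal.{u}) : Prop :=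
  Lim a ∧ (cf m a < ka m ∨ ∃ z < th m, cf m a = sa m z)

theorem dt_sa {z : Ordinal.{u}} (h : z < th m) : Dt m (sa m z) :=
  ⟨(reg_sa z).lim, Or.inr ⟨z, h, (reg_sa z).cf_eq⟩⟩

theorem not_dt_sb (z : Ordinal.{u}) : ¬ Dt m (sb m z) := by
  rintro ⟨-, h | ⟨x, -, h⟩⟩ <;> rw [(reg_sb z).cf_eq] at h
  · exact (ka_lt_th.trans (th_lt_sb z)).not_gt h
  · rcases lt_or_ge x z with h' | h'
    exacts [(sa_lt_sb h').ne' h, ((sb_lt_sa z).trans_le (sa_strictMono.monotone h')).ne h]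

theorem not_dt_mid {a : Ordinal.{u}} (h : ka m ≤ cf m a) (h' : cf m a ≤ th m) : ¬ Dt m a := by
  rintro ⟨-, e | ⟨x, -, e⟩⟩
  exacts [h.not_gt e, (th_lt_sa x).not_ge (e ▸ h')]

theorem dt_congr {a b : Ordinal.{u}} (ha : Lim a) (hb : Lim b) (h : cf m a = cf m b) :
    Dt m a ↔ Dt m b := by
  simp only [Dt, ha, hb, h]

@[fun_prop] theorem tm_ka {I : Type} {V : Type v} {𝒜 : FO.{u, v} I V} {Γ : Type*} [Cd 𝒜 Γ]
    [Cd 𝒜 Mach.{u}] [HasQ 𝒜] {m : Γ → Mach.{u}} (hm : 𝒜.Tm m) : 𝒜.Tm (fun z => ka (m z)) := by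
  unfold ka; fun_prop

@[fun_prop] theorem tm_Dt {I : Type} {V : Type v} {𝒜 : FO.{u, v} I V} {Γ : Type*} [Cd 𝒜 Γ]
    [Cd 𝒜 Mach.{u}] [HasQ 𝒜] [HasSep 𝒜] {m : Γ → Mach.{u}} {a : Γ → Ordinal.{u}} (hm : 𝒜.Tm m)
    (ha : 𝒜.Tm a) : 𝒜.Tm (fun z => Dt (m z) (a z)) := by
  unfold Dt; fun_prop

end Dt

variable {μ : Meas.{u}} {V : Type v} {𝒞 : FO.{u, v} Unit V}

section Junk

variable [Full 𝒞] [HasSep 𝒞] {g a : Ordinal.{u}}
  (hG : ∀ r < g, ∀ p, 𝒞.Tm (fun z : Ordinal.{u} × Ordinal.{u} => Gd μ.mach.it r p z.1 z.2))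
  (ha : RegA 𝒞 a) (hk : μ.κ < a) (hd : a < dl μ.mach)
include hG ha hk hd

theorem junk_low (h : ∀ r, NR μ.mach.it g r) (hl : LimCl a) (hj : ∀ b < dl μ.mach, μ.kp b ≠ a) :
    μ.κ ≤ cf μ.mach a := by
  obtain ⟨b, h₁, h₂⟩ := wellFounded_lt.has_min {b | b < dl μ.mach ∧ a ≤ μ.kp b} ⟨a, hd, le_kp hd⟩
  have h₃ := h₁.2.lt_of_ne (hj b h₁.1).symm
  replace h₂ : ∀ c < b, μ.kp c < a := fun c hc => not_le.1 fun h => h₂ c ⟨hc.trans h₁.1, h⟩ hc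
  obtain ⟨y, h₄, h₅, h₆⟩ : ∃ y < a, Gcl y ∧ ∀ c < b, μ.kp c < y := by
    by_cases h : Lim b
    · obtain ⟨c, h₄, h₅⟩ := kp_cont h₁.1 h h₃
      exact absurd (h₂ c h₄) h₅.not_gt
    · rcases eq_zero_or_pos b with rfl | h0
      · exact absurd (kp_zero ▸ h₃) hk.not_gt
      · simp only [Lim, h0, true_and, not_forall, not_lt] at h
        obtain ⟨x, h₄, h₅⟩ := h
        obtain ⟨y, h₆, h₇, h₈⟩ := hl _ (h₂ x h₄)
        refine ⟨y, h₆, h₈, fun c hc => lt_of_le_of_lt ?_ h₇⟩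
        rcases (lt_add_one_iff.1 (hc.trans_le h₅)).eq_or_lt with rfl | h
        exacts [le_rfl, (kp_lt h (h₄.trans h₁.1)).le]
  have h₇ : μ.κ < y := kp_zero ▸ h₆ 0 (zero_lt_iff.2 fun e => by
    subst e; exact absurd (kp_zero ▸ h₃) hk.not_gt)
  have rp : ∀ x < a, ∃ c, ∃ b < y, ap μ.mach.it (μ.j c) b = x := fun x hx => by
    obtain ⟨e, h₇, rfl, h₈⟩ := lt_kp h₁.1 (hx.trans h₃)
    obtain ⟨L, h₉, c, -, h₀⟩ := h₇.rep μ.gcl le_rfl h₈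
    have hL : ∀ x ∈ L, x < dl μ.mach := fun x hx => (h₉ x hx).trans h₁.1
    exact ⟨c, _, h₅.encL (List.forall_mem_map.2 fun x hx => h₆ x (h₉ x hx)),
      ((rk_congr (h₇.mono h₁.1.le) (Fn.valc hL c) h₀).trans (rk_valc hL c)).symm⟩
  refine not_lt.1 fun hc => ?_
  obtain ⟨d, h₈⟩ := cf_spec μ.mach a
  obtain ⟨e, he⟩ := code_fun (m := μ.mach) (f := fun i => mu (fun c => ∃ b < y,
    ap μ.mach.it (μ.j c) b = ap μ.mach d i)) (by fun_prop) μ.κ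
  obtain ⟨B, hB⟩ := bound_fun μ.κ (fun i => μ.j (ap μ.mach e i))
  obtain ⟨r, r₁, r₂, r₃⟩ := exists_gcl₂ (max (μ.j e) B) y
  rw [max_lt_iff] at r₁
  obtain ⟨w, k₁, k₂⟩ := nr_bdd hG ha hk hd (h r) h₄ [μ.j e]
  obtain ⟨i, k₃, k₄, k₅⟩ := h₈ w k₁
  have hi := k₃.trans hc
  obtain ⟨b, k₆, k₇⟩ := he i hi ▸ mu_spec (rp _ k₅)
  have e₁ : ap μ.mach.it (μ.j e) i = μ.j (ap μ.mach e i) := by
    have := rk_ap (μ := μ) e (Fn.const i)
    rw [← j, ← j, j_small hi] at this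
    exact this.symm
  have b₀ : InH μ.mach.it r [G i b, μ.j e] (G i b) :=
    InH.base (by simp) ((h₅.G (hi.trans h₇) k₆).trans r₂)
  have c₁ := b₀.fst
  have c₂ := b₀.snd
  rw [fst_G] at c₁
  rw [snd_G] at c₂
  have b₁ := ((InH.base (m := μ.mach.it) (e := [G i b, μ.j e]) (by simp) r₁.1).pair
    c₁ (r₃.G r₁.1 ((hi.trans h₇).trans r₂))).wit
  rw [wit_G, e₁] at b₁
  have b₂ := (b₁.pair c₂ (r₃.G ((hB i hi).trans r₁.2) (k₆.trans r₂))).wit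
  rw [wit_G, k₇] at b₂
  exact (k₂ _ (h₅.G (hi.trans h₇) k₆) _ k₅ ⟨0, b₂⟩).not_ge k₄

theorem junk_mid {s y : Ordinal.{u}} {p : OL.{u}} (hs : Lim s) (h : ∀ r < s, NR μ.mach.it g r)
    (hl : Lim a) (hy : y < a) (hj : ∀ x < a, ∃ b < y, Gd μ.mach.it s p b x) :
    Dt μ.mach a ↔ cf μ.mach s ≤ Ordinal.omega0 ∨ Dt μ.mach s := by
  rcases le_or_gt (cf μ.mach s) Ordinal.omega0 with hc | hc
  · refine iff_of_true ⟨hl, Or.inl (lt_of_le_of_lt ?_ (lt_ka μ.hω))⟩ (Or.inl hc)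
    obtain ⟨d, h₁⟩ := cf_spec μ.mach s
    refine cf_le (f := fun i => mu (fun c => ∀ b < y, ∀ x < a,
      InH μ.mach.it (ap μ.mach d (fst i)) (al μ.mach (snd i) ++ b :: p) x → x < c))
      (by fun_prop) fun x hx => ?_
    obtain ⟨b, h₂, h₃⟩ := hj x hx
    obtain ⟨i, h₄, h₅⟩ := h₃.al
    obtain ⟨r, h₆, h₇⟩ := h₅.lim hs
    obtain ⟨n, h₈, h₉, h₀⟩ := h₁ r h₆
    obtain ⟨w, h₁₀, h₁₁⟩ := nr_bdd hG ha hk hd (h _ h₀) hy (al μ.mach i ++ p)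
    obtain ⟨h₁₂, h₁₃⟩ := mu_lt (S := fun w => ∀ b < y, ∀ x < a,
      InH μ.mach.it (ap μ.mach d n) (al μ.mach i ++ b :: p) x → x < w) ⟨w, h₁₀,
      fun b hb x hx h => h₁₁ b hb x hx ⟨0, h.mono le_rfl fun x => by simp; tauto⟩⟩
    refine ⟨G n i, G_omega (h₈.trans_le hc) h₄, ?_⟩
    simp only [fst_G, snd_G]
    exact ⟨(h₁₃ b h₂ x hx (h₇.mono h₉ fun _ => id)).le, h₁₂⟩
  · rw [or_iff_right hc.not_ge]
    have key := fun r hr => mu_lt (nr_bdd hG ha hk hd (h r hr) hy p)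
    refine dt_congr hl hs (cf_eq_of_mono (f := fun r => mu (fun c => ∀ b < y, ∀ x < a,
      Gd μ.mach.it r p b x → x < c)) (by fun_prop) hl (fun r r' h₁ h₂ =>
      mu_le fun b hb x hx h => (key r' h₂).2 b hb x hx (h.mono h₁)) (fun r hr => (key r hr).1)
      fun x hx => ?_).symm
    obtain ⟨b, h₁, h₂⟩ := hj x hx
    obtain ⟨r, h₃, h₄⟩ := h₂.lim hs hc
    exact ⟨r, h₃, ((key r h₃).2 b h₁ x hx h₄).le⟩

end Junk

variable (μ 𝒞) in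
/-- The machine that guesses the measure of the iterate from the cofinality pattern. -/
noncomputable def guess [HasSep 𝒞] : Mach.{u} :=
  ⟨dl μ.mach, fun X => ∃ t : Prop, ∃ n < dl μ.mach, ∀ a, n ≤ a → a < dl μ.mach →
    LimCl a → RegC 𝒞 a → (Dt μ.mach a ↔ t) → X a,
    fun _ _ h ⟨t, n, h₁, h₂⟩ => ⟨t, n, h₁, fun a h₃ h₄ h₅ h₆ h₇ => h a h₄ (h₂ a h₃ h₄ h₅ h₆ h₇)⟩⟩

theorem dq_guess [Full 𝒞] [HasSep 𝒞] (hD : 𝒞.Tm (Dt μ.mach)) : DQ 𝒞 (fun _ => guess μ 𝒞) where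
  κ := Full.const _
  Q := fun R hR => by
    obtain ⟨S, hS, e⟩ : ∃ S : 𝒞.Ob × Ordinal.{u} → Prop, 𝒞.Tm S ∧
      ∀ x y, S (x, y) = R () (𝒞.pr x (𝒞.o y)) := ⟨_, tm_of_am hR, fun _ _ => rfl⟩
    obtain ⟨D, hD, e'⟩ : ∃ D : Ordinal.{u} → Prop, 𝒞.Tm D ∧ D = Dt μ.mach := ⟨_, hD, rfl⟩
    simp only [← e, guess, RegC, ← e']
    exact am_of_tm (by fun_prop)

section Main

variable [Full 𝒞] [HasSep 𝒞] (hD : 𝒞.Tm (Dt μ.mach))
  (hS : ∀ s : 𝒞.Ob, (SS μ.mach).Tm (fun z : Ordinal.{u} × Ordinal.{u} => Mem2 ⟨()⟩ s z.1 z.2))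

omit [Full 𝒞] in
theorem P_guess_aux {g : Ordinal.{u}} (h : ∀ a < g, ∀ x,
    (guess μ 𝒞).Q (fun z => P μ.mach.it a (G x z)) ↔ μ.mach.it.Q (fun z => P μ.mach.it a (G x z))) :
    ∀ d ≤ g, ∀ x, P (guess μ 𝒞) d x ↔ P μ.mach.it d x := fun d => by
  induction d using WellFoundedLT.induction with
  | ind d ih =>
    intro hd x
    rw [P_iff, step_congr fun a ha => ih a ha (ha.le.trans hd), P_iff (d := d), step, step]
    by_cases h₃ : fst d = 3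
    · rw [h _ (((fst_le _).trans_lt (snd_lt (by simp [h₃]))).trans_le hd)]
    · simp only [h₃, false_and]

include hD hS

theorem guess_base (g : Ordinal.{u}) : ∀ (t : Prop) (k : ℕ) v e,
    (guess μ 𝒞).Q (fun z => QL μ.mach.it (fun l => Base μ.mach.it g t v l) k (z :: e)) ↔
      μ.mach.it.Q (fun z => QL μ.mach.it (fun l => Base μ.mach.it g t v l) k (z :: e)) := by
  induction g using WellFoundedLT.induction with
  | ind g ih =>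
  intro t k v e
  obtain ⟨c, h₁, h₂⟩ := tail_base (μ := μ) g v t k e
  refine ⟨fun ⟨t, n, h₃, h₄⟩ => ?_, fun hQ => ?_⟩
  · have reg : ∀ {a}, Reg μ.mach a → RegC 𝒞 a := fun h s => h.regA _ (hS s)
    obtain ⟨i, h₅, h₆⟩ := ((ev_lt_sb h₁).and (ev_lt_sb h₃)).exists
    by_cases ht : t
    · rw [← h₂ _ (h₅.trans (sb_lt_sa _)).le (sa_lt_dl _ i), kp_sa]
      exact h₄ _ (h₆.trans (sb_lt_sa _)).le (sa_lt_dl _ i) (reg_sa _).limCl (reg (reg_sa _))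
        (iff_of_true (dt_sa (gcl_th.nat i)) ht)
    · have := (sb_lt_sa _).trans (sa_lt_dl μ.mach i)
      rw [← h₂ _ h₅.le this, kp_sb]
      exact h₄ _ h₆.le this (reg_sb _).limCl (reg (reg_sb _)) (iff_of_false (not_dt_sb _) ht)
  rcases lt_or_ge g (dl μ.mach) with hg | hg
  · obtain ⟨i, h₃, h₄⟩ := (Eventually.and hQ (ev_lt_sb hg)).exists
    exact ⟨True, g, hg, fun a _ _ _ _ _ => h₃.mono' fun l _ =>
      Base.const (h₄.trans (sb_lt_sa _)).le⟩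
  have hG : ∀ r < g, ∀ p,
      𝒞.Tm (fun z : Ordinal.{u} × Ordinal.{u} => Gd μ.mach.it r p z.1 z.2) := fun r hr p => by
    let _ := cdW 𝒞 fun _ => guess μ 𝒞
    have := dq_guess hD
    have := hasQ_cdW (𝒜 := 𝒞) fun _ => guess μ 𝒞
    have := par_cdW (𝒜 := 𝒞) (guess μ 𝒞)
    refine Tm.congrP (Q := fun z => Gd (guess μ 𝒞) r p z.1 z.2) (by fun_prop) fun z =>
      exists_congr fun k => ?_
    have hP := P_guess_aux (μ := μ) (𝒞 := 𝒞) (g := r) fun a ha x => by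
      simpa [QL, Base] using ih _ ((add_one_le_iff.2 ha).trans_lt hr) False 0 a [x]
    generalize z.1 :: p = l
    induction k generalizing l with
    | zero => exact ⟨fun h => InH.congr h fun d hd => hP d hd.le,
        fun h => InH.congr h fun d hd x => (hP d hd.le x).symm⟩
    | succ k ih' =>
      simp only [QL, ih']
      simpa [Base] using ih r hr True k z.2 l
  have hk : μ.κ < dl μ.mach := κ_lt_th.trans (th_lt_dl μ.mach)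
  rcases star_it g hg with h | ⟨s, p, hs, h, h₃⟩
  · have h₃ : μ.κ ≤ μ.kp c := kp_zero ▸ by
      rcases eq_zero_or_pos c with rfl | h
      exacts [le_rfl, (kp_lt h h₁).le]
    refine ⟨True, μ.kp c + 1, (gcl_dl _).succ (kp_lt_dl h₁), fun a h₄ h₅ h₆ h₇ h₈ => ?_⟩
    rw [add_one_le_iff] at h₄
    by_cases hj : ∃ b < dl μ.mach, μ.kp b = a
    · obtain ⟨b, h₉, rfl⟩ := hj
      exact (h₂ b (not_lt.1 fun h => h₄.not_gt (kp_lt h h₁)) h₉).2 hQ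
    · exact (not_dt_mid ((ka_le μ.hω).trans
        (junk_low hG h₇.regA (h₃.trans_lt h₄) h₅ h h₆ fun b hb e => hj ⟨b, hb, e⟩))
        (junk_top hG h₇.regA (h₃.trans_lt h₄) h₅ h h₆ fun b hb e => hj ⟨b, hb, e⟩)
        (h₈.2 trivial)).elim
  · obtain ⟨n, h₄, h₅⟩ := h₃ t k v e hQ
    refine ⟨¬ (cf μ.mach s ≤ Ordinal.omega0 ∨ Dt μ.mach s), max n (μ.κ + 1),
      max_lt h₄ ((gcl_dl _).succ hk), fun a h₆ h₇ h₈ h₉ h₀ => not_not.1 fun hn => ?_⟩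
    rw [max_le_iff, add_one_le_iff] at h₆
    obtain ⟨y, h₁₀, h₁₁⟩ := h₅ a h₆.1 h₇ h₈ hn
    exact iff_not_self ((junk_mid hG h₉.regA h₆.2 h₇ hs h
      (h₈.gcl (zero_le.trans_lt h₆.2)).lim h₁₀ h₁₁).symm.trans h₀)

/-- The hierarchy of the iterate is definable from the cofinality pattern. -/
theorem tm_P_it : 𝒞.Tm (fun z : Ordinal.{u} × Ordinal.{u} => P μ.mach.it z.1 z.2) := by
  let _ := cdW 𝒞 fun _ => guess μ 𝒞
  have := dq_guess hD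
  have := hasQ_cdW (𝒜 := 𝒞) fun _ => guess μ 𝒞
  have := par_cdW (𝒜 := 𝒞) (guess μ 𝒞)
  refine Tm.congrP (Q := fun z => P (guess μ 𝒞) z.1 z.2) (by fun_prop) fun z =>
    P_guess_aux (fun a _ x => ?_) _ le_rfl _
  simpa [QL, Base] using guess_base hD hS (a + 1) False 0 a [x]

end Main

theorem not_dt {e f : Asg.{u} → Ordinal.{u}} (he : μ.El e) (hf : μ.El f)
    (h₁ : ∀ᶠ x in μ.AE, e x < th μ.mach) (h₂ : ∀ᶠ x in μ.AE, f x = sa μ.mach (e x))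
    (h₃ : ∀ z < th μ.mach, μ.rk e ≠ μ.j z) : ¬ Dt μ.mach (μ.rk f) := by
  obtain ⟨s, h₄, h₅⟩ := wellFounded_lt.has_min {s | s ≤ th μ.mach ∧ ∀ᶠ x in μ.AE, e x < s}
    ⟨_, le_rfl, h₁⟩
  have h₆ : ∀ z < s, ∀ᶠ x in μ.AE, z < e x := fun z hz => by
    rcases ae_tri he (Fn.const z) with h | h | h
    exacts [absurd hz (h₅ z ⟨hz.le.trans h₄.1, h⟩),
      absurd (rk_congr he (Fn.const z) h) (h₃ z (hz.trans_le h₄.1)), h]
  have hl : Lim s := ⟨let ⟨_, h⟩ := h₄.2.exists; zero_le.trans_lt h, fun z hz =>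
    let ⟨_, h⟩ := ((h₆ z hz).and h₄.2).exists; (add_one_le_iff.2 h.1).trans_lt h.2⟩
  obtain ⟨g₁, g₂, g₃⟩ := se_spec μ.mach s
  have up : cf μ.mach (μ.rk f) ≤ cb μ.mach (se μ.mach s) := by
    refine cf_le (f := μ.rkc) (by fun_prop) fun y hy => ?_
    obtain ⟨g, hg, rfl⟩ := rk_surj (μ := μ) y
    obtain ⟨z, h₇, h₈⟩ := Fn.code hg le_rfl g₁ (κ_lt_th.trans g₂).le
      ((((rk_lt_iff hg hf).1 hy).and (h₂.and h₄.2)).mono fun x h =>
        h.1.trans (h.2.1 ▸ g₃ _ h.2.2)) (gcl_cb _)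
      ((mu_le fun n => g₃ _ (hl.nat n)).trans (lt_cb _).le) le_rfl
    exact ⟨z, h₇, h₈.ge, h₈ ▸ hy⟩
  have low : ∀ z < s, sa μ.mach z < cf μ.mach (μ.rk f) := fun z hz => not_le.1 fun h => by
    obtain ⟨c, hc⟩ := cf_spec μ.mach (μ.rk f)
    obtain ⟨F, hF, eF⟩ : ∃ F : Ordinal.{u} → Ordinal.{u}, (SS μ.mach).Tm F ∧ ∀ i w,
        F (G i w) = ap μ.mach (snd (μ.rep (ap μ.mach c i))) w :=
      ⟨fun t => ap μ.mach (snd (μ.rep (ap μ.mach c (fst t)))) (snd t), by fun_prop, by simp⟩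
    have key : ∀ w, z < w → _ := fun w hw => mu_lt ((reg_sa w).bdd hF
      ((sb_lt_sa (m := μ.mach) (z + 1)).trans_le (sa_strictMono.monotone (add_one_le_iff.2 hw))))
    have hg := he.comp (f := fun w => mu (fun b => ∀ i < sb μ.mach (z + 1),
      F i < sa μ.mach w → F i < b)) (by fun_prop)
    obtain ⟨i, h₇, h₈, h₉⟩ := hc _ (rk_lt hg hf (((h₆ z hz).and h₂).mono fun x h =>
      h.2 ▸ (key _ h.1).1))
    obtain ⟨r₁, r₂⟩ := rep_spec (μ := μ) (ap μ.mach c i)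
    rw [← r₂] at h₈ h₉
    refine (rk_lt r₁.el hg ((((rk_lt_iff r₁.el hf).1 h₉).and ((h₆ z hz).and (h₂.and
      (ae_encL (decL (fst (μ.rep (ap μ.mach c i)))))))).mono fun x h => ?_)).not_ge h₈
    have := (key _ h.2.1).2 _ ((reg_sb (z + 1)).gcl.G
      ((h₇.trans_le ‹_›).trans (sa_lt_sb (lt_add_one z)))
      (h.2.2.2.trans (κ_lt_th.trans (th_lt_sb _))))
    rw [eF] at this
    exact this (h.2.2.1 ▸ h.1)
  rintro ⟨-, h | ⟨z, -, h⟩⟩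
  · exact ((ka_lt_th.trans (th_lt_sa 0)).trans (low 0 hl.1)).not_gt h
  · rcases lt_or_ge z s with h' | h'
    · exact (low z h').ne' h
    · exact (up.trans_lt (((lt_sc _).trans (sb_lt_sa s)).trans_le
        (sa_strictMono.monotone h'))).ne h

/-- The cofinality pattern decodes the range of the embedding. -/
theorem decode {d : Ordinal.{u}} (hd : ∀ z < th μ.mach, ap μ.mach d z = sa μ.mach z)
    {y : Ordinal.{u}} (hy : y < μ.j (th μ.mach)) :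
    Dt μ.mach (ap μ.mach.it (μ.j d) y) ↔ ∃ z < th μ.mach, y = μ.j z := by
  constructor
  · obtain ⟨e, he, rfl⟩ := rk_surj (μ := μ) y
    have h₁ := (rk_lt_iff he (Fn.const _)).1 hy
    refine not_imp_not.1 fun h => rk_ap d he ▸ not_dt he (he.comp (by fun_prop)) h₁
      (h₁.mono fun x => hd _) fun z hz e => h ⟨z, hz, e⟩
  · rintro ⟨z, hz, rfl⟩
    have := cf_j (reg_sa (m := μ.mach) z) (κ_lt_th.trans (th_lt_sa z))
    rw [j, j, ← j, ← rk_ap d (Fn.const z), hd z hz]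
    exact ⟨this.1, Or.inr ⟨z, hz, this.2⟩⟩

/-- The measure is definable from the cofinality pattern. -/
theorem meas_def {V : Type v} {𝒞 : FO.{u, v} Unit V} [Full 𝒞] [HasSep 𝒞]
    (hD : 𝒞.Tm (Dt μ.mach))
    (hS : ∀ s : 𝒞.Ob, (SS μ.mach).Tm (fun z : Ordinal.{u} × Ordinal.{u} => Mem2 ⟨()⟩ s z.1 z.2)) :
    ∃ (T : Ordinal.{u} → Prop) (R : Ordinal.{u} × Ordinal.{u} → Prop), 𝒞.Tm T ∧ 𝒞.Tm R ∧
      ∀ X : Ordinal.{u} → Prop, (SS μ.mach).Tm X →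
        ((∀ᶠ x in (μ.U : Filter Ordinal.{u}), X x) ↔ ∃ y, T y ∧ ∀ x < μ.κ, (X x ↔ R (y, x))) := by
  obtain ⟨d, hd⟩ := code_fun (m := μ.mach) (f := sa μ.mach) (by fun_prop) (th μ.mach)
  obtain ⟨R, hR, e⟩ : ∃ R : Ordinal.{u} × Ordinal.{u} → Prop, 𝒞.Tm R ∧
    ∀ a b, R (a, b) = P μ.mach.it a b := ⟨_, tm_P_it hD hS, fun _ _ => rfl⟩
  obtain ⟨D, hD', e'⟩ : ∃ D : Ordinal.{u} → Prop, 𝒞.Tm D ∧ D = Dt μ.mach := ⟨_, hD, rfl⟩
  refine ⟨fun y => y < μ.j (th μ.mach) ∧ D (mu (fun v => R (μ.j d, G y v))) ∧ R (y, μ.κ), R,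
    by fun_prop, hR, fun X hX => ?_⟩
  simp only [e, e']
  constructor
  · intro h
    obtain ⟨c, h₁, h₂⟩ := code_set_cb hX μ.κ
    exact ⟨μ.j c, ⟨j_strictMono h₁, (decode hd (j_strictMono h₁)).2 ⟨c, h₁, rfl⟩,
      P_j_κ.2 ((h.and μ.hκ).mono fun x hx => (h₂ x hx.2).2 hx.1)⟩,
      fun x hx => ((P_j_small hx).trans (h₂ x hx)).symm⟩
  · rintro ⟨y, ⟨h₁, h₂, h₃⟩, h₄⟩
    obtain ⟨c, -, rfl⟩ := (decode hd h₁).1 h₂
    exact ((P_j_κ.1 h₃).and μ.hκ).mono fun x hx => (h₄ x hx.2).2 ((P_j_small hx.2).2 hx.1)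

end Pool.Agent.MP_9a6faa_lc.W

end

section

namespace Pool.Agent.MP_9a6faa_lc.W

open FirstOrder

universe u v

/-- Formulas of set theory with de Bruijn indices. -/
inductive Fml : Type
  | mem (i j : ℕ) : Fml
  | eq (i j : ℕ) : Fml
  | bot : Fml
  | imp (φ ψ : Fml) : Fml
  | all (φ : Fml) : Fml

def cons {α : Type v} (x : α) (w : ℕ → α) : ℕ → α
  | 0 => x
  | k + 1 => w k

@[simp] theorem cons_zero {α : Type v} (x : α) (w : ℕ → α) : cons x w 0 = x := rfl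
@[simp] theorem cons_succ {α : Type v} (x : α) (w : ℕ → α) (k : ℕ) : cons x w (k + 1) = w k := rfl

/-- The environment given by a list, with a default value. -/
def env {α : Type v} (d : α) (l : List α) : ℕ → α := fun k => l.getD k d

theorem env_cons {α : Type v} (d x : α) (l : List α) : env d (x :: l) = cons x (env d l) := by
  funext k; cases k <;> simp [env]

theorem env_map {α β : Type v} (f : α → β) (d : α) (l : List α) :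
    env (f d) (l.map f) = fun k => f (env d l k) := by
  funext k
  simp [env, List.getD_eq_getElem?_getD]

theorem env_mem {α : Type v} {S : Set α} {d : α} {l : List α} (hd : d ∈ S)
    (hl : ∀ x ∈ l, x ∈ S) (k : ℕ) : env d l k ∈ S := by
  unfold env
  rw [List.getD_eq_getElem?_getD]
  cases h : l[k]? with
  | none => simpa using hd
  | some a => simpa using hl a (List.mem_of_getElem? h)

theorem comp_cons {α β : Type v} (f : α → β) (x : α) (w : ℕ → α) :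
    (fun k => f (cons x w k)) = cons (f x) (fun k => f (w k)) := by
  funext k; cases k <;> rfl

def Sat {M : Type v} (E : M → M → Prop) : Fml → (ℕ → M) → Prop
  | .mem i j, w => E (w i) (w j)
  | .eq i j, w => w i = w j
  | .bot, _ => False
  | .imp φ ψ, w => Sat E φ w → Sat E ψ w
  | .all φ, w => ∀ x, Sat E φ (cons x w)

def liftIdx (f : ℕ → ℕ) : ℕ → ℕ
  | 0 => 0
  | k + 1 => f k + 1

def Fml.rename : Fml → (ℕ → ℕ) → Fml
  | .mem i j, f => .mem (f i) (f j)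
  | .eq i j, f => .eq (f i) (f j)
  | .bot, _ => .bot
  | .imp φ ψ, f => .imp (φ.rename f) (ψ.rename f)
  | .all φ, f => .all (φ.rename (liftIdx f))

theorem sat_rename {M : Type v} (E : M → M → Prop) : ∀ (φ : Fml) (f : ℕ → ℕ) (w : ℕ → M),
    Sat E (φ.rename f) w ↔ Sat E φ (fun k => w (f k)) := by
  intro φ
  induction φ with
  | mem i j => intro f w; rfl
  | eq i j => intro f w; rfl
  | bot => intro f w; rfl
  | imp φ ψ ih₁ ih₂ => intro f w; simp only [Fml.rename, Sat, ih₁, ih₂]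
  | all φ ih =>
    intro f w
    simp only [Fml.rename, Sat, ih]
    refine forall_congr' fun x => ?_
    have : (fun k => cons x w (liftIdx f k)) = cons x (fun k => w (f k)) := by
      funext k; cases k <;> rfl
    rw [this]

/-- A property of valuations that is uniformly expressed by a formula. -/
def UDef (Ψ : ∀ (M : Type v), (M → M → Prop) → (ℕ → M) → Prop) : Prop :=
  ∃ φ : Fml, ∀ (M : Type v) (E : M → M → Prop) (w : ℕ → M), Sat E φ w ↔ Ψ M E w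

namespace UDef

variable {Φ Ψ : ∀ (M : Type v), (M → M → Prop) → (ℕ → M) → Prop}
variable {Θ : ∀ (M : Type v), (M → M → Prop) → (ℕ → M) → M → Prop}

theorem mem (i j : ℕ) : UDef.{v} (fun _ E w => E (w i) (w j)) := ⟨.mem i j, fun _ _ _ => Iff.rfl⟩

theorem eq (i j : ℕ) : UDef.{v} (fun _ _ w => w i = w j) := ⟨.eq i j, fun _ _ _ => Iff.rfl⟩

theorem bot : UDef.{v} (fun _ _ _ => False) := ⟨.bot, fun _ _ _ => Iff.rfl⟩

theorem sat (φ : Fml) (f : ℕ → ℕ) : UDef.{v} (fun _ E w => Sat E φ (fun k => w (f k))) :=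
  ⟨φ.rename f, fun _ E w => sat_rename E φ f w⟩

theorem imp (h₁ : UDef Φ) (h₂ : UDef Ψ) : UDef (fun M E w => Φ M E w → Ψ M E w) := by
  obtain ⟨φ, h₁⟩ := h₁
  obtain ⟨ψ, h₂⟩ := h₂
  exact ⟨.imp φ ψ, fun M E w => by simp only [Sat, h₁, h₂]⟩

theorem congr (h : UDef Φ) (e : ∀ M E w, Φ M E w ↔ Ψ M E w) : UDef Ψ := by
  obtain ⟨φ, h⟩ := h
  exact ⟨φ, fun M E w => (h M E w).trans (e M E w)⟩

theorem not (h : UDef Φ) : UDef (fun M E w => ¬ Φ M E w) := h.imp bot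

theorem ne (i j : ℕ) : UDef.{v} (fun _ _ w => w i ≠ w j) := (eq i j).not

theorem and (h₁ : UDef Φ) (h₂ : UDef Ψ) : UDef (fun M E w => Φ M E w ∧ Ψ M E w) :=
  (h₁.imp h₂.not).not.congr fun _ _ _ => by tauto

theorem or (h₁ : UDef Φ) (h₂ : UDef Ψ) : UDef (fun M E w => Φ M E w ∨ Ψ M E w) :=
  (h₁.not.imp h₂).congr fun _ _ _ => by tauto

theorem iff (h₁ : UDef Φ) (h₂ : UDef Ψ) : UDef (fun M E w => Φ M E w ↔ Ψ M E w) :=
  ((h₁.imp h₂).and (h₂.imp h₁)).congr fun _ _ _ => by tauto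

theorem all (h : UDef (fun M E w => Θ M E (fun k => w (k + 1)) (w 0))) :
    UDef (fun M E w => ∀ x, Θ M E w x) := by
  obtain ⟨φ, h⟩ := h
  refine ⟨.all φ, fun M E w => ?_⟩
  simp only [Sat, h]
  rfl

theorem ex (h : UDef (fun M E w => Θ M E (fun k => w (k + 1)) (w 0))) :
    UDef (fun M E w => ∃ x, Θ M E w x) :=
  (all (Θ := fun M E w x => ¬ Θ M E w x) h.not).not.congr fun _ _ _ => by simp

theorem isPair (i j k : ℕ) : UDef.{v} (fun _ E w => IsPair E (w i) (w j) (w k)) := by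
  unfold IsPair
  repeat' first
    | exact mem _ _ | exact eq _ _ | apply UDef.and | apply UDef.or | apply UDef.iff
    | apply UDef.all

theorem app (i j k : ℕ) : UDef.{v} (fun _ E w => App E (w i) (w j) (w k)) := by
  unfold App
  repeat' first
    | exact mem _ _ | exact eq _ _ | exact isPair _ _ _ | apply UDef.and | apply UDef.ex

theorem isFun (i j k : ℕ) : UDef.{v} (fun _ E w => IsFun E (w i) (w j) (w k)) := by
  unfold IsFun ExistsUnique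
  repeat' first
    | exact mem _ _ | exact eq _ _ | exact isPair _ _ _ | exact app _ _ _
    | apply UDef.and | apply UDef.or | apply UDef.iff
    | apply UDef.not | apply UDef.imp | apply UDef.all | apply UDef.ex

end UDef

/-! ### Translation from Mathlib formulas -/

def tvar {β : Type v} : Language.graph.Term β → β
  | .var b => b
  | .func f _ => Empty.elim f

theorem realize_tvar {M : Type v} (E : M → M → Prop) {β : Type v} (t : Language.graph.Term β)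
    (w : β → M) : @Language.Term.realize _ M (memStr E) β w t = w (tvar t) := by
  cases t with
  | var b => rfl
  | func f _ => exact Empty.elim f

def shiftIdx {α : Type v} {n : ℕ} (f : α ⊕ Fin n → ℕ) : α ⊕ Fin (n + 1) → ℕ
  | .inl a => f (.inl a) + 1
  | .inr i => Fin.lastCases 0 (fun j => f (.inr j) + 1) i

def trRel {β : Type v} (f : β → ℕ) : {l : ℕ} → Language.graphRel l →
    (Fin l → Language.graph.Term β) → Fml
  | _, .adj, ts => .mem (f (tvar (ts 0))) (f (tvar (ts 1)))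

def tr {α : Type v} : {n : ℕ} → Language.graph.BoundedFormula α n → (α ⊕ Fin n → ℕ) → Fml
  | _, .falsum, _ => .bot
  | _, .equal t₁ t₂, f => .eq (f (tvar t₁)) (f (tvar t₂))
  | _, .rel r ts, f => trRel f r ts
  | _, .imp φ ψ, f => .imp (tr φ f) (tr ψ f)
  | _, .all φ, f => .all (tr φ (shiftIdx f))

theorem sat_tr {M : Type v} (E : M → M → Prop) {α : Type v} (a : α → M) :
    ∀ {n : ℕ} (φ : Language.graph.BoundedFormula α n) (f : α ⊕ Fin n → ℕ) (xs : Fin n → M)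
      (w : ℕ → M), (∀ b, w (f b) = Sum.elim a xs b) →
      (Sat E (tr φ f) w ↔ @Language.BoundedFormula.Realize _ M (memStr E) α n φ a xs) := by
  intro n φ
  induction φ with
  | falsum => intro f xs w _; rfl
  | equal t₁ t₂ =>
    intro f xs w h
    simp only [tr, Sat, h, Language.BoundedFormula.Realize, realize_tvar]
  | rel r ts =>
    intro f xs w h
    cases r
    simp only [tr, trRel, Sat, h, Language.BoundedFormula.Realize, realize_tvar]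
    rfl
  | imp φ ψ ih₁ ih₂ =>
    intro f xs w h
    simp only [tr, Sat, Language.BoundedFormula.Realize, ih₁ f xs w h, ih₂ f xs w h]
  | all φ ih =>
    intro f xs w h
    simp only [tr, Sat, Language.BoundedFormula.Realize]
    refine forall_congr' fun x => ih _ _ _ ?_
    rintro (b | i)
    · simpa [shiftIdx] using h (.inl b)
    · refine Fin.lastCases ?_ (fun j => ?_) i
      · simp [shiftIdx]
      · simpa [shiftIdx] using h (.inr j)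

theorem exists_fml_of_definable {M : Type v} (E : M → M → Prop) {n : ℕ} (S : Set (Fin n → M))
    (h : @Set.Definable M Set.univ Language.graph (memStr E) (Fin n) S) :
    ∃ (φ : Fml) (l : List M), ∀ (x : Fin n → M) (w : ℕ → M) (d : M), (∀ i : Fin n, w i = x i) →
      (∀ k, w (k + n) = env d l k) → (Sat E φ w ↔ x ∈ S) := by
  classical
  let _ := memStr E
  obtain ⟨A, -, h⟩ := Set.definable_iff_finitely_definable.1 h
  obtain ⟨φ, rfl⟩ := Set.definable_iff_exists_formula_sum.1 h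
  let l : List M := A.toList
  have hl : ∀ a : (A : Set M), ∃ k, l[k]? = some a.1 := fun a =>
    List.mem_iff_getElem?.1 (Finset.mem_toList.2 a.2)
  choose idx hidx using hl
  let f : ((A : Set M) ⊕ Fin n) ⊕ Fin 0 → ℕ :=
    Sum.elim (Sum.elim (fun a => idx a + n) (fun i => i)) Fin.elim0
  refine ⟨tr φ f, l, fun x w d hx hw => ?_⟩
  refine sat_tr E _ φ f _ w ?_
  rintro ((a | i) | i)
  · simp [f, hw, env, List.getD_eq_getElem?_getD, hidx]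
  · simp [f, hx]
  · exact i.elim0

theorem exists_fml_of_definable₁ {M : Type v} (E : M → M → Prop) (S : Set M)
    (h : @Set.Definable₁ M Set.univ Language.graph (memStr E) S) :
    ∃ (φ : Fml) (l : List M), ∀ (x d : M), (Sat E φ (cons x (env d l)) ↔ x ∈ S) := by
  obtain ⟨φ, l, h⟩ := exists_fml_of_definable E _ h
  refine ⟨φ, l, fun x d => h ![x] _ d (fun i => ?_) (fun k => rfl)⟩
  fin_cases i; rfl

theorem exists_fml_of_definable₂ {M : Type v} (E : M → M → Prop) (R : Set (M × M))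
    (h : @Set.Definable₂ M Set.univ Language.graph (memStr E) R) :
    ∃ (φ : Fml) (l : List M), ∀ (x y d : M),
      (Sat E φ (cons y (cons x (env d l))) ↔ (x, y) ∈ R) := by
  let _ := memStr E
  have h' : (Set.univ : Set M).Definable Language.graph {x : Fin 2 → M | (x 1, x 0) ∈ R} := by
    have := Set.Definable.preimage_comp (Equiv.swap (0 : Fin 2) 1) h
    convert this using 1
    ext x
    simp
  obtain ⟨φ, l, h⟩ := exists_fml_of_definable E _ h'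
  refine ⟨φ, l, fun x y d => h ![y, x] _ d (fun i => ?_) (fun k => rfl)⟩
  fin_cases i <;> rfl

end Pool.Agent.MP_9a6faa_lc.W

end

section

namespace Pool.Agent.MP_9a6faa_lc.W

open Set Order FO

universe u v w

variable [Pat]

variable {m : Mach.{u}}

/-- The set coded by an ordinal. -/
noncomputable def val0 (m : Mach.{u}) (c : Ordinal.{u}) : ZFSet.{u} :=
  ZFSet.range (fun z : {z : Iio c // P m c z} => val0 m z.1)
termination_by c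
decreasing_by exact z.1.2

theorem mem_val0 {c : Ordinal.{u}} {x : ZFSet.{u}} : x ∈ val0 m c ↔ ∃ z, P m c z ∧ val0 m z = x := by
  rw [val0, ZFSet.mem_range]
  exact ⟨fun ⟨z, h⟩ => ⟨z.1, z.2, h⟩, fun ⟨z, h₁, h₂⟩ => ⟨⟨⟨z, P_lt h₁⟩, h₁⟩, h₂⟩⟩

def Eq0 (m : Mach.{u}) (a b : Ordinal.{u}) : Prop := val0 m a = val0 m b

def Mem0 (m : Mach.{u}) (a b : Ordinal.{u}) : Prop := val0 m a ∈ val0 m b

/-- The least code of a set of codes. -/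
noncomputable def cs (m : Mach.{u}) (R : Ordinal.{u} → Prop) : Ordinal.{u} :=
  mu (fun c => ∀ z, P m c z ↔ R z)

theorem cs_spec {R : Ordinal.{u} → Prop} (h : (SS m).Tm R) (hb : ∃ b, ∀ z, R z → z < b)
    (z : Ordinal.{u}) : P m (cs m R) z ↔ R z := by
  obtain ⟨b, hb⟩ := hb
  obtain ⟨c, hc⟩ := code_set h b
  exact mu_spec (R := fun c => ∀ z, P m c z ↔ R z)
    ⟨c, fun z => (hc z).trans (and_iff_right_of_imp (hb z))⟩ z

noncomputable def on (m : Mach.{u}) (a : Ordinal.{u}) : Ordinal.{u} :=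
  cs m (fun z => ∃ b : Iio a, z = on m b)
termination_by a
decreasing_by exact b.2

noncomputable def up (m : Mach.{u}) (a b : Ordinal.{u}) : Ordinal.{u} :=
  cs m (fun z => z = a ∨ z = b)

noncomputable def pn (m : Mach.{u}) (a b : Ordinal.{u}) : Ordinal.{u} := up m (up m a a) (up m a b)

/-- Linear orders whose ground model cofinality is of the distinguished type. -/
def DCof (m : Mach.{u}) (R : ZFSet.{u} → ZFSet.{u} → Prop) : Prop :=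
  IsLin R ∧ ∃ a c, Dt m a ∧
    (∀ i j, i < j → j < a → R (val0 m (ap m c i)) (val0 m (ap m c j))) ∧
    ∀ x, Fld R x → ∃ i < a, R x (val0 m (ap m c i))

def DCof0 (m : Mach.{u}) (R : Ordinal.{u} → Ordinal.{u} → Prop) : Prop :=
  ((∀ x, ¬ R x x) ∧ (∀ x y z, R x y → R y z → R x z) ∧
    ∀ x y, (∃ z, R x z ∨ R z x) → (∃ z, R y z ∨ R z y) → R x y ∨ Eq0 m x y ∨ R y x) ∧
  ∃ a c, Dt m a ∧ (∀ i j, i < j → j < a → R (ap m c i) (ap m c j)) ∧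
    ∀ x, (∃ z, R x z ∨ R z x) → ∃ i < a, R x (ap m c i)

theorem dcof_iff {R : ZFSet.{u} → ZFSet.{u} → Prop} (h : ∀ x, Fld R x → ∃ c, val0 m c = x) :
    DCof0 m (fun a b => R (val0 m a) (val0 m b)) ↔ DCof m R := by
  have fld : ∀ x, (∃ z, R (val0 m x) (val0 m z) ∨ R (val0 m z) (val0 m x)) ↔ Fld R (val0 m x) :=
    fun x => ⟨fun ⟨z, h⟩ => ⟨_, h⟩, fun ⟨y, h'⟩ => by
      obtain ⟨c, rfl⟩ := h y ⟨_, h'.symm⟩
      exact ⟨c, h'⟩⟩
  simp only [DCof0, fld]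
  refine and_congr ⟨fun ⟨h₁, h₂, h₃⟩ => ⟨fun x hx => ?_, fun x y z hx hy => ?_,
    fun x y hx hy => ?_⟩, fun ⟨h₁, h₂, h₃⟩ => ⟨fun _ => h₁ _, fun _ _ _ => h₂ _ _ _,
      fun _ _ => h₃ _ _⟩⟩ (exists₂_congr fun a c => and_congr_right fun _ =>
        and_congr_right fun _ => ⟨fun h₁ x hx => ?_, fun h₁ _ => h₁ _⟩)
  · obtain ⟨c, rfl⟩ := h x ⟨x, Or.inl hx⟩
    exact h₁ c hx
  · obtain ⟨a, rfl⟩ := h x ⟨y, Or.inl hx⟩
    obtain ⟨b, rfl⟩ := h y ⟨z, Or.inl hy⟩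
    obtain ⟨c, rfl⟩ := h z ⟨_, Or.inr hy⟩
    exact h₂ a b c hx hy
  · obtain ⟨a, rfl⟩ := h x hx
    obtain ⟨b, rfl⟩ := h y hy
    exact h₃ a b hx hy
  · obtain ⟨a, rfl⟩ := h x hx
    exact h₁ a hx

noncomputable def qenc : QF → Ordinal.{u}
  | .mem i j => G 1 (G i j)
  | .eq i j => G 2 (G i j)
  | .bot => G 3 0
  | .imp φ ψ => G 4 (G (qenc φ) (qenc ψ))
  | .all φ => G 5 (qenc φ)
  | .cof φ => G 6 (qenc φ)

theorem qenc_inj : Function.Injective qenc.{u} := by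
  intro φ
  induction φ with
  | imp φ ψ ih₁ ih₂ =>
    intro χ h
    cases χ <;> simp [qenc, G_inj] at h
    rw [ih₁ h.1, ih₂ h.2]
  | all φ ih | cof φ ih =>
    intro χ h
    cases χ <;> simp [qenc, G_inj] at h
    rw [ih h]
  | _ => intro χ h; cases χ <;> simp_all [qenc, G_inj]

instance : Nonempty QF := ⟨.bot⟩

def qsw (A B : ℕ → ℕ → Prop) (C : QF → QF → Prop) (D E : QF → Prop) : QF → Prop
  | .mem i j => A i j
  | .eq i j => B i j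
  | .bot => False
  | .imp φ ψ => C φ ψ
  | .all φ => D φ
  | .cof φ => E φ

theorem qsw_iff {A B : ℕ → ℕ → Prop} {C : QF → QF → Prop} {D E : QF → Prop} (χ : QF) :
    ((∃ i j : ℕ, (qenc χ = G.{u} 1 (G i j) ∧ A i j) ∨ (qenc χ = G.{u} 2 (G i j) ∧ B i j)) ∨
      (∃ φ ψ : QF, qenc χ = G.{u} 4 (G (qenc φ) (qenc ψ)) ∧ C φ ψ) ∨
      ∃ φ : QF, (qenc χ = G.{u} 5 (qenc φ) ∧ D φ) ∨ (qenc χ = G.{u} 6 (qenc φ) ∧ E φ)) ↔
    qsw A B C D E χ := by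
  cases χ <;> simp [qenc, G_inj, qsw, qenc_inj.eq_iff]

/-- Satisfaction in the set coded by `A`. -/
def Sat0 (m : Mach.{u}) (A d : Ordinal.{u}) (φ : QF) (l : OL.{u}) : Prop :=
  SatQ (· ∈ ·) (DCof m) {x | x ∈ val0 m A} (val0 m d) φ (l.map (val0 m))

noncomputable def dc (m : Mach.{u}) (A : Ordinal.{u}) (φ : QF) (l : OL.{u}) : Ordinal.{u} :=
  cs m (fun z => P m A z ∧ Sat0 m A z φ (z :: l))

/-- Codes of the levels of the hierarchy. -/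
noncomputable def lv (m : Mach.{u}) (a : Ordinal.{u}) : Ordinal.{u} :=
  cs m (fun z => ∃ b : Iio a, ∃ φ l, (∀ x, x ∈ l → P m (lv m b) x) ∧ z = dc m (lv m b) φ l)
termination_by a
decreasing_by all_goals exact b.2

section

variable {I : Type} {V : Type v} {𝒜 : FO.{u, v} I V} {Γ : Type*} [Cd 𝒜 Γ] [HasSep 𝒜]

theorem df_isF : 𝒜.Df (fun c : Ordinal.{u} => ∃ φ, qenc φ = c) := by
  have := tm_grec (𝒜 := 𝒜) (Γ := Ordinal.{u}) (A := Ordinal.{u}) id id Tm.id Tm.id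
    (fun _ _ h _ => h) (fun _ c => ∃ φ, qenc φ = c)
    (fun _ R c => (∃ i j : ℕ, c = G 1 (G i j) ∨ c = G 2 (G i j)) ∨ c = G 3 0 ∨
      ∃ a b, R a ∧ R b ∧ (c = G 4 (G a b) ∨ c = G 5 a ∨ c = G 6 a))
    (fun _ a x => x < a) (by fun_prop)
    (fun _ c => by
      constructor
      · rintro ⟨_ | _ | _ | ⟨φ, ψ⟩ | φ | φ, rfl⟩
        exacts [Or.inl ⟨_, _, Or.inl rfl⟩, Or.inl ⟨_, _, Or.inr rfl⟩, Or.inr (Or.inl rfl),
          Or.inr (Or.inr ⟨_, _, ⟨(lt_cd (by simp) _ _).1, φ, rfl⟩, ⟨(lt_cd (by simp) _ _).2, ψ, rfl⟩,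
            Or.inl rfl⟩),
          Or.inr (Or.inr ⟨_, _, ⟨right_lt_G _ (by simp), φ, rfl⟩, ⟨right_lt_G _ (by simp), φ, rfl⟩,
            Or.inr (Or.inl rfl)⟩),
          Or.inr (Or.inr ⟨_, _, ⟨right_lt_G _ (by simp), φ, rfl⟩, ⟨right_lt_G _ (by simp), φ, rfl⟩,
            Or.inr (Or.inr rfl)⟩)]
      · rintro (⟨i, j, rfl | rfl⟩ | rfl | ⟨_, _, ⟨-, φ, rfl⟩, ⟨-, ψ, rfl⟩, rfl | rfl | rfl⟩)
        exacts [⟨.mem i j, rfl⟩, ⟨.eq i j, rfl⟩, ⟨.bot, rfl⟩, ⟨.imp φ ψ, rfl⟩, ⟨.all φ, rfl⟩,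
          ⟨.cof φ, rfl⟩])
    (fun R hR => by fun_prop) (fun _ _ _ h => h)
    (fun _ _ a => ⟨a + 1, lt_add_one a, fun _ _ h _ h' => h'.trans h⟩)
  exact (this.comp (Tm.id.pair Tm.id)).df

noncomputable instance : Cd 𝒜 QF := cdOfEnc qenc qenc_inj df_isF

instance : Pure 𝒜 QF := ⟨fun _ _ => trivial⟩

@[fun_prop] theorem tm_enc {φ : Γ → QF} (h : 𝒜.Tm φ) : 𝒜.Tm (fun z => qenc.{u} (φ z)) := by
  have : 𝒜.Tm qenc.{u} := Tm.mk' (fun _ _ _ => trivial) 𝒜.eq fun i x y _ _ => by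
    constructor
    · rintro ⟨z, e⟩
      obtain ⟨e₁, e₂⟩ := pr_iff.1 e
      exact 𝒜.o_inj (e₂.trans e₁.symm)
    · rintro rfl
      exact ⟨_, rfl⟩
  exact this.comp h

variable [Cd 𝒜 Mach.{u}] [HasQ 𝒜] {m : Γ → Mach.{u}} {a b : Γ → Ordinal.{u}}

@[fun_prop] theorem tm_Eq0 (hm : 𝒜.Tm m) (ha : 𝒜.Tm a) (hb : 𝒜.Tm b) :
    𝒜.Tm (fun z => Eq0 (m z) (a z) (b z)) := by
  have := tm_grec (𝒜 := 𝒜) (A := Ordinal.{u} × Ordinal.{u}) Prod.fst Prod.snd (by fun_prop)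
    (by fun_prop) (fun _ _ => Prod.ext) (fun (m : Mach.{u}) z => Eq0 m z.1 z.2)
    (fun m R z => (∀ x, P m z.1 x → ∃ y, P m z.2 y ∧ R (x, y)) ∧
      ∀ y, P m z.2 y → ∃ x, P m z.1 x ∧ R (x, y))
    (fun _ z w => w.1 < z.1 ∧ w.2 < z.2) (by fun_prop) (fun m z => by
      constructor
      · intro h
        refine ⟨fun x hx => ?_, fun y hy => ?_⟩
        · obtain ⟨y, h₁, h₂⟩ := mem_val0.1 (h ▸ mem_val0.2 ⟨x, hx, rfl⟩ : _ ∈ val0 m z.2)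
          exact ⟨y, h₁, ⟨P_lt hx, P_lt h₁⟩, h₂.symm⟩
        · obtain ⟨x, h₁, h₂⟩ := mem_val0.1 (h ▸ mem_val0.2 ⟨y, hy, rfl⟩ : _ ∈ val0 m z.1)
          exact ⟨x, h₁, ⟨P_lt h₁, P_lt hy⟩, h₂⟩
      · rintro ⟨h₁, h₂⟩
        refine ZFSet.ext fun w => ?_
        simp only [mem_val0]
        exact ⟨fun ⟨x, hx, e⟩ => let ⟨y, h₃, _, h₄⟩ := h₁ x hx; ⟨y, h₃, h₄.symm.trans e⟩,
          fun ⟨y, hy, e⟩ => let ⟨x, h₃, _, h₄⟩ := h₂ y hy; ⟨x, h₃, h₄.trans e⟩⟩)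
    (fun R hR => by fun_prop) (fun _ _ _ h => h.1)
    (fun _ _ a => ⟨a.2 + 1, lt_add_one _, fun _ _ h _ h' => h'.2.trans h⟩)
  exact this.comp (hm.pair (ha.pair hb))

@[fun_prop] theorem tm_Mem0 (hm : 𝒜.Tm m) (ha : 𝒜.Tm a) (hb : 𝒜.Tm b) :
    𝒜.Tm (fun z => Mem0 (m z) (a z) (b z)) :=
  Tm.congrP (Q := fun z => ∃ x, P (m z) (b z) x ∧ Eq0 (m z) x (a z)) (by fun_prop)
    fun _ => mem_val0.symm

@[fun_prop] theorem tm_cs {R : Γ → Ordinal.{u} → Prop} (hm : 𝒜.Tm m)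
    (hR : 𝒜.Tm (fun z : Γ × Ordinal.{u} => R z.1 z.2)) :
    𝒜.Tm (fun z => cs (m z) (fun x => R z x)) := by
  unfold cs; fun_prop

@[fun_prop] theorem tm_on (hm : 𝒜.Tm m) (ha : 𝒜.Tm a) : 𝒜.Tm (fun z => on (m z) (a z)) :=
  (tm_frec (𝒜 := 𝒜) on (fun m k a => cs m (fun z => ∃ b < a, z = k b))
    (fun m a k hk => by
      rw [on]
      exact congrArg _ (funext fun z => propext ⟨fun ⟨b, h, e⟩ => ⟨⟨b, h⟩, hk b h ▸ e⟩,
        fun ⟨b, e⟩ => ⟨b, b.2, (hk b b.2).symm ▸ e⟩⟩))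
    (fun k hk => by fun_prop)).comp (hm.pair ha)

@[fun_prop] theorem tm_pn (hm : 𝒜.Tm m) (ha : 𝒜.Tm a) (hb : 𝒜.Tm b) :
    𝒜.Tm (fun z => pn (m z) (a z) (b z)) := by
  unfold pn up; fun_prop

@[fun_prop] theorem tm_DCof0 {R : Γ → Ordinal.{u} → Ordinal.{u} → Prop} (hm : 𝒜.Tm m)
    (hR : 𝒜.Tm (fun z : Γ × Ordinal.{u} × Ordinal.{u} => R z.1 z.2.1 z.2.2)) :
    𝒜.Tm (fun z => DCof0 (m z) (fun x y => R z x y)) := by
  unfold DCof0; fun_prop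

omit [Cd 𝒜 Mach.{u}] [HasQ 𝒜] in
@[fun_prop] theorem tm_sw {A B : Γ → ℕ → ℕ → Prop} {C : Γ → QF → QF → Prop} {D E : Γ → QF → Prop}
    {φ : Γ → QF} (hA : 𝒜.Tm (fun z : Γ × ℕ × ℕ => A z.1 z.2.1 z.2.2))
    (hB : 𝒜.Tm (fun z : Γ × ℕ × ℕ => B z.1 z.2.1 z.2.2))
    (hC : 𝒜.Tm (fun z : Γ × QF × QF => C z.1 z.2.1 z.2.2))
    (hD : 𝒜.Tm (fun z : Γ × QF => D z.1 z.2)) (hE : 𝒜.Tm (fun z : Γ × QF => E z.1 z.2))
    (hφ : 𝒜.Tm φ) : 𝒜.Tm (fun z => qsw (fun i j => A z i j) (fun i j => B z i j)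
      (fun i j => C z i j) (fun i => D z i) (fun i => E z i) (φ z)) :=
  Tm.congrP (by fun_prop) fun z => qsw_iff.{u} (φ z)

@[fun_prop] theorem tm_Sat0 {φ : Γ → QF} {l : Γ → OL.{u}} (hm : 𝒜.Tm m) (ha : 𝒜.Tm a)
    (hb : 𝒜.Tm b) (hφ : 𝒜.Tm φ) (hl : 𝒜.Tm l) :
    𝒜.Tm (fun z => Sat0 (m z) (a z) (b z) (φ z) (l z)) := by
  have := tm_grec (𝒜 := 𝒜) (A := QF × OL.{u}) (fun z => qenc z.1) (fun z => encL z.2) (by fun_prop)
    (by fun_prop) (fun _ _ h h' => Prod.ext (qenc_inj h) (encL_inj h'))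
    (fun (g : Γ) z => Sat0 (m g) (a g) (b g) z.1 z.2)
    (fun g R z => qsw (fun i j => Mem0 (m g) (z.2.getD i (b g)) (z.2.getD j (b g)))
      (fun i j => Eq0 (m g) (z.2.getD i (b g)) (z.2.getD j (b g)))
      (fun φ ψ => R (φ, z.2) → R (ψ, z.2)) (fun φ => ∀ x, P (m g) (a g) x → R (φ, x :: z.2))
      (fun φ => DCof0 (m g) (fun x y => ∃ s t, P (m g) (a g) s ∧
        P (m g) (a g) t ∧ Eq0 (m g) x s ∧ Eq0 (m g) y t ∧ R (φ, s :: t :: z.2))) z.1)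
    (fun g z w => qenc w.1 < qenc.{u} z.1 ∧ (w.2 = z.2 ∨ (∃ x < a g, w.2 = x :: z.2) ∨
      ∃ x < a g, ∃ y < a g, w.2 = x :: y :: z.2)) (by fun_prop)
    (fun g z => by
      obtain ⟨_ | _ | _ | ⟨φ, ψ⟩ | φ | φ, l⟩ := z
      · simp only [qsw, Sat0, SatQ, Mem0, List.getD_map]
      · simp only [qsw, Sat0, SatQ, Eq0, List.getD_map]
      · exact Iff.rfl
      · exact imp_congr (and_iff_right ⟨(lt_cd (by simp) _ _).1, Or.inl rfl⟩).symm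
          (and_iff_right ⟨(lt_cd (by simp) _ _).2, Or.inl rfl⟩).symm
      · exact ⟨fun h x hx => ⟨⟨right_lt_G _ (by simp), Or.inr (Or.inl ⟨x, P_lt hx, rfl⟩)⟩,
          h _ (mem_val0.2 ⟨x, hx, rfl⟩)⟩,
          fun h _ hx => let ⟨x, hx, e⟩ := mem_val0.1 hx; e ▸ (h x hx).2⟩
      · simp only [qsw]
        rw [Sat0, SatQ, ← dcof_iff fun x ⟨y, h⟩ => by
          obtain ⟨c, -, e⟩ := mem_val0.1 (h.elim (·.1) (·.2.1))
          exact ⟨c, e⟩]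
        refine iff_of_eq (congrArg (DCof0 (m g)) (funext₂ fun x y => propext ⟨fun ⟨h₁, h₂, h₃⟩ => ?_,
          fun ⟨s, t, h₁, h₂, h₃, h₄, _, h₅⟩ => ?_⟩))
        · obtain ⟨s, h₄, e⟩ := mem_val0.1 h₁
          obtain ⟨t, h₅, e'⟩ := mem_val0.1 h₂
          exact ⟨s, t, h₄, h₅, e.symm, e'.symm, ⟨right_lt_G _ (by simp),
            Or.inr (Or.inr ⟨s, P_lt h₄, t, P_lt h₅, rfl⟩)⟩, by rwa [← e, ← e'] at h₃⟩
        · rw [h₃, h₄]
          exact ⟨mem_val0.2 ⟨s, h₁, rfl⟩, mem_val0.2 ⟨t, h₂, rfl⟩, h₅⟩)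
    (fun R hR => by fun_prop) (fun _ _ _ h => h.1) (fun g _ z => by
      obtain ⟨y, h₁, h₂, h₃⟩ := exists_gcl₂ (encL z.2) (a g)
      refine ⟨y, h₁, fun z _ h w hw => ?_⟩
      rcases hw.2 with e | ⟨s, hs, e⟩ | ⟨s, hs, t, ht, e⟩ <;> rw [e]
      exacts [h, h₃.succ (h₃.G (hs.trans h₂) h),
        h₃.succ (h₃.G (hs.trans h₂) (h₃.succ (h₃.G (ht.trans h₂) h)))])
  exact (this.comp (f := fun z => (z, φ z, l z)) (Tm.id.pair (hφ.pair hl)) :)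

@[fun_prop] theorem tm_dc {φ : Γ → QF} {l : Γ → OL.{u}} (hm : 𝒜.Tm m) (ha : 𝒜.Tm a)
    (hφ : 𝒜.Tm φ) (hl : 𝒜.Tm l) : 𝒜.Tm (fun z => dc (m z) (a z) (φ z) (l z)) := by
  unfold dc; fun_prop

@[fun_prop] theorem tm_lv (hm : 𝒜.Tm m) (ha : 𝒜.Tm a) : 𝒜.Tm (fun z => lv (m z) (a z)) :=
  (tm_frec (𝒜 := 𝒜) lv (fun m k a => cs m (fun z => ∃ b < a, ∃ φ l,
      (∀ x, x ∈ l → P m (k b) x) ∧ z = dc m (k b) φ l))
    (fun m a k hk => by
      rw [lv]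
      exact congrArg _ (funext fun z => propext ⟨fun ⟨b, h, e⟩ => ⟨⟨b, h⟩, hk b h ▸ e⟩,
        fun ⟨b, e⟩ => ⟨b, b.2, (hk b b.2).symm ▸ e⟩⟩))
    (fun k hk => by fun_prop)).comp (hm.pair ha)

end

theorem P_on {a z : Ordinal.{u}} : P m (on m a) z ↔ ∃ b < a, z = on m b := by
  obtain ⟨c, hc⟩ := bound_fun a (on m)
  rw [on, ← cs_spec (m := m) (R := fun z => ∃ b < a, z = on m b) (by fun_prop)
    ⟨c, fun _ ⟨b, h, e⟩ => e ▸ hc b h⟩]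
  simp

@[simp] theorem val0_on (a : Ordinal.{u}) : val0 m (on m a) = a.toZFSet := by
  induction a using WellFoundedLT.induction with
  | ind a ih =>
    ext x
    simp only [mem_val0, P_on, Ordinal.mem_toZFSet_iff]
    exact ⟨fun ⟨_, ⟨b, h, e⟩, e'⟩ => ⟨b, h, by rw [← e', e, ih b h]⟩,
      fun ⟨b, h, e⟩ => ⟨_, ⟨b, h, rfl⟩, (ih b h).trans e⟩⟩

theorem P_up {a b z : Ordinal.{u}} : P m (up m a b) z ↔ z = a ∨ z = b :=
  cs_spec (by fun_prop) ⟨max a b + 1, by rintro _ (rfl | rfl) <;> simp⟩ z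

theorem val0_up (a b : Ordinal.{u}) : val0 m (up m a b) = {val0 m a, val0 m b} := by
  ext x
  simp [mem_val0, P_up, eq_comm]

@[simp] theorem val0_pn (a b : Ordinal.{u}) :
    val0 m (pn m a b) = ZFSet.pair (val0 m a) (val0 m b) := by
  simp [pn, val0_up, ZFSet.pair]

theorem P_dc {A z : Ordinal.{u}} {φ : QF} {l : OL.{u}} :
    P m (dc m A φ l) z ↔ P m A z ∧ Sat0 m A z φ (z :: l) :=
  cs_spec (by fun_prop) ⟨A, fun _ h => P_lt h.1⟩ z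

theorem P_lv {a z : Ordinal.{u}} : P m (lv m a) z ↔
    ∃ b < a, ∃ φ l, (∀ x, x ∈ l → P m (lv m b) x) ∧ z = dc m (lv m b) φ l := by
  obtain ⟨c, hc⟩ := bound_fun a (lv m)
  obtain ⟨y, h₁, h₂⟩ := exists_gcl c
  obtain ⟨d, hd⟩ := exists_bound (fun t : Iio a × QF × Iio y => dc m (lv m t.1) t.2.1 (decL t.2.2))
  rw [lv, ← cs_spec (m := m) (R := fun z => ∃ b < a, ∃ φ l, (∀ x, x ∈ l → P m (lv m b) x) ∧
    z = dc m (lv m b) φ l) (by fun_prop) ⟨d, fun _ ⟨b, h, φ, l, h₃, e⟩ => by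
      simpa [e] using hd (⟨b, h⟩, φ, ⟨encL l, h₂.encL fun x hx =>
        ((P_lt (h₃ x hx)).trans (hc b h)).trans h₁⟩)⟩]
  simp

end Pool.Agent.MP_9a6faa_lc.W

end

section

namespace Pool.Agent.MP_9a6faa_lc.W

open Set Order Ordinal

universe u

variable [Pat]

/-- Membership on a class of sets. -/
def ES (A : ZFSet.{u} → Prop) (x y : Subtype A) : Prop := x.1 ∈ y.1

/-- Transitive classes closed under pairs. -/
structure TrP (A : ZFSet.{u} → Prop) : Prop where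
  tr : ∀ {x y}, A x → y ∈ x → A y
  up : ∀ {x y}, A x → A y → A {x, y}

theorem left_mem_pair {A x y : ZFSet.{u}} (h : A.IsTransitive) (e : ZFSet.pair x y ∈ A) : x ∈ A :=
  h.mem_trans (y := {x}) (by simp) (h.mem_trans (by simp [ZFSet.pair]) e)

theorem right_mem_pair {A x y : ZFSet.{u}} (h : A.IsTransitive) (e : ZFSet.pair x y ∈ A) : y ∈ A :=
  h.mem_trans (y := {x, y}) (by simp) (h.mem_trans (by simp [ZFSet.pair]) e)

namespace TrP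

variable {A : ZFSet.{u} → Prop} (h : TrP A)
include h

theorem pair {x y : ZFSet.{u}} (hx : A x) (hy : A y) : A (ZFSet.pair x y) := by
  simpa [ZFSet.pair] using h.up (h.up hx hx) (h.up hx hy)

theorem ext {a b : Subtype A} (e : ∀ x, ES A x a ↔ ES A x b) : a = b :=
  Subtype.ext (ZFSet.ext fun z => ⟨fun hz => (e ⟨z, h.tr a.2 hz⟩).1 hz,
    fun hz => (e ⟨z, h.tr b.2 hz⟩).2 hz⟩)

theorem isOrd_iff {a : Subtype A} : IsOrd (ES A) a ↔ ∃ x : Ordinal.{u}, x.toZFSet = a.1 := by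
  refine Iff.trans ?_ ZFSet.isOrdinal_iff_mem_range_toZFSet
  constructor
  · rintro ⟨h₁, h₂⟩
    refine ZFSet.isOrdinal_iff_trichotomous.2 ⟨fun x hx y hy =>
      h₁ ⟨x, h.tr a.2 hx⟩ ⟨y, h.tr (h.tr a.2 hx) hy⟩ hx hy, ⟨fun x y h₃ h₄ => ?_⟩⟩
    rcases h₂ ⟨x, h.tr a.2 x.2⟩ ⟨y, h.tr a.2 y.2⟩ x.2 y.2 with e | e | e
    exacts [absurd e h₃, Subtype.ext (congrArg (fun z => z.1) e), absurd e h₄]
  · refine fun ha => ⟨fun x y hx hy => ha.mem_trans hy hx, fun x y hx hy => ?_⟩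
    simpa only [Subtype.ext_iff, ES] using (ha.mem hx).mem_trichotomous (ha.mem hy)

theorem up_iff {z a b : Subtype A} : (∀ x, ES A x z ↔ x = a ∨ x = b) ↔ z.1 = {a.1, b.1} := by
  refine Iff.trans ?_ (Subtype.ext_iff (a1 := z) (a2 := ⟨_, h.up a.2 b.2⟩))
  refine ⟨fun e => h.ext fun x => (e x).trans ?_, fun e x => ?_⟩ <;>
    simp [ES, Subtype.ext_iff, *]

theorem isPair_iff {p a b : Subtype A} : IsPair (ES A) p a b ↔ p.1 = ZFSet.pair a.1 b.1 := by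
  have e : ∀ z : Subtype A, (∀ x, ES A x z ↔ x = a) ↔ z.1 = {a.1} := fun z => by
    simpa using h.up_iff (z := z) (a := a) (b := a)
  simp only [IsPair, e, h.up_iff]
  refine Iff.trans ?_ (Subtype.ext_iff (a1 := p) (a2 := ⟨_, h.pair a.2 b.2⟩))
  refine ⟨fun e => h.ext fun x => (e x).trans ?_, fun e x => ?_⟩ <;> simp [ES, ZFSet.pair, *]

theorem app_iff {f a b : Subtype A} : App (ES A) f a b ↔ ZFSet.pair a.1 b.1 ∈ f.1 := by
  simp only [App, h.isPair_iff]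
  exact ⟨fun ⟨_, h, e⟩ => e ▸ h, fun e => ⟨⟨_, h.pair a.2 b.2⟩, e, rfl⟩⟩

theorem isOmega_iff {w : Subtype A} : IsOmega (ES A) w ↔ w.1 = toZFSet ω := by
  have o : ∀ {a b : Ordinal.{u}}, A a.toZFSet → b < a → A b.toZFSet := fun ha hb =>
    h.tr ha (toZFSet_mem_toZFSet_iff.2 hb)
  obtain ⟨w, hw⟩ := w
  constructor
  · rintro ⟨h₁, ⟨x, h₂⟩, h₃, h₄⟩
    obtain ⟨a, rfl⟩ : ∃ x : Ordinal.{u}, x.toZFSet = w := h.isOrd_iff.1 h₁
    obtain ⟨b, hb, -⟩ := mem_toZFSet_iff.1 h₂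
    refine congrArg toZFSet (le_antisymm (not_lt.1 fun h₅ => ?_) (omega0_le.2 fun n => ?_))
    · obtain ⟨y, h₆, h₇⟩ := h₄ ⟨_, o hw h₅⟩ (toZFSet_mem_toZFSet_iff.2 h₅)
        ⟨⟨_, o (o hw h₅) omega0_pos⟩, toZFSet_mem_toZFSet_iff.2 omega0_pos⟩
      obtain ⟨c, hc, e⟩ := mem_toZFSet_iff.1 h₆
      have := isSuccLimit_omega0.add_one_lt hc
      exact h₇ ⟨_, o (o hw h₅) this⟩ (toZFSet_mem_toZFSet_iff.2 this)
        (e ▸ toZFSet_mem_toZFSet_iff.2 (lt_add_one c) : y.1 ∈ _)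
    · refine (Lim.nat ⟨zero_le.trans_lt hb, fun c hc => ?_⟩ n).le
      obtain ⟨y, h₅, h₆⟩ := h₃ ⟨_, o hw hc⟩ (toZFSet_mem_toZFSet_iff.2 hc)
      obtain ⟨d, hd, e⟩ := mem_toZFSet_iff.1 h₅
      rw [ES, ← e] at h₆
      exact (add_one_le_iff.2 (toZFSet_mem_toZFSet_iff.1 h₆)).trans_lt hd
  · rintro (rfl : w = _)
    refine ⟨h.isOrd_iff.2 ⟨_, rfl⟩, ⟨⟨_, o hw omega0_pos⟩, toZFSet_mem_toZFSet_iff.2 omega0_pos⟩,
      fun x hx => ?_, fun x hx ⟨y, hy⟩ => ?_⟩ <;> obtain ⟨c, hc, e⟩ := mem_toZFSet_iff.1 hx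
    · have := isSuccLimit_omega0.add_one_lt hc
      exact ⟨⟨_, o hw this⟩, toZFSet_mem_toZFSet_iff.2 this,
        (e ▸ toZFSet_mem_toZFSet_iff.2 (lt_add_one c) : x.1 ∈ _)⟩
    · obtain ⟨_ | n, rfl⟩ := lt_omega0.1 hc
      · exact absurd hy (by simp [ES, ← e])
      · refine ⟨⟨_, o hw (natCast_lt_omega0 n)⟩,
          (e ▸ toZFSet_mem_toZFSet_iff.2 (by simp) : _ ∈ x.1), fun z hz h₁ => ?_⟩
        rw [ES, ← e] at hz
        obtain ⟨d, hd, e'⟩ := mem_toZFSet_iff.1 hz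
        rw [ES, ← e'] at h₁
        exact (toZFSet_mem_toZFSet_iff.1 h₁).not_ge (by simpa using hd)

end TrP

variable {m : Mach.{u}}

/-- Properties uniformly definable over transitive sets. -/
def QD (m : Mach.{u}) (Ψ : ZFSet.{u} → (ℕ → ZFSet.{u}) → Prop) : Prop :=
  ∃ φ : QF, ∀ A : ZFSet.{u}, A.IsTransitive → ∀ d l, d ∈ A → (∀ x ∈ l, x ∈ A) →
    (SatQ (· ∈ ·) (DCof m) {x | x ∈ A} d φ l ↔ Ψ A (env d l))

namespace QD

variable {Φ Ψ : ZFSet.{u} → (ℕ → ZFSet.{u}) → Prop}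
variable {Θ : ZFSet.{u} → (ℕ → ZFSet.{u}) → ZFSet.{u} → Prop}

theorem mem (i j : ℕ) : QD m (fun _ w => w i ∈ w j) := ⟨.mem i j, fun _ _ _ _ _ _ => Iff.rfl⟩

theorem eq (i j : ℕ) : QD m (fun _ w => w i = w j) := ⟨.eq i j, fun _ _ _ _ _ _ => Iff.rfl⟩

theorem imp (h₁ : QD m Φ) (h₂ : QD m Ψ) : QD m (fun A w => Φ A w → Ψ A w) :=
  let ⟨φ, h₁⟩ := h₁; let ⟨ψ, h₂⟩ := h₂
  ⟨.imp φ ψ, fun A hA d l hd hl => imp_congr (h₁ A hA d l hd hl) (h₂ A hA d l hd hl)⟩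

theorem congr (h : QD m Φ) (e : ∀ A, A.IsTransitive → ∀ w, (∀ k, w k ∈ A) → (Φ A w ↔ Ψ A w)) :
    QD m Ψ :=
  let ⟨φ, h⟩ := h
  ⟨φ, fun A hA d l hd hl => (h A hA d l hd hl).trans
    (e A hA _ (env_mem (S := {x | x ∈ A}) hd hl))⟩

theorem not (h : QD m Φ) : QD m (fun A w => ¬ Φ A w) :=
  h.imp ⟨.bot, fun _ _ _ _ _ _ => Iff.rfl⟩

theorem and (h₁ : QD m Φ) (h₂ : QD m Ψ) : QD m (fun A w => Φ A w ∧ Ψ A w) :=
  (h₁.imp h₂.not).not.congr fun _ _ _ _ => by tauto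

theorem or (h₁ : QD m Φ) (h₂ : QD m Ψ) : QD m (fun A w => Φ A w ∨ Ψ A w) :=
  (h₁.not.imp h₂).congr fun _ _ _ _ => by tauto

theorem iff (h₁ : QD m Φ) (h₂ : QD m Ψ) : QD m (fun A w => Φ A w ↔ Ψ A w) :=
  ((h₁.imp h₂).and (h₂.imp h₁)).congr fun _ _ _ _ => by tauto

theorem all (h : QD m (fun A w => Θ A (fun k => w (k + 1)) (w 0))) :
    QD m (fun A w => ∀ x ∈ A, Θ A w x) :=
  let ⟨φ, h⟩ := h
  ⟨.all φ, fun A hA d l hd hl => forall₂_congr fun x hx =>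
    h A hA d (x :: l) hd (List.forall_mem_cons.2 ⟨hx, hl⟩)⟩

theorem ex (h : QD m (fun A w => Θ A (fun k => w (k + 1)) (w 0))) :
    QD m (fun A w => ∃ x ∈ A, Θ A w x) :=
  (all (Θ := fun A w x => ¬ Θ A w x) h.not).not.congr fun _ _ _ _ => by simp

theorem cof {Θ : ZFSet.{u} → (ℕ → ZFSet.{u}) → ZFSet.{u} → ZFSet.{u} → Prop}
    (h : QD m (fun A w => Θ A (fun k => w (k + 2)) (w 0) (w 1))) :
    QD m (fun A w => DCof m (fun x y => x ∈ A ∧ y ∈ A ∧ Θ A w x y)) :=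
  let ⟨φ, h⟩ := h
  ⟨.cof φ, fun A hA d l hd hl => iff_of_eq (congrArg (DCof m) (funext₂ fun x y => propext
    (and_congr_right fun hx => and_congr_right fun hy => h A hA d (x :: y :: l) hd
      (List.forall_mem_cons.2 ⟨hx, List.forall_mem_cons.2 ⟨hy, hl⟩⟩))))⟩

theorem up (i j k : ℕ) : QD m (fun _ w => w i = {w j, w k}) :=
  (all (Θ := fun _ w x => x ∈ w i ↔ x = w j ∨ x = w k)
    ((mem _ _).iff ((eq _ _).or (eq _ _)))).congr fun A hA w hw => by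
      refine ⟨fun h => ZFSet.ext fun x => ?_, fun h x _ => by simp [h]⟩
      rw [ZFSet.mem_pair]
      exact ⟨fun hx => (h x (hA.mem_trans hx (hw i))).1 hx,
        fun hx => (h x (by rcases hx with rfl | rfl <;> exact hw _)).2 hx⟩

theorem pair (i j k : ℕ) : QD m (fun _ w => w i = ZFSet.pair (w j) (w k)) :=
  (ex (Θ := fun A w s => ∃ t ∈ A, w i = {s, t} ∧ s = {w j, w j} ∧ t = {w j, w k})
    (ex (((up _ 1 0).and ((up 1 _ _).and (up 0 _ _)))))).congr fun A hA w hw => by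
      constructor
      · rintro ⟨_, -, _, -, h, rfl, rfl⟩
        simpa [ZFSet.pair] using h
      · exact fun h => ⟨_, hA.mem_trans (by simp [h, ZFSet.pair]) (hw i), _,
          hA.mem_trans (by simp [h, ZFSet.pair]) (hw i), by simpa [ZFSet.pair] using h, rfl, rfl⟩

theorem ord (i : ℕ) : QD m (fun _ w => (w i).IsOrdinal) :=
  (all (Θ := fun A w x => ∀ y ∈ A, x ∈ y → (y ∈ w i → x ∈ w i) ∧
      ∀ z ∈ A, y ∈ z → z ∈ w i → x ∈ z)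
    (all ((mem 1 0).imp (((mem 0 _).imp (mem 1 _)).and
      (all ((mem 1 0).imp ((mem 0 _).imp (mem 2 0)))))))).congr fun A hA w hw => by
    refine ⟨fun h => ⟨fun y hy x hx => ?_, fun {x y z} h₁ h₂ h₃ => ?_⟩, fun h x _ y _ h₁ =>
      ⟨h.mem_trans h₁, fun z _ h₂ h₃ => h.mem_trans' h₁ h₂ h₃⟩⟩
    · have := hA.mem_trans hy (hw i)
      exact (h x (hA.mem_trans hx this) y this hx).1 hy
    · have h₄ := hA.mem_trans h₃ (hw i)
      have h₅ := hA.mem_trans h₂ h₄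
      exact (h x (hA.mem_trans h₁ h₅) y h₅ h₁).2 z h₄ h₂ h₃

end QD

end Pool.Agent.MP_9a6faa_lc.W

end

section

namespace Pool.Agent.MP_9a6faa_lc.W

open Set Order Ordinal FO

universe u

variable [Pat]

variable {m : Mach.{u}}

/-- The levels of the hierarchy. -/
noncomputable def Lv (m : Mach.{u}) (a : Ordinal.{u}) : ZFSet.{u} := val0 m (lv m a)

theorem mem_val0_dc {A : Ordinal.{u}} {φ : QF} {l : OL.{u}} {x : ZFSet.{u}} :
    x ∈ val0 m (dc m A φ l) ↔ x ∈ val0 m A ∧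
      SatQ (· ∈ ·) (DCof m) {y | y ∈ val0 m A} x φ (x :: l.map (val0 m)) := by
  simp only [mem_val0, P_dc]
  exact ⟨fun ⟨z, ⟨h₁, h₂⟩, e⟩ => e ▸ ⟨⟨z, h₁, rfl⟩, by simpa only [mem_val0, Sat0, List.map_cons] using h₂⟩,
    fun ⟨⟨z, h₁, e⟩, h₂⟩ => ⟨z, ⟨h₁, by
      subst e; simpa only [mem_val0, Sat0, List.map_cons] using h₂⟩, e⟩⟩

theorem exists_codes {A : Ordinal.{u}} {l : List ZFSet.{u}} (h : ∀ y ∈ l, y ∈ val0 m A) :
    ∃ k : OL.{u}, (∀ x, x ∈ k → P m A x) ∧ k.map (val0 m) = l := by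
  induction l with
  | nil => exact ⟨[], by simp, rfl⟩
  | cons a l ih =>
    obtain ⟨k, h₁, rfl⟩ := ih fun y hy => h y (List.mem_cons_of_mem _ hy)
    obtain ⟨z, h₂, rfl⟩ := mem_val0.1 (h a List.mem_cons_self)
    exact ⟨z :: k, List.forall_mem_cons.2 ⟨h₂, h₁⟩, rfl⟩

theorem mem_Lv {a : Ordinal.{u}} {x : ZFSet.{u}} : x ∈ Lv m a ↔ ∃ b < a, ∃ φ l,
    (∀ y ∈ l, y ∈ Lv m b) ∧ Defines (· ∈ ·) (DCof m) {y | y ∈ Lv m b} φ l x := by
  constructor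
  · intro h
    obtain ⟨_, h', rfl⟩ := mem_val0.1 h
    obtain ⟨b, hb, φ, l, h₀, rfl⟩ := P_lv.1 h'
    refine ⟨b, hb, φ, l.map (val0 m), fun y hy => ?_, fun _ => mem_val0_dc⟩
    obtain ⟨z, hz, rfl⟩ := List.mem_map.1 hy
    exact mem_val0.2 ⟨z, h₀ z hz, rfl⟩
  · rintro ⟨b, hb, φ, l, h₁, h₂⟩
    obtain ⟨k, h₃, rfl⟩ := exists_codes h₁
    exact mem_val0.2 ⟨_, P_lv.2 ⟨b, hb, φ, k, h₃, rfl⟩,
      ZFSet.ext fun y => mem_val0_dc.trans (h₂ y).symm⟩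

theorem Lv_mono {a b : Ordinal.{u}} {x : ZFSet.{u}} (h : a ≤ b) (hx : x ∈ Lv m a) : x ∈ Lv m b :=
  let ⟨c, h₁, h₂⟩ := mem_Lv.1 hx; mem_Lv.2 ⟨c, h₁.trans_le h, h₂⟩

theorem Lv_trans (a : Ordinal.{u}) : (Lv m a).IsTransitive := fun _ hx y hy =>
  let ⟨_, h₁, _, _, _, h₂⟩ := mem_Lv.1 hx; Lv_mono h₁.le ((h₂ y).1 hy).1

theorem mem_Lv_succ {a : Ordinal.{u}} {x : ZFSet.{u}} : x ∈ Lv m (a + 1) ↔ ∃ φ l,
    (∀ y ∈ l, y ∈ Lv m a) ∧ Defines (· ∈ ·) (DCof m) {y | y ∈ Lv m a} φ l x := by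
  refine ⟨fun h => ?_, fun h => mem_Lv.2 ⟨a, lt_add_one a, h⟩⟩
  obtain ⟨b, h₁, h₂⟩ := mem_Lv.1 h
  rcases (lt_add_one_iff.1 h₁).eq_or_lt with rfl | h₃
  · exact h₂
  · have := mem_Lv.2 ⟨b, h₃, h₂⟩
    exact ⟨.mem 0 1, [x], by simpa using this, fun y =>
      (and_iff_right_of_imp fun hy => (Lv_trans a).mem_trans hy this).symm⟩

theorem mem_Lv_lim {a : Ordinal.{u}} (h : ∀ b < a, b + 1 < a) {x : ZFSet.{u}} :
    x ∈ Lv m a ↔ ∃ b < a, x ∈ Lv m b :=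
  ⟨fun hx => let ⟨b, h₁, h₂⟩ := mem_Lv.1 hx; ⟨b + 1, h b h₁, mem_Lv_succ.2 h₂⟩,
    fun ⟨_, h₁, h₂⟩ => Lv_mono h₁.le h₂⟩

theorem QD.def {Ψ : ZFSet.{u} → (ℕ → ZFSet.{u}) → Prop} (h : QD m Ψ) {l : List ZFSet.{u}}
    {a : Ordinal.{u}} (hl : ∀ y ∈ l, y ∈ Lv m a) :
    ∃ X ∈ Lv m (a + 1), ∀ x, x ∈ X ↔ x ∈ Lv m a ∧ Ψ (Lv m a) (env x (x :: l)) := by
  obtain ⟨φ, h⟩ := h
  refine ⟨(Lv m a).sep fun x => Ψ (Lv m a) (env x (x :: l)), mem_Lv_succ.2 ⟨φ, l, hl, fun x => ?_⟩,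
    fun x => ZFSet.mem_sep⟩
  exact ZFSet.mem_sep.trans (and_congr_right fun hx =>
    (h _ (Lv_trans a) x _ hx (List.forall_mem_cons.2 ⟨hx, hl⟩)).symm)

/-- The union of the hierarchy. -/
def InC (m : Mach.{u}) (x : ZFSet.{u}) : Prop := ∃ a, x ∈ Lv m a

theorem exists_Lv (a : Ordinal.{u}) {l : List ZFSet.{u}} (h : ∀ y ∈ l, InC m y) :
    ∃ b, a ≤ b ∧ ∀ y ∈ l, y ∈ Lv m b := by
  induction l with
  | nil => exact ⟨a, le_rfl, by simp⟩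
  | cons x l ih =>
    obtain ⟨b, h₁, h₂⟩ := ih fun y hy => h y (List.mem_cons_of_mem _ hy)
    obtain ⟨c, h₃⟩ := h x List.mem_cons_self
    exact ⟨max b c, le_max_of_le_left h₁, List.forall_mem_cons.2
      ⟨Lv_mono (le_max_right _ _) h₃, fun y hy => Lv_mono (le_max_left _ _) (h₂ y hy)⟩⟩

theorem QD.inC {Ψ : (ℕ → ZFSet.{u}) → Prop} (h : QD m fun _ => Ψ) {l : List ZFSet.{u}}
    (hl : ∀ y ∈ l, InC m y) (a : Ordinal.{u}) :
    ∃ b X, a ≤ b ∧ (∀ y ∈ l, y ∈ Lv m b) ∧ InC m X ∧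
      ∀ x, x ∈ X ↔ x ∈ Lv m b ∧ Ψ (env x (x :: l)) :=
  let ⟨b, h₁, h₂⟩ := exists_Lv a hl
  let ⟨X, h₃, h₄⟩ := h.def h₂
  ⟨b, X, h₁, h₂, ⟨_, h₃⟩, h₄⟩

theorem trP_C (m : Mach.{u}) : TrP (InC m) where
  tr := fun ⟨a, h⟩ h' => ⟨a, (Lv_trans a).mem_trans h' h⟩
  up := fun {x y} hx hy => by
    obtain ⟨b, X, -, h₁, h₂, h₃⟩ := ((QD.eq 0 1).or (QD.eq 0 2)).inC (m := m) (l := [x, y])
      (by simp [hx, hy]) 0
    refine (ZFSet.ext fun z => (h₃ z).trans ?_ : X = {x, y}) ▸ h₂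
    rw [ZFSet.mem_pair]
    exact and_iff_right_of_imp fun h => h₁ z (by simpa [env] using h)

theorem inC_Lv (a : Ordinal.{u}) : InC m (Lv m a) := by
  obtain ⟨X, h₁, h₂⟩ := (QD.eq (m := m) 0 0).def (l := []) (a := a) (by simp)
  exact ⟨_, (ZFSet.ext fun z => (h₂ z).trans (and_iff_left rfl) : X = _) ▸ h₁⟩

theorem boundC (s : ZFSet.{u}) (R : ZFSet.{u} → ZFSet.{u} → Prop) :
    ∃ b, ∀ x ∈ s, (∃ y, InC m y ∧ R x y) → ∃ y ∈ Lv m b, R x y := by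
  obtain ⟨b, hb⟩ := exists_bound (fun x : s => mu (fun c => ∃ y ∈ Lv m c, R x y))
  refine ⟨b, fun x hx ⟨y, ⟨c, h₁⟩, h₂⟩ => ?_⟩
  obtain ⟨z, h₃, h₄⟩ := mu_spec (R := fun c => ∃ y ∈ Lv m c, R x y) ⟨c, y, h₁, h₂⟩
  exact ⟨z, Lv_mono (hb ⟨x, hx⟩).le h₃, h₄⟩

theorem inC_ord (a : Ordinal.{u}) : InC m a.toZFSet := by
  induction a using WellFoundedLT.induction with
  | ind a ih =>
    obtain ⟨b, hb⟩ := boundC (m := m) a.toZFSet Eq
    obtain ⟨X, h₁, h₂⟩ := (QD.ord (m := m) 0).def (l := []) (a := b) (by simp)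
    have h₃ : X.IsOrdinal := ZFSet.isOrdinal_iff_forall_mem_isOrdinal.2
      ⟨fun x hx y hy => (h₂ y).2 ⟨(Lv_trans b).mem_trans hy ((h₂ x).1 hx).1,
        ((h₂ x).1 hx).2.mem hy⟩, fun x hx => ((h₂ x).1 hx).2⟩
    rcases ((ZFSet.isOrdinal_toZFSet a).subset_iff_eq_or_mem h₃).1 fun x hx => by
      obtain ⟨c, hc, rfl⟩ := mem_toZFSet_iff.1 hx
      obtain ⟨_, h, rfl⟩ := hb _ hx ⟨_, ih c hc, rfl⟩
      exact (h₂ _).2 ⟨h, ZFSet.isOrdinal_toZFSet c⟩ with e | e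
    exacts [⟨_, e ▸ h₁⟩, (trP_C m).tr ⟨_, h₁⟩ e]

/-- Amenable subclasses. -/
def AmC (m : Mach.{u}) (R : Unit → Subtype (InC m) → Prop) : Prop :=
  ∀ a, ∃ X, InC m X ∧ ∀ x : Subtype (InC m), x.1 ∈ Lv m a → (x.1 ∈ X ↔ R () x)

theorem QD.am {Ψ : (ℕ → ZFSet.{u}) → Prop} (h : QD m fun _ => Ψ) {l : List ZFSet.{u}}
    (hl : ∀ y ∈ l, InC m y) : AmC m (fun _ x => Ψ (env x.1 (x.1 :: l))) := fun a =>
  let ⟨_, X, h₁, _, h₂, h₃⟩ := h.inC hl a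
  ⟨X, h₂, fun x hx => (h₃ x).trans (and_iff_right (Lv_mono h₁ hx))⟩

theorem AmC.exact {R : Unit → Subtype (InC m) → Prop} (h : AmC m R) (a : Ordinal.{u}) :
    ∃ X, InC m X ∧ ∀ x : Subtype (InC m), x.1 ∈ X ↔ x.1 ∈ Lv m a ∧ R () x := by
  obtain ⟨X, h₁, h₂⟩ := h a
  obtain ⟨b, Y, h₃, -, h₄, h₅⟩ := ((QD.mem 0 1).and (QD.mem 0 2)).inC (m := m) (l := [Lv m a, X])
    (by simp [h₁, inC_Lv]) a
  exact ⟨Y, h₄, fun x => (h₅ x).trans ((and_iff_right_of_imp fun h => Lv_mono h₃ h.1).trans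
    (and_congr_right (h₂ x)))⟩

theorem AmC.img {R : Unit → Subtype (InC m) → Prop} (h : AmC m R)
    {Ψ : ZFSet.{u} → ZFSet.{u} → Prop} (hΨ : QD m fun _ w => Ψ (w 1) (w 0)) :
    AmC m (fun _ x => ∃ z, R () z ∧ Ψ x.1 z.1) := fun a => by
  obtain ⟨b, hb⟩ := boundC (m := m) (Lv m a) (fun x z => ∃ h, R () ⟨z, h⟩ ∧ Ψ x z)
  obtain ⟨X, h₁, h₂⟩ := h.exact b
  obtain ⟨Y, h₃, h₄⟩ := ((QD.ex (Θ := fun _ w z => z ∈ w 1 ∧ Ψ (w 0) z)
    ((QD.mem 0 2).and hΨ)).congr (Ψ := fun _ w => ∃ z ∈ w 1, Ψ (w 0) z) fun A hA w hw =>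
      exists_congr fun z => and_iff_right_of_imp fun h => hA.mem_trans h.1 (hw 1)).am
    (l := [X]) (by simpa using h₁) a
  refine ⟨Y, h₃, fun x hx => (h₄ x hx).trans ⟨fun ⟨z, h₅, h₆⟩ => ?_, fun ⟨z, h₅, h₆⟩ => ?_⟩⟩
  · exact ⟨⟨z, (trP_C m).tr h₁ h₅⟩, ((h₂ ⟨z, _⟩).1 h₅).2, h₆⟩
  · obtain ⟨y, h₇, h₈, h₉, h₀⟩ := hb _ hx ⟨z, z.2, z.2, h₅, h₆⟩
    exact ⟨y, (h₂ ⟨y, h₈⟩).2 ⟨h₇, h₉⟩, h₀⟩

theorem AmC.congr {R S : Unit → Subtype (InC m) → Prop} (h : AmC m R)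
    (e : ∀ x, R () x ↔ S () x) : AmC m S := fun a =>
  let ⟨X, h₁, h₂⟩ := h a; ⟨X, h₁, fun x hx => (h₂ x hx).trans (e x)⟩

theorem InC.left {x y : ZFSet.{u}} (h : InC m (ZFSet.pair x y)) : InC m x :=
  let ⟨a, h⟩ := h; ⟨a, left_mem_pair (Lv_trans a) h⟩

theorem InC.right {x y : ZFSet.{u}} (h : InC m (ZFSet.pair x y)) : InC m y :=
  let ⟨a, h⟩ := h; ⟨a, right_mem_pair (Lv_trans a) h⟩

theorem lp {A x y z : ZFSet.{u}} (h : A.IsTransitive) (hz : z ∈ A) (e : z = ZFSet.pair x y) :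
    x ∈ A := left_mem_pair h (e ▸ hz)

theorem rp {A x y z : ZFSet.{u}} (h : A.IsTransitive) (hz : z ∈ A) (e : z = ZFSet.pair x y) :
    y ∈ A := right_mem_pair h (e ▸ hz)

theorem QD.exl {Θ : (ℕ → ZFSet.{u}) → ZFSet.{u} → Prop}
    (h : QD m (fun _ w => Θ (fun k => w (k + 1)) (w 0)))
    (e : ∀ A : ZFSet.{u}, A.IsTransitive → ∀ w, (∀ k, w k ∈ A) → ∀ x, Θ w x → x ∈ A) :
    QD m (fun _ w => ∃ x, Θ w x) :=
  (QD.ex (Θ := fun _ => Θ) h).congr fun A hA w hw =>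
    exists_congr fun x => and_iff_right_of_imp (e A hA w hw x)

/-- The union of the hierarchy as a first order calculus. -/
noncomputable def CC (m : Mach.{u}) : FO.{u, u + 1} Unit (Subtype (InC m)) where
  pr := fun a b => ⟨ZFSet.pair a.1 b.1, (trP_C m).pair a.2 b.2⟩
  pr_inj := fun e => by
    have := ZFSet.pair_inj.1 (congrArg Subtype.val e)
    exact ⟨Subtype.ext this.1, Subtype.ext this.2⟩
  o := fun a => ⟨a.toZFSet, inC_ord a⟩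
  o_inj := fun _ _ e => toZFSet_injective (congrArg Subtype.val e)
  Am := AmC m
  nand := fun hR hS a => by
    obtain ⟨X, h₁, h₂⟩ := hR a
    obtain ⟨Y, h₃, h₄⟩ := hS a
    obtain ⟨Z, h₅, h₆⟩ := ((QD.mem 0 1).and (QD.mem 0 2)).not.am (m := m) (l := [X, Y])
      (by simp [h₁, h₃]) a
    exact ⟨Z, h₅, fun x hx => (h₆ x hx).trans (not_congr (and_congr (h₂ x hx) (h₄ x hx)))⟩
  ex := fun hR => (hR.img (Ψ := fun x z => ∃ y, z = ZFSet.pair x y) (QD.exl (QD.pair 1 2 0)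
    fun _ hA _ hw _ e => rp hA (hw 0) e)).congr fun _ =>
      ⟨fun ⟨⟨_, h⟩, h₁, y, e⟩ => by subst e; exact ⟨⟨y, h.right⟩, h₁⟩,
        fun ⟨_, h⟩ => ⟨_, h, _, rfl⟩⟩
  fstR := fun hR => (hR.img (Ψ := fun z x => ∃ y, z = ZFSet.pair x y) (QD.exl (QD.pair 2 1 0)
    fun _ hA _ hw _ e => rp hA (hw 1) e)).congr fun ⟨_, h⟩ =>
      ⟨fun ⟨x, h₁, y, e⟩ => by subst e; exact ⟨x, ⟨y, h.right⟩, rfl, h₁⟩,
        fun ⟨x, y, e, h⟩ => ⟨x, h, y, congrArg Subtype.val e⟩⟩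
  swR := fun hR => (hR.img (Ψ := fun z s => ∃ x y, z = ZFSet.pair x y ∧ s = ZFSet.pair y x)
    (QD.exl (QD.exl ((QD.pair 3 1 0).and (QD.pair 2 0 1))
      fun _ hA _ hw _ e => rp hA (hw 2) e.1)
      fun _ hA _ hw _ ⟨_, e⟩ => lp hA (hw 1) e.1)).congr fun ⟨_, h⟩ =>
      ⟨fun ⟨⟨_, _⟩, h₁, x, y, e, e'⟩ => by
        subst e e'; exact ⟨⟨x, h.left⟩, ⟨y, h.right⟩, rfl, h₁⟩,
        fun ⟨x, y, e, h⟩ => ⟨_, h, x, y, congrArg Subtype.val e, rfl⟩⟩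
  aR := fun hR => (hR.img (Ψ := fun z s => ∃ p t x y, z = ZFSet.pair p t ∧
      p = ZFSet.pair x y ∧ s = ZFSet.pair x t)
    (QD.exl (QD.exl (QD.exl (QD.exl ((QD.pair 5 3 2).and ((QD.pair 3 1 0).and (QD.pair 4 1 2)))
      fun _ hA _ hw _ e => rp hA (hw 2) e.2.1)
      fun _ hA _ hw _ ⟨_, e⟩ => lp hA (hw 1) e.2.1)
      fun _ hA _ hw _ ⟨_, _, e⟩ => rp hA (hw 2) e.1)
      fun _ hA _ hw _ ⟨_, _, _, e⟩ => lp hA (hw 1) e.1)).congr fun ⟨_, h⟩ =>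
      ⟨fun ⟨⟨_, _⟩, h₁, _, t, x, y, e, e₁, e₂⟩ => by
        subst e e₁ e₂; exact ⟨⟨x, h.left.left⟩, ⟨y, h.left.right⟩, ⟨t, h.right⟩, rfl, h₁⟩,
        fun ⟨x, y, t, e, h⟩ => ⟨_, h, _, t, x, y, congrArg Subtype.val e, rfl, rfl⟩⟩
  bR := fun hR => (hR.img (Ψ := fun z s => ∃ p t x y, z = ZFSet.pair p t ∧
      p = ZFSet.pair x y ∧ s = ZFSet.pair y t)
    (QD.exl (QD.exl (QD.exl (QD.exl ((QD.pair 5 3 2).and ((QD.pair 3 1 0).and (QD.pair 4 0 2)))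
      fun _ hA _ hw _ e => rp hA (hw 2) e.2.1)
      fun _ hA _ hw _ ⟨_, e⟩ => lp hA (hw 1) e.2.1)
      fun _ hA _ hw _ ⟨_, _, e⟩ => rp hA (hw 2) e.1)
      fun _ hA _ hw _ ⟨_, _, _, e⟩ => lp hA (hw 1) e.1)).congr fun ⟨_, h⟩ =>
      ⟨fun ⟨⟨_, _⟩, h₁, _, t, x, y, e, e₁, e₂⟩ => by
        subst e e₁ e₂; exact ⟨⟨x, h.left.left⟩, ⟨y, h.left.right⟩, ⟨t, h.right⟩, rfl, h₁⟩,
        fun ⟨x, y, t, e, h⟩ => ⟨_, h, _, t, x, y, congrArg Subtype.val e, rfl, rfl⟩⟩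
  eq := ((QD.exl (Θ := fun w x => w 0 = ZFSet.pair x x) (QD.pair 1 0 0)
    fun _ hA _ hw _ e => lp hA (hw 0) e).am (l := []) (by simp)).congr fun ⟨_, h⟩ =>
      ⟨fun ⟨x, e⟩ => by subst e; exact ⟨⟨x, h.left⟩, rfl⟩,
        fun ⟨x, e⟩ => ⟨x, congrArg Subtype.val e⟩⟩
  lt := ((QD.exl (Θ := fun w x => ∃ y, w 0 = ZFSet.pair x y ∧ y.IsOrdinal ∧ x ∈ y)
    (QD.exl ((QD.pair 2 1 0).and ((QD.ord 0).and (QD.mem 1 0)))
      fun _ hA _ hw _ e => rp hA (hw 1) e.1)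
      fun _ hA _ hw _ ⟨_, e⟩ => lp hA (hw 0) e.1).am (l := [])
        (by simp)).congr fun ⟨_, h⟩ => by
      constructor
      · rintro ⟨x, y, rfl, h₁, h₂⟩
        obtain ⟨b, rfl⟩ := ZFSet.isOrdinal_iff_mem_range_toZFSet.1 h₁
        obtain ⟨a, h₃, rfl⟩ := mem_toZFSet_iff.1 h₂
        exact ⟨a, b, rfl, h₃⟩
      · exact fun ⟨a, b, e, h⟩ => ⟨_, _, congrArg Subtype.val e, ZFSet.isOrdinal_toZFSet b,
          toZFSet_mem_toZFSet_iff.2 h⟩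

theorem CC_am {R : Unit → Subtype (InC m) → Prop} : (CC m).Am R ↔ AmC m R := Iff.rfl

instance : Full (CC m) := ⟨fun c => CC_am.2 <|
  ((QD.eq 0 1).am (l := [c.1]) (by simpa using c.2)).congr
  fun _ => Subtype.ext_iff.symm⟩

instance : HasSep (CC m) where
  mem := fun _ s x => x.1 ∈ s.1
  mem_am := CC_am.2 <| ((QD.exl (Θ := fun w s => ∃ x, w 0 = ZFSet.pair s x ∧ x ∈ s)
    (QD.exl ((QD.pair 2 1 0).and (QD.mem 0 1))
      fun _ hA _ hw _ e => rp hA (hw 1) e.1)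
      fun _ hA _ hw _ ⟨_, e⟩ => lp hA (hw 0) e.1).am (l := [])
        (by simp)).congr fun ⟨_, h⟩ =>
      ⟨fun ⟨s, x, e, h₁⟩ => by subst e; exact ⟨⟨s, h.left⟩, ⟨x, h.right⟩, rfl, h₁⟩,
        fun ⟨s, x, e, h⟩ => ⟨s, x, congrArg Subtype.val e, h⟩⟩
  sep := fun R hR i v a => by
    obtain ⟨b, hb⟩ := boundC (m := m) (ZFSet.prod a.toZFSet a.toZFSet) Eq
    obtain ⟨X, h₁, h₂⟩ := Am.param (𝒜 := CC m) hR v b
    refine ⟨⟨X, h₁⟩, fun x hx y hy => h₂ _ ?_⟩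
    obtain ⟨_, h, rfl⟩ := hb _ (ZFSet.pair_mem_prod.2 ⟨toZFSet_mem_toZFSet_iff.2 hx,
      toZFSet_mem_toZFSet_iff.2 hy⟩) ⟨_, (trP_C m).pair (inC_ord x) (inC_ord y), rfl⟩
    exact h

end Pool.Agent.MP_9a6faa_lc.W

end

section

namespace Pool.Agent.MP_9a6faa_lc.W

open Set Order Ordinal FO Filter

universe u

variable [Pat]

variable {m : Mach.{u}}

theorem dcof_ord {a : Ordinal.{u}} : DCof m (fun x y => x ∈ y ∧ y ∈ a.toZFSet) ↔ Dt m a := by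
  have ha := ZFSet.isOrdinal_toZFSet a
  have fld : ∀ x, Fld (fun x y => x ∈ y ∧ y ∈ a.toZFSet) x → x ∈ a.toZFSet :=
    fun x ⟨y, h⟩ => h.elim (fun h => ha.mem_trans h.1 h.2) And.right
  constructor
  · rintro ⟨-, b, c, h₁, h₂, h₃⟩
    obtain ⟨f, hf, ef⟩ : ∃ f : Ordinal.{u} → Ordinal.{u}, (SS m).Tm f ∧
        ∀ i < b, f i < a ∧ val0 m (ap m c i) = (f i).toZFSet := by
      refine ⟨fun i => mu (fun x => Eq0 m (ap m c i) (on m x)), by fun_prop, fun i hi => ?_⟩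
      obtain ⟨x, h₄, h₅⟩ := mem_toZFSet_iff.1
        (fld _ ⟨_, Or.inl (h₂ i _ (lt_add_one i) (h₁.1.2 i hi))⟩)
      have := mu_lt (S := fun x => Eq0 m (ap m c i) (on m x)) ⟨x, h₄, by simp [Eq0, h₅]⟩
      exact ⟨this.1, this.2.trans (val0_on _)⟩
    have mono : ∀ i j, i < j → j < b → f i < f j := fun i j h h' => by
      simpa [(ef i (h.trans h')).2, (ef j h').2] using (h₂ i j h h').1
    have cof : ∀ y < a, ∃ x < b, y ≤ f x := fun y hy => by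
      rcases eq_zero_or_pos y with rfl | h
      · exact ⟨0, h₁.1.1, zero_le⟩
      · obtain ⟨i, h₄, h₅⟩ := h₃ y.toZFSet ⟨toZFSet 0, Or.inr
          ⟨toZFSet_mem_toZFSet_iff.2 h, toZFSet_mem_toZFSet_iff.2 hy⟩⟩
        exact ⟨i, h₄, le_of_lt (by simpa [(ef i h₄).2] using h₅.1)⟩
    have hl : Lim a := ⟨zero_le.trans_lt (ef 0 h₁.1.1).1, fun y hy => by
      obtain ⟨x, h₄, h₅⟩ := cof y hy
      exact (add_one_le_iff.2 (h₅.trans_lt (mono _ _ (lt_add_one x) (h₁.1.2 x h₄)))).trans_lt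
        (ef _ (h₁.1.2 x h₄)).1⟩
    refine (dt_congr h₁.1 hl (cf_eq_of_mono hf hl (fun x y h h' => ?_)
      (fun x hx => (ef x hx).1) cof)).1 h₁
    rcases h.eq_or_lt with rfl | h
    exacts [le_rfl, (mono _ _ h h').le]
  · intro h
    obtain ⟨c, hc⟩ := code_fun (m := m) (f := on m) (by fun_prop) a
    refine ⟨⟨fun x h => ZFSet.mem_irrefl x h.1, fun x y z h₁ h₂ =>
      ⟨ha.mem_trans' h₁.1 h₂.1 h₂.2, h₂.2⟩, fun x y hx hy => ?_⟩, a, c, h,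
      fun i j h₁ h₂ => by simp [hc i (h₁.trans h₂), hc j h₂, h₁, h₂], fun x hx => ?_⟩
    · simpa [fld x hx, fld y hy] using (ha.mem (fld x hx)).mem_trichotomous (ha.mem (fld y hy))
    · obtain ⟨y, hy, rfl⟩ := mem_toZFSet_iff.1 (fld x hx)
      exact ⟨_, h.1.2 y hy, by simp [hc _ (h.1.2 y hy), -toZFSet_add_one, h.1.2 y hy]⟩

theorem tm_Dt_C : (CC m).Tm (Dt m) :=
  (Df.mk' (CC_am.2 (((QD.cof (Θ := fun _ w x y => x ∈ y ∧ y ∈ w 0)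
    ((QD.mem 0 1).and (QD.mem 1 2))).congr
    (Ψ := fun _ w => DCof m (fun x y => x ∈ y ∧ y ∈ w 0)) fun A hA w hw =>
      iff_of_eq (congrArg (DCof m) (funext₂ fun x y => propext ⟨fun h => h.2.2, fun h =>
        have := hA.mem_trans h.2 (hw 0)
        ⟨hA.mem_trans h.1 this, this, h⟩⟩))).am (l := []) (by simp)))
    fun _ _ _ => dcof_ord).tm

theorem InC.code {x : ZFSet.{u}} (h : InC m x) : ∃ c, val0 m c = x :=
  let ⟨_, h⟩ := h; let ⟨c, _, e⟩ := mem_val0.1 h; ⟨c, e⟩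

noncomputable instance : Cd (CC m) (Subtype (InC m)) := inferInstanceAs (Cd (CC m) (CC m).Ob)

instance : Pure (CC m) (Subtype (InC m)) := ⟨fun _ _ => trivial⟩

section

variable {Γ : Type*} [Cd (CC m) Γ]

@[fun_prop] theorem tm_ES {f g : Γ → Subtype (InC m)} (hf : (CC m).Tm f) (hg : (CC m).Tm g) :
    (CC m).Tm (fun z => ES (InC m) (f z) (g z)) :=
  have : Pure (CC m) (CC m).Wd := ⟨fun _ _ => rfl⟩
  tm_MemO (w := fun _ => ⟨()⟩) (by fun_prop) hg hf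

/-- The ordinals of the model. -/
noncomputable def oC (m : Mach.{u}) (a : Ordinal.{u}) : Subtype (InC m) := ⟨a.toZFSet, inC_ord a⟩

@[fun_prop] theorem tm_oC {f : Γ → Ordinal.{u}} (hf : (CC m).Tm f) :
    (CC m).Tm (fun z => oC m (f z)) := tm_ob hf

end

theorem exists_setC {R : Subtype (InC m) → Prop} (h : (CC m).Tm R) (s : ZFSet.{u})
    (hs : ∀ x, R x → x.1 ∈ s) : ∃ X, ∀ x, ES (InC m) x X ↔ R x := by
  obtain ⟨b, hb⟩ := boundC (m := m) s Eq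
  obtain ⟨X, h₁, h₂⟩ := (CC_am.1 (am_of_tm h)).exact b
  refine ⟨⟨X, h₁⟩, fun x => (h₂ x).trans (and_iff_right_of_imp fun hx => ?_)⟩
  obtain ⟨_, h, rfl⟩ := hb _ (hs x hx) ⟨_, x.2, rfl⟩
  exact h

theorem ES_oC {a : Ordinal.{u}} {x : Subtype (InC m)} :
    ES (InC m) x (oC m a) ↔ ∃ b < a, oC m b = x := by
  simp only [ES, oC, mem_toZFSet_iff, Subtype.ext_iff]

theorem isMeasC (μ : Meas.{u}) : IsMeas (ES (InC μ.mach)) (oC μ.mach μ.κ) := by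
  have tr := trP_C μ.mach
  have lt : ∀ {a b}, ES _ (oC μ.mach a) (oC μ.mach b) ↔ a < b := toZFSet_mem_toZFSet_iff
  obtain ⟨T, R, hT, hR, h⟩ := meas_def (μ := μ) tm_Dt_C fun s => by
    obtain ⟨c, hc⟩ := s.2.code
    exact Tm.congrP (Q := fun z : Ordinal.{u} × Ordinal.{u} =>
      Mem0 μ.mach (pn μ.mach (on μ.mach z.1) (on μ.mach z.2)) c) (by fun_prop)
      fun z => by simp only [Mem0, val0_pn, val0_on, hc]; rfl
  obtain ⟨F, hF⟩ := exists_setC (m := μ.mach) (R := fun A => (∀ x, ES _ x A → ES _ x (oC _ μ.κ)) ∧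
    ∃ y, T y ∧ ∀ x < μ.κ, (ES _ (oC _ x) A ↔ R (y, x))) (by fun_prop) (ZFSet.powerset μ.κ.toZFSet)
    fun A hA => ZFSet.mem_powerset.2 fun x hx => hA.1 ⟨x, tr.tr A.2 hx⟩ hx
  have hF' : ∀ A, ES _ A F ↔ (∀ x, ES _ x A → ES _ x (oC _ μ.κ)) ∧
      ∀ᶠ x in (μ.U : Filter Ordinal.{u}), ES _ (oC μ.mach x) A := fun A => by
    obtain ⟨c, hc⟩ := A.2.code
    exact (hF A).trans (and_congr_right fun _ => (h _ (Tm.congrP
      (Q := fun z => Mem0 μ.mach (on μ.mach z) c) (by fun_prop)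
      fun z => by simp only [Mem0, val0_on, hc]; rfl)).symm)
  refine ⟨tr.isOrd_iff.2 ⟨_, rfl⟩, ⟨oC _ ω, tr.isOmega_iff.2 rfl, lt.2 μ.hω⟩, F,
    fun A hA => ((hF' A).1 hA).1, fun A B hA h₁ h₂ => (hF' B).2 ⟨h₂, ((hF' A).1 hA).2.mono
      fun _ => h₁ _⟩, fun A B hA hB => ?_, fun A hA => ?_, fun A x hA => ?_, fun a f ha hf => ?_⟩
  · obtain ⟨C, hC⟩ := exists_setC (R := fun x => ES _ x A ∧ ES _ x B) (by fun_prop) A.1
      fun _ h => h.1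
    exact ⟨C, (hF' C).2 ⟨fun x hx => ((hF' A).1 hA).1 x ((hC x).1 hx).1,
      (((hF' A).1 hA).2.and ((hF' B).1 hB).2).mono fun _ => (hC _).2⟩, hC⟩
  · obtain ⟨C, hC⟩ := exists_setC (R := fun x => ES _ x (oC _ μ.κ) ∧ ¬ ES _ x A) (by fun_prop) _
      fun _ h => h.1
    refine or_iff_not_imp_left.2 fun h => ⟨C, (hF' C).2 ⟨fun x hx => ((hC x).1 hx).1, ?_⟩, hC⟩
    exact (μ.hκ.and (Ultrafilter.eventually_not.2 fun h' => h ((hF' A).2 ⟨hA, h'⟩))).mono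
      fun x hx => (hC _).2 ⟨lt.2 hx.1, hx.2⟩
  · obtain ⟨y, h₁, h₂⟩ := (((hF' A).1 hA).2.and μ.hκ).exists
    obtain ⟨z, h₃, h₄⟩ := (((hF' A).1 hA).2.and (μ.hI y h₂)).exists
    by_cases e : oC _ y = x
    · exact ⟨_, h₃, fun e' => h₄.ne (toZFSet_injective (congrArg Subtype.val (e.trans e'.symm)))⟩
    · exact ⟨_, h₁, e⟩
  · obtain ⟨C, hC⟩ := exists_setC (R := fun x => ES _ x (oC _ μ.κ) ∧
      ∀ i A, App (ES _) f i A → ES _ x A) (by unfold App IsPair; fun_prop) _ fun _ h => h.1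
    obtain ⟨a, h₁, rfl⟩ := ES_oC.1 ha
    have key : ∀ i A, App (ES _) f i A → ES _ i (oC _ a) ∧ ES _ A F := fun i A ⟨p, h₂, h₃⟩ => by
      obtain ⟨j, B, h₄, h₅, h₆⟩ := hf.1 p h₂
      have := ZFSet.pair_inj.1 ((tr.isPair_iff.1 h₃).symm.trans (tr.isPair_iff.1 h₆))
      exact ⟨(this.1 ▸ h₄ : i.1 ∈ _), (this.2 ▸ h₅ : A.1 ∈ _)⟩
    refine ⟨C, (hF' C).2 ⟨fun x hx => ((hC x).1 hx).1, (μ.hκ.and (μ.compl h₁
      (X := fun i z => ∀ A, App (ES _) f (oC _ i) A → ES _ (oC _ z) A) fun i hi => ?_)).mono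
      fun x hx => (hC _).2 ⟨lt.2 hx.1, fun i A h₂ => ?_⟩⟩, hC⟩
    · obtain ⟨A, h₂, h₃⟩ := hf.2 _ (lt.2 hi)
      exact ((hF' A).1 (key _ _ h₂).2).2.mono fun z hz B hB => h₃ B hB ▸ hz
    · obtain ⟨i, hi, rfl⟩ := ES_oC.1 (key _ _ h₂).1
      exact hx.2 i hi A h₂

end Pool.Agent.MP_9a6faa_lc.W

end

section

namespace Pool.Agent.MP_9a6faa_lc.W

open Set Order FO

universe u

variable [Pat]

/-- Codes of parameter-free definitions. -/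
inductive Cx : Type
  | nand (a b : Cx) : Cx
  | ex (a : Cx) : Cx
  | c4 (a : Cx) : Cx
  | c5 (a : Cx) : Cx
  | c6 (a : Cx) : Cx
  | c7 (a : Cx) : Cx
  | qq (a : Cx) : Cx
  | lt : Cx
  | pp : Cx
  | kk : Cx
  deriving Countable

def Cx.ev (m : Mach.{u}) : Cx → Ordinal.{u} → Prop
  | .nand a b, x => ¬ (a.ev m x ∧ b.ev m x)
  | .ex a, x => ∃ y, a.ev m (G x y)
  | .c4 a, x => a.ev m (fst x)
  | .c5 a, x => a.ev m (G (snd x) (fst x))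
  | .c6 a, x => a.ev m (G (fst (fst x)) (snd x))
  | .c7 a, x => a.ev m (G (snd (fst x)) (snd x))
  | .qq a, x => m.Q (fun y => a.ev m (G x y))
  | .lt, x => fst x < snd x
  | .pp, x => P m (fst x) (snd x)
  | .kk, x => x = m.κ

/-- Classes definable without parameters. -/
def AmF (m : Mach.{u}) (R : Unit → Ordinal.{u} → Prop) : Prop := ∃ c : Cx, R = fun _ => c.ev m

theorem ordCl_F (m : Mach.{u}) : OrdCl (AmF m) where
  nand := by rintro _ _ ⟨a, rfl⟩ ⟨b, rfl⟩; exact ⟨.nand a b, rfl⟩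
  ex := by rintro _ ⟨a, rfl⟩; exact ⟨.ex a, rfl⟩
  c4 := by rintro _ ⟨a, rfl⟩; exact ⟨.c4 a, rfl⟩
  c5 := by rintro _ ⟨a, rfl⟩; exact ⟨.c5 a, rfl⟩
  c6 := by rintro _ ⟨a, rfl⟩; exact ⟨.c6 a, rfl⟩
  c7 := by rintro _ ⟨a, rfl⟩; exact ⟨.c7 a, rfl⟩
  lt := ⟨.lt, rfl⟩

noncomputable def FF (m : Mach.{u}) : FO.{u, u + 1} Unit Ordinal.{u} := (ordCl_F m).fo

variable {m : Mach.{u}}

theorem Cx.amS (c : Cx) : AmS m (fun _ => c.ev m) := by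
  induction c with
  | nand a b ih₁ ih₂ => exact (ordCl_S m).nand ih₁ ih₂
  | ex a ih => exact (ordCl_S m).ex ih
  | c4 a ih => exact (ordCl_S m).c4 ih
  | c5 a ih => exact (ordCl_S m).c5 ih
  | c6 a ih => exact (ordCl_S m).c6 ih
  | c7 a ih => exact (ordCl_S m).c7 ih
  | qq a ih => exact amS_Q ih
  | lt => exact (ordCl_S m).lt
  | pp => exact amS_P
  | kk => exact Full.const (𝒜 := SS m) _

instance : HasSep (FF m) := ⟨fun _ => P m, am_mem (Am := AmF m) ⟨.pp, rfl⟩,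
  by rintro _ ⟨c, rfl⟩ _; exact sep_of_amS c.amS⟩

instance : DQ (FF m) (fun _ => m) := ⟨⟨.kk, rfl⟩, by rintro _ ⟨a, rfl⟩; exact ⟨.qq a, rfl⟩⟩

noncomputable instance : Cd (FF m) Mach.{u} := cdW _ fun _ => m

instance : HasQ (FF m) := hasQ_cdW _

instance : Par (FF m) m := par_cdW _

theorem FF_tm {R : Ordinal.{u} → Prop} (h : (FF m).Tm R) : ∃ c : Cx, R = c.ev m :=
  let ⟨c, e⟩ := (ordCl_F m).tm_iff.1 h; ⟨c, congrFun e ()⟩

theorem Cx.tm (c : Cx) : (FF m).Tm (c.ev m) := (ordCl_F m).tm_iff.2 ⟨c, rfl⟩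

theorem FF_SS {R : Ordinal.{u} → Prop} (h : (FF m).Tm R) : (SS m).Tm R :=
  let ⟨c, e⟩ := FF_tm h; e ▸ (ordCl_S m).tm_iff.2 c.amS

theorem par_of {α β : Type*} [Cd (FF m) α] [Cd (FF m) β] {f : α → β} (hf : (FF m).Tm f) (a : α)
    [Par (FF m) a] : Par (FF m) (f a) := ⟨hf.comp (Tm.const a)⟩

instance : Countable {a : Ordinal.{u} // Par (FF m) a} := by
  refine Set.Countable.to_subtype (s := {a | Par (FF m) a})
    ((Set.countable_range fun c : Cx => mu (c.ev m)).mono fun a (ha : Par _ a) => ?_)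
  obtain ⟨c, e⟩ := FF_tm (m := m) (R := fun x => x = a) (by fun_prop)
  exact ⟨c, (congrArg mu e).symm.trans (mu_eq rfl fun _ h => h.ne)⟩

/-- Definable elements form an elementary substructure. -/
theorem wit_par {α : Type*} [Cd (FF m) α] [Pure (FF m) α] {Q : α → Prop} (h : (FF m).Tm Q)
    (e : ∃ y, Q y) : ∃ y, Par (FF m) y ∧ Q y := by
  have h₁ : (FF m).Tm (fun a : α => (Cd.ι (FF m) a : Ordinal.{u})) :=
    ⟨fun _ _ _ => trivial, (Tm.ι' (𝒜 := FF m) (Γ := α)).2⟩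
  obtain ⟨y, h₂, h₃⟩ := mu_spec (R := fun x => ∃ y, Cd.ι (FF m) y = x ∧ Q y)
    (let ⟨y, h⟩ := e; ⟨_, y, rfl, h⟩)
  exact ⟨y, ⟨tm_of_rel (Q := fun _ z => Cd.ι (FF m) z = mu (fun x => ∃ y, Cd.ι (FF m) y = x ∧ Q y))
    (by fun_prop) fun _ z => h₂ ▸ ⟨Cd.inj (Pure.pure z ()) (Pure.pure y ()), congrArg _⟩⟩, h₃⟩

theorem all_par {α : Type*} [Cd (FF m) α] [Pure (FF m) α] {Q : α → Prop} (h : (FF m).Tm Q)
    (e : ∀ y, Par (FF m) y → Q y) (y : α) : Q y := by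
  by_contra h'
  obtain ⟨z, h₁, h₂⟩ := wit_par (m := m) (Q := fun y => ¬ Q y) (by fun_prop) ⟨y, h'⟩
  exact h₂ (e z h₁)

theorem par_list {l : OL.{u}} : Par (FF m) l ↔ ∀ x ∈ l, Par (FF m) x := by
  induction l with
  | nil => exact ⟨by simp, fun _ => inferInstance⟩
  | cons a l ih =>
    rw [List.forall_mem_cons, ← ih]
    exact ⟨fun _ => ⟨par_of (f := fun l : OL.{u} => l.headD 0) (by fun_prop) (a :: l),
      par_of (f := fun l : OL.{u} => l.tail) (by fun_prop) (a :: l)⟩,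
      fun ⟨_, _⟩ => ⟨by fun_prop⟩⟩

end Pool.Agent.MP_9a6faa_lc.W

end
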