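import Pool.Agent.MP_9a6faa_lc.W.A

set_option linter.unusedSectionVars false

section

namespace Pool.Agent.MP_9a6faa_lc.W

open Set Order FO

universe u v

variable [Pat]

variable {m : Mach.{u}}

open Classical in
/-- Every nonempty coded type is coded by ordinals. -/
@[reducible] noncomputable def ocS (m : Mach.{u}) (σ : Type*) [Cd (SS m) σ] [Pure (SS m) σ]
    (x₀ : σ) : OC (SS m) σ :=
  have h₁ : (SS m).Tm (fun a : σ => (Cd.ι (SS m) a : Ordinal.{u})) :=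
    ⟨fun _ _ _ => trivial, (Tm.ι' (𝒜 := SS m) (Γ := σ)).2⟩
  have h₂ : ∀ {a b : σ}, Cd.ι (SS m) a = Cd.ι (SS m) b → a = b :=
    Cd.inj (Pure.pure _ ()) (Pure.pure _ ())
  { enc := Cd.ι (SS m)
    dec := fun c => if h : ∃ x, Cd.ι (SS m) x = c then h.choose else x₀
    dec_enc := fun b => by
      have h : ∃ x, Cd.ι (SS m) x = Cd.ι (SS m) b := ⟨b, rfl⟩
      exact (dif_pos h).trans (h₂ h.choose_spec)
    tm_enc := h₁
    tm_dec := tm_of_rel (Q := fun c (x : σ) => Cd.ι (SS m) x = c ∨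
        (x = x₀ ∧ ¬ ∃ y : σ, Cd.ι (SS m) y = c)) (by fun_prop) fun c x => by
      split_ifs with h
      · exact (or_iff_left fun h' => h'.2 h).trans
          ⟨fun e => h₂ (e.trans h.choose_spec.symm), fun e => e ▸ h.choose_spec⟩
      · exact (or_iff_right fun e => h ⟨x, e⟩).trans (and_iff_left h) }

theorem exists_skolem {Γ σ : Type*} [Cd (SS m) Γ] [Cd (SS m) σ] [Pure (SS m) σ]
    {Q : Γ → σ → Prop} (hQ : (SS m).Tm (fun z : Γ × σ => Q z.1 z.2)) (x₀ : σ)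
    (h : ∀ x, ∃ y, Q x y) : ∃ f : Γ → σ, (SS m).Tm f ∧ ∀ x, Q x (f x) := by
  let _ := ocS m σ x₀
  have hd := OC.tm_dec (𝒜 := SS m) (β := σ)
  exact ⟨fun x => OC.dec (SS m) (mu fun c => Q x (OC.dec (SS m) c)), by fun_prop, fun x =>
    mu_spec (R := fun c => Q x (OC.dec (SS m) c))
      (let ⟨y, h⟩ := h x; ⟨OC.enc (SS m) y, (OC.dec_enc (𝒜 := SS m) y).symm ▸ h⟩)⟩

theorem exists_rec {σ : Type*} [Cd (SS m) σ] [Pure (SS m) σ]
    {Q : σ × Ordinal.{u} × OL.{u} → σ → Prop}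
    (hQ : (SS m).Tm (fun z : (σ × Ordinal.{u} × OL.{u}) × σ => Q z.1 z.2)) (x₀ : σ)
    (h : ∀ x, ∃ y, Q x y) :
    ∃ f : OL.{u} → σ, (SS m).Tm f ∧ f [] = x₀ ∧ ∀ x l, Q (f l, x, l) (f (x :: l)) := by
  let _ := ocS m σ x₀
  obtain ⟨g, hg, eg⟩ := exists_skolem hQ x₀ h
  exact ⟨fun l => l.rec x₀ (fun x l r => g (r, x, l)), (tm_listRec (𝒜 := SS m) (Γ := ℕ)
    (fun _ l => l.rec x₀ (fun x l r => g (r, x, l))) (fun _ => x₀) (fun _ x l r => g (r, x, l))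
    (fun _ => rfl) (fun _ _ _ => rfl) (by fun_prop) (by fun_prop)).comp (f := fun l => (0, l))
    (by fun_prop), rfl, fun _ _ => eg _⟩

noncomputable def lam (m : Mach.{u}) : Ordinal.{u} := se m (th m)

theorem gcl_lam : Gcl (lam m) := (se_spec m _).1

theorem th_lt_lam : th m < lam m := (se_spec m _).2.1

open Classical in
/-- The ordinal that gets cofinality `ω` at the coordinate `x`. -/
noncomputable def ta (m : Mach.{u}) (x : Ordinal.{u}) : Ordinal.{u} :=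
  if x < ka m then max x 1 else sa m (snd x)

theorem ta_pos (x : Ordinal.{u}) : 0 < ta m x := by
  unfold ta; split_ifs
  exacts [lt_max_of_lt_right one_pos, (reg_sa _).lim.1]

theorem ta_lt {x : Ordinal.{u}} (hx : x < th m) : ta m x < lam m := by
  unfold ta; split_ifs
  exacts [max_lt (hx.trans th_lt_lam) (Ordinal.one_lt_omega0.trans gcl_lam.1),
    (se_spec m _).2.2 _ ((snd_le x).trans_lt hx)]

theorem fst_zero : fst (0 : Ordinal.{u}) = 0 := le_antisymm (fst_le 0) zero_le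

theorem G_zero : G (0 : Ordinal.{u}) 0 = 0 := by
  have := G_fst_snd (0 : Ordinal.{u})
  rwa [fst_zero, le_antisymm (snd_le 0) zero_le] at this

/-- The value `z` answers the demand `y` at the coordinate `x`. -/
def Lq (m : Mach.{u}) (x y z : Ordinal.{u}) : Prop := y ≤ z ∧ z < ta m x ∧ (x < ka m → y = z)

def Ok (m : Mach.{u}) (x y : Ordinal.{u}) (w : OL.{u}) : Prop :=
  ∃ n : ℕ, ∃ z, Lq m x y z ∧ G (G x n) z ∈ w

def Mv (m : Mach.{u}) (t : OL.{u}) (x y : Ordinal.{u}) : Prop :=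
  x < th m ∧ y < ta m x ∧ ∃ c, c ∈ t ∧ fst (fst c) = x

/-- Compatible finite functions. -/
def Cmp (s t : OL.{u}) : Prop := ∀ c, c ∈ s → ∀ d, d ∈ t → fst c = fst d → c = d

theorem Cmp.mono {s t s' t' : OL.{u}} (h : Cmp s t) (h₁ : s' ⊆ s) (h₂ : t' ⊆ t) : Cmp s' t' :=
  fun c hc d hd => h c (h₁ hc) d (h₂ hd)

theorem Ok.mono {x y : Ordinal.{u}} {s t : OL.{u}} (h : Ok m x y s) (e : s ⊆ t) : Ok m x y t :=
  let ⟨n, z, h₁, h₂⟩ := h; ⟨n, z, h₁, e h₂⟩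

/-- The nodes of level `n` of the condition coded by `p`. -/
def In (m : Mach.{u}) (p : Ordinal.{u}) (n : ℕ) (t : OL.{u}) : Prop :=
  encL t < lam m ∧ P m p (G n (encL t))

def Tree (m : Mach.{u}) (R : ℕ → OL.{u} → Prop) : Prop :=
  (∃ t, R 0 t) ∧ (∀ n w, R (n + 1) w → ∃ t, R n t ∧ t ⊆ w) ∧
    ∀ n t, R n t → 0 ∈ t ∧ Cmp t t ∧ (∀ s, R n s → Cmp t s → t = s) ∧
      ∀ x y, Mv m t x y → ∃ w, R (n + 1) w ∧ t ⊆ w ∧ Ok m x y w

/-- The forcing conditions. -/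
def Cn (m : Mach.{u}) : Type (u + 1) := {p : Ordinal.{u} // p < cb m (lam m) ∧ Tree m (In m p)}

/-- Extension with a shift of levels. -/
def Lk (j : ℕ) (q p : Cn m) : Prop := ∀ k w, In m q.1 k w → ∃ t, In m p.1 (j + k) t ∧ t ⊆ w

instance : Preorder (Cn m) where
  le := fun q p => ∀ k w, In m q.1 k w → ∃ t, In m p.1 k t ∧ t ⊆ w
  le_refl := fun _ _ w h => ⟨w, h, List.Subset.refl w⟩
  le_trans := fun _ _ _ h h' k w hw =>
    let ⟨t, h₁, h₂⟩ := h k w hw; let ⟨s, h₃, h₄⟩ := h' k t h₁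
    ⟨s, h₃, List.Subset.trans h₄ h₂⟩

/-- The letter `c` is decided by `p`. -/
def Cn.St (p : Cn m) (c : Ordinal.{u}) : Prop := ∀ t, In m p.1 0 t → c ∈ t

section

variable {I : Type} {V : Type v} {𝒜 : FO.{u, v} I V} {Γ : Type*} [Cd 𝒜 Γ] [HasSep 𝒜]
variable {x y z : Γ → Ordinal.{u}} {s t : Γ → OL.{u}} {n k : Γ → ℕ}

@[fun_prop] theorem tm_sub (hs : 𝒜.Tm s) (ht : 𝒜.Tm t) : 𝒜.Tm (fun z => s z ⊆ t z) :=
  Tm.congrP (Q := fun z => ∀ a, a ∈ s z → a ∈ t z) (by fun_prop) fun _ => Iff.rfl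

@[fun_prop] theorem tm_nat_add (hn : 𝒜.Tm n) (hk : 𝒜.Tm k) : 𝒜.Tm (fun z => n z + k z) :=
  tm_of_rel (Q := fun z (j : ℕ) => (j : Ordinal.{u}) = n z + k z)
    (tm_eq (by fun_prop) (tm_add (by fun_prop) (by fun_prop))) fun _ _ => by
      rw [← Nat.cast_add, Nat.cast_inj]

@[fun_prop] theorem tm_Cmp (hs : 𝒜.Tm s) (ht : 𝒜.Tm t) : 𝒜.Tm (fun z => Cmp (s z) (t z)) := by
  unfold Cmp; fun_prop

variable [Cd 𝒜 Mach.{u}] [HasQ 𝒜] [Par 𝒜 m]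

instance : Par 𝒜 m.κ := ⟨by fun_prop⟩

instance : Par 𝒜 (ka m) := ⟨by fun_prop⟩

instance : Par 𝒜 (th m) := ⟨by fun_prop⟩

instance : Par 𝒜 (lam m) := ⟨by unfold lam se; fun_prop⟩

@[fun_prop] theorem tm_ta (hx : 𝒜.Tm x) : 𝒜.Tm (fun z => ta m (x z)) := by
  unfold ta; fun_prop

@[fun_prop] theorem tm_Lq (hx : 𝒜.Tm x) (hy : 𝒜.Tm y) (hz : 𝒜.Tm z) :
    𝒜.Tm (fun w => Lq m (x w) (y w) (z w)) := by
  unfold Lq; fun_prop

@[fun_prop] theorem tm_Ok (hx : 𝒜.Tm x) (hy : 𝒜.Tm y) (ht : 𝒜.Tm t) :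
    𝒜.Tm (fun z => Ok m (x z) (y z) (t z)) := by
  unfold Ok; fun_prop

@[fun_prop] theorem tm_Mv (ht : 𝒜.Tm t) (hx : 𝒜.Tm x) (hy : 𝒜.Tm y) :
    𝒜.Tm (fun z => Mv m (t z) (x z) (y z)) := by
  unfold Mv; fun_prop

@[fun_prop] theorem tm_In (hx : 𝒜.Tm x) (hn : 𝒜.Tm n) (ht : 𝒜.Tm t) :
    𝒜.Tm (fun z => In m (x z) (n z) (t z)) := by
  unfold In; fun_prop

noncomputable instance : Cd 𝒜 (Cn m) := cdOfEnc Subtype.val Subtype.val_injective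
  (Tm.df (Tm.congrP (Q := fun p => p < cb m (lam m) ∧ Tree m (fun n t => In m p n t))
    (by unfold Tree; fun_prop) fun p => ⟨fun h => ⟨⟨p, h⟩, rfl⟩, fun ⟨q, e⟩ => e ▸ q.2⟩))

instance : Pure 𝒜 (Cn m) := ⟨fun _ _ => trivial⟩

@[fun_prop] theorem tm_cval {p : Γ → Cn m} (h : 𝒜.Tm p) : 𝒜.Tm (fun z => (p z).1) := by
  have : 𝒜.Tm (fun p : Cn m => p.1) := Tm.mk' (fun _ _ _ => trivial) 𝒜.eq fun i x y _ _ => by
    constructor
    · rintro ⟨z, e⟩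
      obtain ⟨e₁, e₂⟩ := pr_iff.1 e
      exact 𝒜.o_inj (e₂.trans e₁.symm)
    · rintro rfl
      exact ⟨_, rfl⟩
  exact this.comp h

@[fun_prop] theorem tm_cle {p q : Γ → Cn m} (hp : 𝒜.Tm p) (hq : 𝒜.Tm q) :
    𝒜.Tm (fun z => p z ≤ q z) :=
  Tm.congrP (Q := fun z => ∀ k w, In m (p z).1 k w → ∃ t, In m (q z).1 k t ∧ t ⊆ w)
    (by fun_prop) fun _ => Iff.rfl

@[fun_prop] theorem tm_Lk {p q : Γ → Cn m} (hn : 𝒜.Tm n) (hp : 𝒜.Tm p) (hq : 𝒜.Tm q) :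
    𝒜.Tm (fun z => Lk (n z) (p z) (q z)) := by
  unfold Lk; fun_prop

@[fun_prop] theorem tm_St {p : Γ → Cn m} (hp : 𝒜.Tm p) (hx : 𝒜.Tm x) :
    𝒜.Tm (fun z => (p z).St (x z)) := by
  unfold Cn.St; fun_prop

end

theorem mk_cond {R : ℕ → OL.{u} → Prop} (hR : (SS m).Tm (fun z : ℕ × OL.{u} => R z.1 z.2))
    (h₁ : ∀ n t, R n t → encL t < lam m) (h₂ : Tree m R) :
    ∃ p : Cn m, ∀ n t, In m p.1 n t ↔ R n t := by
  obtain ⟨c, h₃, h₄⟩ := code_set_cb (m := m) (R := fun x => R (toN (fst x)) (decL (snd x)))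
    (by fun_prop) (lam m)
  have e : In m c = R := funext₂ fun n t => propext
    ⟨fun h => by simpa using (h₄ _ (gcl_lam.G (gcl_lam.nat n) h.1)).1 h.2,
      fun h => ⟨h₁ n t h, (h₄ _ (gcl_lam.G (gcl_lam.nat n) (h₁ n t h))).2 (by simpa)⟩⟩
  exact ⟨⟨c, h₃, e ▸ h₂⟩, fun n t => iff_of_eq (congrFun₂ e n t)⟩

theorem cn_nonempty (h : 0 < ka m) : Nonempty (Cn m) :=
  let ⟨p, _⟩ := mk_cond (m := m) (R := fun _ t => t = [0]) (by fun_prop)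
    (fun _ _ e => e ▸ gcl_lam.encL (by simpa using gcl_lam.pos))
    ⟨⟨_, rfl⟩, fun _ w e => ⟨w, e, List.Subset.refl w⟩, by
      rintro n _ rfl
      refine ⟨by simp, by simp [Cmp], fun _ e _ => e.symm, fun x y ⟨_, h₂, c, h₃, h₄⟩ => ?_⟩
      obtain rfl : c = 0 := by simpa using h₃
      obtain rfl : 0 = x := by simpa [fst_zero] using h₄
      obtain rfl : y = 0 := by simpa [ta, h] using h₂
      exact ⟨_, rfl, List.Subset.refl _, 0, 0, ⟨le_rfl, h₂, fun _ => rfl⟩, by simp [G_zero]⟩⟩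
  ⟨p⟩

theorem Lk.trans {i j : ℕ} {p q r : Cn m} (h : Lk j r q) (h' : Lk i q p) : Lk (i + j) r p :=
  fun k w hw => let ⟨t, h₁, h₂⟩ := h k w hw; let ⟨s, h₃, h₄⟩ := h' _ t h₁
    ⟨s, (Nat.add_assoc i j k).symm ▸ h₃, List.Subset.trans h₄ h₂⟩

theorem Lk.zero {p q : Cn m} : Lk 0 q p ↔ q ≤ p := by
  simp only [Lk, Nat.zero_add]; rfl

namespace Cn

variable (p : Cn m) {n k : ℕ} {s t : OL.{u}}

theorem cmp (ht : In m p.1 n t) : Cmp t t := (p.2.2.2.2 n t ht).2.1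

theorem uniq (ht : In m p.1 n t) (hs : In m p.1 n s) (h : Cmp t s) : t = s :=
  (p.2.2.2.2 n t ht).2.2.1 s hs h

theorem spl (ht : In m p.1 n t) {x y : Ordinal.{u}} (h : Mv m t x y) :
    ∃ w, In m p.1 (n + 1) w ∧ t ⊆ w ∧ Ok m x y w := (p.2.2.2.2 n t ht).2.2.2 x y h

theorem mv0 (ht : In m p.1 n t) : Mv m t 0 0 :=
  ⟨gcl_th.pos, ta_pos 0, 0, (p.2.2.2.2 n t ht).1, by simp [fst_zero]⟩

theorem down (h : k ≤ n) (ht : In m p.1 n t) : ∃ s, In m p.1 k s ∧ s ⊆ t := by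
  induction n, h using Nat.le_induction generalizing t with
  | base => exact ⟨t, ht, List.Subset.refl t⟩
  | succ n _ ih =>
    obtain ⟨w, h₁, h₂⟩ := p.2.2.2.1 n t ht
    exact let ⟨s, h₃, h₄⟩ := ih h₁; ⟨s, h₃, List.Subset.trans h₄ h₂⟩

theorem lev (n : ℕ) : ∃ t, In m p.1 n t := by
  induction n with
  | zero => exact p.2.2.1
  | succ n ih => exact let ⟨_, h⟩ := ih; let ⟨w, h, _⟩ := p.spl h (p.mv0 h); ⟨w, h⟩

theorem res (ht : In m p.1 n t) :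
    ∃ q : Cn m, ∀ k w, In m q.1 k w ↔ In m p.1 (n + k) w ∧ t ⊆ w := by
  refine mk_cond (by fun_prop) (fun _ _ h => h.1.1) ⟨⟨t, ht, List.Subset.refl t⟩,
    fun k w ⟨h₁, h₂⟩ => ?_, fun k w ⟨h₁, h₂⟩ => ⟨(p.2.2.2.2 _ w h₁).1, p.cmp h₁,
      fun s hs => p.uniq h₁ hs.1, fun x y h =>
        let ⟨s, h₃, h₄, h₅⟩ := p.spl h₁ h; ⟨s, ⟨h₃, List.Subset.trans h₂ h₄⟩, h₄, h₅⟩⟩⟩
  obtain ⟨s, h₃, h₄⟩ := p.2.2.2.1 _ w h₁
  obtain ⟨r, h₅, h₆⟩ := p.down (Nat.le_add_right n k) h₃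
  exact ⟨s, ⟨h₃, p.uniq ht h₅ ((p.cmp h₁).mono h₂ (List.Subset.trans h₆ h₄)) ▸ h₆⟩, h₄⟩

variable {p}

theorem _root_.Pool.Agent.MP_9a6faa_lc.W.Lk.le {q : Cn m} (h : Lk n q p) : q ≤ p := fun k w hw =>
  let ⟨_, h₁, h₂⟩ := h k w hw; let ⟨s, h₃, h₄⟩ := p.down (Nat.le_add_left k n) h₁
  ⟨s, h₃, List.Subset.trans h₄ h₂⟩

theorem St.mono {q : Cn m} {c : Ordinal.{u}} (h : p.St c) (e : q ≤ p) : q.St c :=
  fun t ht => let ⟨s, h₁, h₂⟩ := e 0 t ht; h₂ (h s h₁)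

theorem St.lt {c : Ordinal.{u}} (h : p.St c) : c < lam m :=
  let ⟨t, ht⟩ := p.lev 0; (lt_encL (h t ht)).trans ht.1

theorem St.uniq {c x y : Ordinal.{u}} (h : p.St (G c x)) (h' : p.St (G c y)) : x = y :=
  let ⟨t, ht⟩ := p.lev 0; (G_inj.1 (p.cmp ht _ (h t ht) _ (h' t ht) (by simp))).2

end Cn

/-- Lists of values at the coordinate `x`. -/
def Lx (m : Mach.{u}) (x : Ordinal.{u}) (v : OL.{u}) : Prop :=
  ∀ c t, c :: t <:+ v → fst c = G x t.length ∧ snd c < ta m x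

namespace Lx

variable {x c : Ordinal.{u}} {v w : OL.{u}}

theorem suf (h : c ∈ v) : ∃ t, c :: t <:+ v :=
  let ⟨s, t, e⟩ := List.append_of_mem h; ⟨t, s, e.symm⟩

theorem mem (h : Lx m x v) (hc : c ∈ v) : fst (fst c) = x := by
  obtain ⟨t, ht⟩ := suf hc
  simp [(h c t ht).1]

theorem lt (h : Lx m x v) (hx : x < th m) (hc : c ∈ v) : c < lam m := by
  obtain ⟨t, ht⟩ := suf hc
  rw [← G_fst_snd c, (h c t ht).1]
  exact gcl_lam.G (gcl_lam.G (hx.trans th_lt_lam) (gcl_lam.nat _))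
    ((h c t ht).2.trans (ta_lt hx))

theorem cmp (h : Lx m x v) : Cmp v v := fun c hc d hd e => by
  obtain ⟨t, ht⟩ := suf hc
  obtain ⟨s, hs⟩ := suf hd
  have : t.length = s.length := by simpa [(h c t ht).1, (h d s hs).1, G_inj] using e
  exact (List.cons.inj ((List.suffix_of_suffix_length_le ht hs (by simp [this])).eq_of_length
    (by simp [this]))).1

theorem tail (h : Lx m x (c :: v)) : Lx m x v :=
  fun d t ht => h d t (ht.trans (List.suffix_cons _ _))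

theorem uniq (h : Lx m x v) (h' : Lx m x w) (e : v.length = w.length) (hc : Cmp v w) : v = w := by
  induction v generalizing w with
  | nil => exact (List.length_eq_zero_iff.1 e.symm).symm
  | cons c v ih =>
    obtain _ | ⟨d, w⟩ := w
    · simp at e
    · have e' : v.length = w.length := by simpa using e
      rw [hc c (by simp) d (by simp) (by
        rw [(h c v List.suffix_rfl).1, (h' d w List.suffix_rfl).1, e']),
        ih h.tail h'.tail e' (hc.mono (List.subset_cons_self _ _) (List.subset_cons_self _ _))]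

theorem cons (h : Lx m x v) {z : Ordinal.{u}} (hz : z < ta m x) :
    Lx m x (G (G x v.length) z :: v) := fun c t ht => by
  rcases List.suffix_cons_iff.1 ht with e | e
  · obtain ⟨rfl, rfl⟩ := List.cons.inj e
    simpa using hz
  · exact h c t e

end Lx

/-- Every demand can be met. -/
theorem Cn.dense_ok (p : Cn m) {x y : Ordinal.{u}} (hx : x < th m) (hy : y < ta m x) :
    ∃ q ≤ p, ∃ n : ℕ, ∃ z, Lq m x y z ∧ q.St (G (G x n) z) := by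
  have A : ∀ (p : Cn m) n t, In m p.1 n t → (∃ c, c ∈ t ∧ fst (fst c) = x) →
      ∃ q ≤ p, ∃ n : ℕ, ∃ z, Lq m x y z ∧ q.St (G (G x n) z) := fun p n t ht h => by
    obtain ⟨w, h₁, -, k, z, h₂, h₃⟩ := p.spl ht ⟨hx, hy, h⟩
    obtain ⟨q, hq⟩ := p.res h₁
    exact ⟨q, Lk.le fun j s hs => ⟨s, ((hq j s).1 hs).1, List.Subset.refl s⟩, k, z, h₂,
      fun s hs => ((hq 0 s).1 hs).2 h₃⟩
  by_cases h : ∃ n t, In m p.1 n t ∧ ∃ c, c ∈ t ∧ fst (fst c) = x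
  · exact let ⟨n, t, h₁, h₂⟩ := h; A p n t h₁ h₂
  push Not at h
  obtain ⟨t, ht⟩ := p.lev 0
  have h₀ := Lx.cons (m := m) (x := x) (v := []) (by simp [Lx]) (ta_pos x)
  obtain ⟨q, hq⟩ := mk_cond (m := m) (R := fun n w => ∃ t v, In m p.1 n t ∧ w = v ++ t ∧
    v.length = n + 1 ∧ Lx m x v) (by unfold Lx; fun_prop)
    (by
      rintro n _ ⟨t, v, h₁, rfl, -, h₂⟩
      exact gcl_lam.encL fun c hc => (List.mem_append.1 hc).elim (h₂.lt hx)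
        fun hc => (lt_encL hc).trans h₁.1)
    ⟨⟨_, t, _, ht, rfl, rfl, h₀⟩, by
      rintro n _ ⟨t, _ | ⟨c, v⟩, h₁, rfl, h₂, h₃⟩
      · simp at h₂
      · obtain ⟨s, h₄, h₅⟩ := p.2.2.2.1 n t h₁
        exact ⟨_, ⟨s, v, h₄, rfl, by simpa using h₂, h₃.tail⟩, List.append_subset.2
          ⟨fun c hc => by simp [hc], fun c hc => by simp [h₅ hc]⟩⟩, by
      rintro n _ ⟨t, v, h₁, rfl, h₂, h₃⟩
      refine ⟨by simp [(p.2.2.2.2 n t h₁).1], fun c hc d hd e => ?_, ?_, fun x' y' hm => ?_⟩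
      · rcases List.mem_append.1 hc with hc | hc <;> rcases List.mem_append.1 hd with hd | hd
        exacts [h₃.cmp c hc d hd e, absurd (e ▸ h₃.mem hc) (h n t h₁ d hd),
          absurd (e ▸ h₃.mem hd) (h n t h₁ c hc), p.cmp h₁ c hc d hd e]
      · rintro _ ⟨s, w, h₄, rfl, h₅, h₆⟩ e
        rw [p.uniq h₁ h₄ (e.mono (by simp) (by simp)),
          h₃.uniq h₆ (h₂.trans h₅.symm) (e.mono (by simp) (by simp))]
      · have K : ∀ s z, In m p.1 (n + 1) s → t ⊆ s → z < ta m x →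
            Ok m x' y' (G (G x v.length) z :: v ++ s) → ∃ w, (∃ t v, In m p.1 (n + 1) t ∧
              w = v ++ t ∧ v.length = n + 1 + 1 ∧ Lx m x v) ∧ v ++ t ⊆ w ∧ Ok m x' y' w :=
          fun s z k₁ k₂ k₃ k₄ => ⟨_, ⟨s, _, k₁, rfl, by simp [h₂], h₃.cons k₃⟩,
            List.append_subset.2 ⟨fun c hc => by simp [hc], fun c hc => by simp [k₂ hc]⟩, k₄⟩
        obtain ⟨k₁, k₂, c, k₃, k₄⟩ := hm
        rcases List.mem_append.1 k₃ with k₃ | k₃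
        · obtain rfl : x = x' := (h₃.mem k₃).symm.trans k₄
          obtain ⟨s, k₅, k₆, -⟩ := p.spl h₁ (p.mv0 h₁)
          exact K s y' k₅ k₆ k₂ ⟨v.length, y', ⟨le_rfl, k₂, fun _ => rfl⟩, by simp⟩
        · obtain ⟨s, k₅, k₆, k₇⟩ := p.spl h₁ ⟨k₁, k₂, c, k₃, k₄⟩
          exact K s 0 k₅ k₆ (ta_pos x) (k₇.mono fun c hc => by simp [hc])⟩
  obtain ⟨r, h₁, h₂⟩ := A q 0 _ ((hq 0 _).2 ⟨t, _, ht, rfl, rfl, h₀⟩)
    ⟨G (G x 0) 0, by simp, by simp⟩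
  refine ⟨r, h₁.trans fun n w hw => ?_, h₂⟩
  obtain ⟨s, v, h₃, rfl, -⟩ := (hq n w).1 hw
  exact ⟨s, h₃, by simp⟩

end Pool.Agent.MP_9a6faa_lc.W

end

section

namespace Pool.Agent.MP_9a6faa_lc.W

open Set Order FO

universe u

variable [Pat]

variable {m : Mach.{u}}

/-- A tree of height `ω` with bounded branching is bounded. -/
theorem reg_tree {ρ : Ordinal.{u}} (hρ : Reg m ρ) {A : OL.{u} → Ordinal.{u} → Prop}
    (hA : (SS m).Tm (fun z : OL.{u} × Ordinal.{u} => A z.1 z.2))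
    (h : ∀ l, ∃ c < ρ, ∀ w, A l w → w < c) :
    ∃ ν < ρ, ∀ l, (∀ w k, w :: k <:+ l → A k w) → encL l < ν := by
  have st : ∀ n : ℕ, ∃ ν < ρ, ∀ l : OL.{u}, (∀ w k, w :: k <:+ l → A k w) → l.length = n →
      encL l < ν := fun n => by
    induction n with
    | zero =>
      exact ⟨1, Ordinal.one_lt_omega0.trans hρ.1, fun l _ e => by
        rw [List.length_eq_zero_iff.1 e]; exact one_pos⟩
    | succ n ih =>
      obtain ⟨ν, h₁, h₂⟩ := ih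
      obtain ⟨c, h₃, h₄⟩ := hρ.bdd (f := fun i => mu (fun c => ∀ w, A (decL i) w → w < c))
        (by fun_prop) h₁
      refine ⟨G c ν + 1, hρ.gcl.succ (hρ.gcl.G h₃ h₁), ?_⟩
      rintro (_ | ⟨w, k⟩) hl e
      · simp at e
      · have h₅ := h₂ k (fun w' k' h => hl w' k' (h.trans (List.suffix_cons _ _)))
          (by simpa using e)
        have h₆ := mu_lt (h k)
        have h₇ := h₄ _ h₅
        simp only [decL_encL] at h₇
        exact (add_one_le_iff.2 (G_lt_of_lt ((h₆.2 w (hl w k List.suffix_rfl)).trans (h₇ h₆.1))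
          h₅)).trans_lt (lt_add_one _)
  obtain ⟨ν, h₁, h₂⟩ := hρ.bdd (f := fun i => mu (fun ν => ∀ l : OL.{u},
    (∀ w k, w :: k <:+ l → A k w) → l.length = toN i → encL l < ν)) (by fun_prop) hρ.1
  refine ⟨ν, h₁, fun l hl => ?_⟩
  have h₃ := h₂ l.length (Ordinal.natCast_lt_omega0 _)
  simp only [toN_cast] at h₃
  exact ((mu_lt (st l.length)).2 l hl rfl).trans (h₃ (mu_lt (st l.length)).1)

/-- Ranked winning positions of the first player. -/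
theorem exists_rank {Y : OL.{u} → OL.{u}} {H : Ordinal.{u} × OL.{u} → Prop} (hY : (SS m).Tm Y)
    (hH : (SS m).Tm H) :
    ∃ B : Ordinal.{u} × Ordinal.{u} × OL.{u} → Prop, (SS m).Tm B ∧ ∀ b r a, B (b, r, a) ↔
      ∃ x y, Mv m (Y a) x y ∧ ∀ w < lam m, Ok m x y (decL w) → H (b, w :: a) →
        ∃ r' < r, B (b, r', w :: a) := by
  let X : Ordinal.{u} → Ordinal.{u} → OL.{u} → Prop := fun b => orec id fun R _ a =>
    ∃ x y, Mv m (Y a) x y ∧ ∀ w < lam m, Ok m x y (decL w) → H (b, w :: a) → ∃ r', R r' (w :: a)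
  have hX : ∀ b r a, X b r a ↔ ∃ x y, Mv m (Y a) x y ∧ ∀ w < lam m, Ok m x y (decL w) →
      H (b, w :: a) → ∃ r' < r, X b r' (w :: a) := fun b r a => orec_iff _ _ _ _
  refine ⟨fun z => X z.1 z.2.1 z.2.2, ?_, hX⟩
  refine tm_grec (𝒜 := SS m) (A := Ordinal.{u} × OL.{u}) Prod.fst (fun a => encL a.2)
    (by fun_prop) (by fun_prop) (fun _ _ h h' => Prod.ext h (encL_inj h')) (fun b a => X b a.1 a.2)
    (fun b R a => ∃ x y, Mv m (Y a.2) x y ∧ ∀ w < lam m, Ok m x y (decL w) → H (b, w :: a.2) →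
      ∃ r', R (r', w :: a.2)) (fun _ a w => w.1 < a.1 ∧ ∃ x < lam m, w.2 = x :: a.2)
    (by fun_prop) (fun b a => (hX _ _ _).trans (exists₂_congr fun x y => and_congr_right fun _ =>
      forall₂_congr fun w hw => forall₂_congr fun _ _ => exists_congr fun r =>
        and_congr_left fun _ => (and_iff_left ⟨_, hw, rfl⟩).symm))
    (fun R hR => by fun_prop) (fun _ _ _ h => h.1) fun _ _ a => ?_
  obtain ⟨y, h₁, h₂, h₃⟩ := exists_gcl₂ (encL a.2) (lam m)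
  refine ⟨y, h₁, fun a _ h w ⟨_, x, hx, e⟩ => ?_⟩
  rw [e]
  exact h₃.succ (h₃.G (hx.trans h₂) h)

/-- The open game is won by the second player for some bound. -/
theorem game {ρ : Ordinal.{u}} (hρ : Reg m ρ)
    (hS : ∀ x < th m, ta m x < ρ ∨ (ρ < ta m x ∧ Reg m (ta m x) ∧ ¬ x < ka m))
    {X : OL.{u} → OL.{u}} {V : OL.{u} → Prop} {β : OL.{u} → Ordinal.{u}} (hX : (SS m).Tm X)
    (hV : (SS m).Tm V) (hβ : (SS m).Tm β) (V0 : V [])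
    (Vs : ∀ a, V a → ∀ x y, Mv m (X a) x y → ∃ w < lam m, Ok m x y (decL w) ∧ V (w :: a))
    (hb : ∀ a, V a → β a < ρ) :
    ∃ b < ρ, ∃ W : OL.{u} → Prop, (SS m).Tm W ∧ W [] ∧ ∀ a, W a → ∀ x y, Mv m (X a) x y →
      ∃ w < lam m, Ok m x y (decL w) ∧ V (w :: a) ∧ β (w :: a) ≤ b ∧ W (w :: a) := by
  obtain ⟨B, hB, eB⟩ := exists_rank (m := m) (H := fun z => V z.2 ∧ β z.2 ≤ z.1) hX (by fun_prop)
  suffices ∃ b < ρ, ∀ r, ¬ B (b, r, []) by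
    obtain ⟨b, h₁, h₂⟩ := this
    refine ⟨b, h₁, fun a => ∀ r, ¬ B (b, r, a), by fun_prop, h₂, fun a h x y hm => ?_⟩
    obtain ⟨r, hr⟩ := bound_wit (lam m) (fun w r => B (b, r, w :: a))
    by_contra h₃
    push Not at h₃
    exact h r ((eB _ _ _).2 ⟨x, y, hm, fun w h₄ h₅ h₆ => hr w h₄ (h₃ w h₄ h₅ h₆.1 h₆.2)⟩)
  obtain ⟨Wn, hW, eW⟩ : ∃ Wn : Ordinal.{u} × OL.{u} × Ordinal.{u} × Ordinal.{u} → Prop,
      (SS m).Tm Wn ∧ ∀ b a x y, Wn (b, a, x, y) ↔ ∀ w < lam m, Ok m x y (decL w) →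
        V (w :: a) ∧ β (w :: a) ≤ b → ∃ r' < mu (fun r => B (b, r, a)), B (b, r', w :: a) :=
    ⟨fun z => ∀ w < lam m, Ok m z.2.2.1 z.2.2.2 (decL w) → V (w :: z.2.1) ∧ β (w :: z.2.1) ≤ z.1 →
      ∃ r' < mu (fun r => B (z.1, r, z.2.1)), B (z.1, r', w :: z.2.1), by fun_prop,
      fun _ _ _ _ => Iff.rfl⟩
  obtain ⟨ix, hi, ei⟩ : ∃ ix : OL.{u} × Ordinal.{u} → Ordinal.{u}, (SS m).Tm ix ∧
      ∀ a i, ix (a, i) = fst (fst ((X a).getD (toN i) 0)) :=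
    ⟨fun z => fst (fst ((X z.1).getD (toN z.2) 0)), by fun_prop, fun _ _ => rfl⟩
  obtain ⟨M, hM, M0, eM⟩ := exists_rec (m := m) (σ := OL.{u}) (Q := fun z a => ∀ x,
    x = ix (z.1, fst z.2.1) → V z.1 → Mv m (X z.1) x (snd z.2.1) → ∃ w < lam m, a = w :: z.1 ∧
      V a ∧ (ta m x < ρ → Ok m x (snd z.2.1) (decL w)) ∧ (ρ < ta m x → ∀ b < ρ,
        (∃ y < ta m x, Wn (b, z.1, x, y)) → ∃ y, Wn (b, z.1, x, y) ∧ Ok m x y (decL w)))
    (by fun_prop) [] (fun ⟨a, j, _⟩ => by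
      generalize hx : ix (a, fst j) = x
      by_cases h : V a ∧ Mv m (X a) x (snd j)
      · rcases hS x h.2.1 with h' | ⟨h₁, h₂, h₃⟩
        · obtain ⟨w, h₄, h₅, h₆⟩ := Vs a h.1 _ _ h.2
          exact ⟨_, by
            rintro _ rfl _ _
            exact ⟨w, h₄, rfl, h₆, fun _ => h₅, fun e => absurd e h'.not_gt⟩⟩
        · obtain ⟨c, h₄, h₅⟩ := h₂.regA (fun b y => Wn (b, a, x, y)) (by fun_prop) ρ h₁
          obtain ⟨w, h₆, ⟨n, z, h₇, h₈⟩, h₉⟩ := Vs a h.1 x c ⟨h.2.1, h₄, h.2.2.2⟩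
          exact ⟨_, by
            rintro _ rfl _ _
            exact ⟨w, h₆, rfl, h₉, fun e => absurd e h₁.not_gt, fun _ b hb h' =>
              let ⟨y, k₁, k₂⟩ := h₅ b hb h'
              ⟨y, k₂, n, z, ⟨k₁.le.trans h₇.1, h₇.2.1, fun e => absurd e h₃⟩, h₈⟩⟩⟩
      · exact ⟨[], by rintro _ rfl h₁ h₂; exact absurd ⟨h₁, h₂⟩ h⟩)
  obtain ⟨ν, h₃, h₄⟩ := reg_tree hρ (A := fun l j => fst j < Ordinal.omega0 ∧ (snd j = 0 ∨
    (snd j < ta m (ix (M l, fst j)) ∧ ta m (ix (M l, fst j)) < ρ))) (by fun_prop) fun l => by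
      obtain ⟨c, h₁, h₂⟩ := hρ.bdd (f := fun i => ta m (ix (M l, i))) (by fun_prop) hρ.1
      refine ⟨G Ordinal.omega0 (c + 1), hρ.gcl.G hρ.1 (hρ.gcl.succ h₁), fun j hj => ?_⟩
      rw [← G_fst_snd j]
      exact G_lt_of_lt hj.1 (lt_add_one_iff.2 (hj.2.elim (fun e => e ▸ zero_le)
        fun e => (e.1.trans (h₂ _ hj.1 e.2)).le))
  obtain ⟨b, h₇, h₈⟩ := hρ.bdd (f := fun i => β (M (decL i))) (by fun_prop) h₃
  refine ⟨b, h₇, fun r => ?_⟩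
  suffices ∀ l, (∀ j k, j :: k <:+ l → fst j < Ordinal.omega0 ∧ (snd j = 0 ∨
      (snd j < ta m (ix (M k, fst j)) ∧ ta m (ix (M k, fst j)) < ρ))) → V (M l) →
      ¬ B (b, r, M l) by
    simpa only [M0] using this [] (by simp) (by rwa [M0])
  induction r using WellFoundedLT.induction with
  | ind r ih =>
    intro l hl hV h
    obtain ⟨x, y, hm, h₉⟩ := (eB _ _ _).1 (mu_spec (R := fun r => B (b, r, M l)) ⟨r, h⟩)
    obtain ⟨c, h₁, h₂⟩ := hm.2.2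
    obtain ⟨i, h₅, rfl⟩ := List.mem_iff_getElem.1 h₁
    have e : x = ix (M l, i) := by rw [ei, toN_cast, List.getD_eq_getElem _ _ h₅, h₂]
    obtain ⟨y₀, k₀, w, k₁, k₂, k₃, y', k₅, k₆⟩ : ∃ y₀, (y₀ = 0 ∨ (y₀ < ta m x ∧ ta m x < ρ)) ∧
        ∃ w < lam m, M (G i y₀ :: l) = w :: M l ∧ V (w :: M l) ∧
          ∃ y, Wn (b, M l, x, y) ∧ Ok m x y (decL w) := by
      rcases hS x hm.1 with h' | ⟨h', -⟩
      · obtain ⟨w, k₁, k₂, k₃, k₄, -⟩ := eM (G i y) l x (by simpa using e) hV (by simpa using hm)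
        exact ⟨y, Or.inr ⟨hm.2.1, h'⟩, w, k₁, k₂, k₂ ▸ k₃, y, (eW _ _ _ _).2 h₉,
          by simpa using k₄ h'⟩
      · obtain ⟨w, k₁, k₂, k₃, -, k₄⟩ := eM (G i 0) l x (by simpa using e) hV
          (by simpa using ⟨hm.1, ta_pos x, hm.2.2⟩)
        exact ⟨0, Or.inl rfl, w, k₁, k₂, k₂ ▸ k₃, k₄ h' b h₇ ⟨y, hm.2.1, (eW _ _ _ _).2 h₉⟩⟩
    have k₇ : ∀ j k, j :: k <:+ G i y₀ :: l → fst j < Ordinal.omega0 ∧ (snd j = 0 ∨
        (snd j < ta m (ix (M k, fst j)) ∧ ta m (ix (M k, fst j)) < ρ)) := fun j k hj => by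
      rcases List.suffix_cons_iff.1 hj with e' | e'
      · obtain ⟨rfl, rfl⟩ := List.cons.inj e'
        simpa [← e] using k₀
      · exact hl j k e'
    obtain ⟨r', k₈, k₉⟩ := (eW _ _ _ _).1 k₅ w k₁ k₆ ⟨k₃, by
      simpa [k₂] using (h₈ _ (h₄ _ k₇) (by simpa [k₂] using hb _ k₃)).le⟩
    exact ih r' (k₈.trans_le (mu_le h)) _ k₇ (k₂ ▸ k₃) (k₂ ▸ k₉)

theorem namba {ρ : Ordinal.{u}} (hρ : Reg m ρ) (hκ : ka m ≤ ρ) (hS : ∀ x < th m, ρ ≠ sa m x)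
    {D : Cn m → ℕ → Ordinal.{u} → Prop}
    (hD : (SS m).Tm (fun z : Cn m × ℕ × Ordinal.{u} => D z.1 z.2.1 z.2.2))
    (dense : ∀ q n, ∃ r ≤ q, ∃ b < ρ, D r n b)
    (mono : ∀ q r n b b', D q n b → r ≤ q → b ≤ b' → D r n b') (p : Cn m) :
    ∃ q ≤ p, ∃ b < ρ, ∀ n, ∀ r ≤ q, ∃ r' ≤ r, D r' n b := by
  obtain ⟨s₀, h₀⟩ := p.lev 0
  obtain ⟨f, hf, f0, ef⟩ := exists_rec (m := m) (σ := Cn m × OL.{u} × Ordinal.{u})
    (Q := fun w y => In m w.1.1.1 1 (decL w.2.1) → Lk 1 y.1 w.1.1 ∧ In m y.1.1 0 y.2.1 ∧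
      decL w.2.1 ⊆ y.2.1 ∧ D y.1 w.2.2.length y.2.2 ∧ y.2.2 < ρ)
    (by fun_prop) (p, s₀, 0) (fun ⟨⟨c, s, _⟩, x, a⟩ => by
      by_cases h : In m c.1 1 (decL x)
      · obtain ⟨q, h₁⟩ := c.res h
        obtain ⟨r, h₃, b, h₄, h₅⟩ := dense q a.length
        obtain ⟨t, h₆⟩ := r.lev 0
        obtain ⟨t', h₇, h₈⟩ := h₃ 0 t h₆
        exact ⟨(r, t, b), fun _ => ⟨(Lk.zero.2 h₃).trans (i := 1) fun k w hw =>
          ⟨w, ((h₁ k w).1 hw).1, List.Subset.refl w⟩, h₆,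
          List.Subset.trans ((h₁ 0 t').1 h₇).2 h₈, h₅, h₄⟩⟩
      · exact ⟨(c, s, 0), fun h' => absurd h' h⟩)
  obtain ⟨V, hV, eV⟩ : ∃ V : OL.{u} → Prop, (SS m).Tm V ∧ ∀ a, V a ↔ ∀ x b, x :: b <:+ a →
      In m (f b).1.1 1 (decL x) ∧ (f b).2.1 ⊆ decL x ∧ encL (decL x) = x :=
    ⟨_, by fun_prop, fun _ => Iff.rfl⟩
  have Vc : ∀ {x a}, V (x :: a) ↔ V a ∧ In m (f a).1.1 1 (decL x) ∧ (f a).2.1 ⊆ decL x ∧
      encL (decL x) = x := fun {x a} => by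
    simp only [eV]
    refine ⟨fun h => ⟨fun y b e => h y b (e.trans (List.suffix_cons _ _)),
      h x a List.suffix_rfl⟩, fun h y b e => ?_⟩
    rcases List.suffix_cons_iff.1 e with e | e
    · obtain ⟨rfl, rfl⟩ := List.cons.inj e
      exact h.2
    · exact h.1 y b e
  have inv : ∀ a, V a → In m (f a).1.1 0 (f a).2.1 ∧ (f a).2.2 < ρ := fun a h => by
    rcases a with _ | ⟨x, a⟩
    · exact f0 ▸ ⟨h₀, hρ.lim.1⟩
    · exact ⟨(ef x a (Vc.1 h).2.1).2.1, (ef x a (Vc.1 h).2.1).2.2.2.2⟩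
  have cm : ∀ e b, V (e ++ b) → V b ∧ Lk e.length (f (e ++ b)).1 (f b).1 ∧
      (f b).2.1 ⊆ (f (e ++ b)).2.1 := fun e b h => by
    induction e with
    | nil => exact ⟨h, Lk.zero.2 le_rfl, List.Subset.refl _⟩
    | cons x e ih =>
      obtain ⟨h₁, h₂, h₃, -⟩ := Vc.1 h
      exact ⟨(ih h₁).1, (ef x _ h₂).1.trans (ih h₁).2.1, List.Subset.trans (ih h₁).2.2
        (List.Subset.trans h₃ (ef x _ h₂).2.2.1)⟩
  have inj : ∀ a b, V a → V b → a.length = b.length → Cmp (f a).2.1 (f b).2.1 → a = b :=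
    fun a b ha hb e h => by
      induction a generalizing b with
      | nil => exact (List.length_eq_zero_iff.1 e.symm).symm
      | cons x a ih =>
        obtain _ | ⟨y, b⟩ := b
        · simp at e
        · obtain ⟨h₁, h₂, h₃, h₄⟩ := Vc.1 ha
          obtain ⟨k₁, k₂, k₃, k₄⟩ := Vc.1 hb
          have h₅ := h.mono (ef x a h₂).2.2.1 (ef y b k₂).2.2.1
          obtain rfl := ih b h₁ k₁ (by simpa using e) (h₅.mono h₃ k₃)
          rw [← h₄, ← k₄, Cn.uniq _ h₂ k₂ h₅]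
  obtain ⟨b, hb, W, hW, W0, Ws⟩ := game hρ (fun x hx => by
      unfold ta
      split_ifs with h
      · exact Or.inl (max_lt (h.trans_le hκ) (Ordinal.one_lt_omega0.trans hρ.1))
      · exact (hS _ ((snd_le x).trans_lt hx)).symm.lt_or_gt.imp_right
          fun e => ⟨e, reg_sa _, h⟩)
    (X := fun a => (f a).2.1) (by fun_prop) hV (β := fun a => (f a).2.2) (by fun_prop)
    ((eV _).2 (by simp)) (fun a h x y hm =>
      let ⟨w, h₁, h₂, h₃⟩ := Cn.spl _ (inv a h).1 hm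
      ⟨encL w, h₁.1, by simpa using h₃, Vc.2 ⟨h, by simpa using ⟨h₁, h₂⟩⟩⟩)
    fun a h => (inv a h).2
  obtain ⟨T, hT, eT⟩ : ∃ T : OL.{u} → Prop, (SS m).Tm T ∧ ∀ a, T a ↔
      V a ∧ ∀ c, c <:+ a → (f c).2.2 ≤ b ∧ W c := ⟨_, by fun_prop, fun _ => Iff.rfl⟩
  have TV : ∀ {a}, T a → V a := fun h => ((eT _).1 h).1
  obtain ⟨q, hq⟩ := mk_cond (m := m) (R := fun n t => ∃ a, T a ∧ a.length = n ∧ t = (f a).2.1)
    (by fun_prop) (fun n t ⟨a, h₁, _, h₂⟩ => h₂ ▸ (inv a (TV h₁)).1.1)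
    ⟨⟨_, [], (eT _).2 ⟨(eV _).2 (by simp), by simp [f0, W0]⟩, rfl, rfl⟩, by
      rintro n _ ⟨_ | ⟨x, a⟩, h₁, h₂, rfl⟩
      · simp at h₂
      · exact ⟨_, ⟨a, (eT _).2 ⟨(Vc.1 (TV h₁)).1, fun c hc => ((eT _).1 h₁).2 c
          (hc.trans (List.suffix_cons _ _))⟩, by simpa using h₂, rfl⟩,
          (cm [x] a (TV h₁)).2.2⟩, by
      rintro n _ ⟨a, h₁, rfl, rfl⟩
      have h₂ := (inv a (TV h₁)).1
      refine ⟨((f a).1.2.2.2.2 _ _ h₂).1, Cn.cmp _ h₂, ?_, fun x y hm => ?_⟩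
      · rintro _ ⟨c, h₃, h₄, rfl⟩ e
        rw [inj a c (TV h₁) (TV h₃) h₄.symm e]
      · obtain ⟨w, -, h₃, h₄, h₅⟩ := Ws a (((eT _).1 h₁).2 a List.suffix_rfl).2 x y hm
        refine ⟨_, ⟨w :: a, (eT _).2 ⟨h₄, fun c hc => ?_⟩, rfl, rfl⟩, (cm [w] a h₄).2.2,
          h₃.mono (ef w a (Vc.1 h₄).2.1).2.2.1⟩
        rcases List.suffix_cons_iff.1 hc with rfl | hc
        exacts [h₅, ((eT _).1 h₁).2 c hc]⟩
  have K : ∀ e c, V (e ++ c) → ∃ t, In m (f c).1.1 e.length t ∧ t ⊆ (f (e ++ c)).2.1 :=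
    fun e c h => (cm e c h).2.1 0 _ (inv _ h).1
  refine ⟨q, fun n t ht => ?_, b, hb, fun n r hr => ?_⟩
  · obtain ⟨a, h₁, rfl, rfl⟩ := (hq n t).1 ht
    simpa [f0] using K a [] (by simpa using TV h₁)
  obtain ⟨w, h₁⟩ := r.lev (n + 1)
  obtain ⟨_, h₂, h₃⟩ := hr _ w h₁
  obtain ⟨_ | ⟨x, c⟩, h₄, h₅, rfl⟩ := (hq _ _).1 h₂
  · simp at h₅
  obtain ⟨r', h₆⟩ := r.res h₁
  refine ⟨r', Lk.le fun k s hs => ⟨s, ((h₆ k s).1 hs).1, List.Subset.refl s⟩, mono _ _ _ _ _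
    ((by simpa using h₅ : c.length = n) ▸ (ef x c (Vc.1 (TV h₄)).2.1).2.2.2.1) (fun k s hs => ?_)
    (((eT _).1 h₄).2 _ List.suffix_rfl).1⟩
  obtain ⟨h₇, h₈⟩ := (h₆ k s).1 hs
  obtain ⟨_, k₁, k₂⟩ := hr _ s h₇
  obtain ⟨a, k₃, k₄, rfl⟩ := (hq _ _).1 k₁
  have k₅ : V (a.take k ++ a.drop k) := by simpa using TV k₃
  obtain ⟨t, k₆, k₇⟩ := K _ _ k₅
  have k₈ := (cm _ _ k₅).2.2
  rw [List.take_append_drop] at k₇ k₈
  rw [inj _ _ (cm _ _ k₅).1 (TV h₄) (by rw [List.length_drop, k₄, h₅]; omega)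
    ((r.cmp h₇).mono (List.Subset.trans k₈ k₂) (List.Subset.trans h₃ h₈)), List.length_take, k₄,
    min_eq_left (by omega)] at k₆
  exact ⟨t, k₆, List.Subset.trans k₇ k₂⟩

end Pool.Agent.MP_9a6faa_lc.W

end

section

namespace Pool.Agent.MP_9a6faa_lc.W

open Set Order FO Filter

universe u v

variable [Pat]

variable {m : Mach.{u}}

/-- The condition `p` puts `x` into the name `a`. -/
def Cl (a x : Ordinal.{u}) (p : Cn m) : Prop := ∃ q : Cn m, p ≤ q ∧ P m a (G x q.1)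

theorem Cl.lt {a x : Ordinal.{u}} {p : Cn m} (h : Cl a x p) : x < a :=
  let ⟨_, _, h⟩ := h; (left_le_G _ _).trans_lt (P_lt h)

theorem Cl.mono {a x : Ordinal.{u}} {p q : Cn m} (h : Cl a x p) (e : q ≤ p) : Cl a x q :=
  let ⟨r, h₁, h₂⟩ := h; ⟨r, e.trans h₁, h₂⟩

noncomputable def FEq (a b : Ordinal.{u}) (p : Cn m) : Prop :=
  orec id (fun R a (w : Ordinal.{u} × Cn m) =>
    (∀ x, ∀ q ≤ w.2, Cl a x q → ∃ r ≤ q, ∃ y, Cl w.1 y r ∧ R x (y, r)) ∧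
    ∀ y, ∀ q ≤ w.2, Cl w.1 y q → ∃ r ≤ q, ∃ x, Cl a x r ∧ R x (y, r)) a (b, p)

theorem feq_def {a b : Ordinal.{u}} {p : Cn m} : FEq a b p ↔
    (∀ x, ∀ q ≤ p, Cl a x q → ∃ r ≤ q, ∃ y, Cl b y r ∧ FEq x y r) ∧
    ∀ y, ∀ q ≤ p, Cl b y q → ∃ r ≤ q, ∃ x, Cl a x r ∧ FEq x y r :=
  (orec_iff _ _ _ _).trans (and_congr (forall₄_congr fun _ _ _ h => exists_congr fun _ =>
    and_congr_right fun _ => exists_congr fun _ => and_congr_right fun _ => and_iff_right h.lt)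
    (forall₄_congr fun _ _ _ _ => exists_congr fun _ => and_congr_right fun _ =>
      exists_congr fun _ => and_congr_right fun h => and_iff_right h.lt))

def FMem (a b : Ordinal.{u}) (p : Cn m) : Prop := ∀ q ≤ p, ∃ r ≤ q, ∃ y, Cl b y r ∧ FEq a y r

theorem FEq.symm {a b : Ordinal.{u}} {p : Cn m} (h : FEq a b p) : FEq b a p := by
  induction a using WellFoundedLT.induction generalizing b p with
  | ind a ih =>
    rw [feq_def] at h ⊢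
    exact ⟨fun y q hq hy => let ⟨r, hr, x, hx, e⟩ := h.2 y q hq hy; ⟨r, hr, x, hx, ih x hx.lt e⟩,
      fun x q hq hx => let ⟨r, hr, y, hy, e⟩ := h.1 x q hq hx; ⟨r, hr, y, hy, ih x hx.lt e⟩⟩

theorem FEq.mono {a b : Ordinal.{u}} {p q : Cn m} (h : FEq a b p) (hq : q ≤ p) : FEq a b q := by
  rw [feq_def] at h ⊢
  exact ⟨fun i r hr => h.1 i r (hr.trans hq), fun j r hr => h.2 j r (hr.trans hq)⟩

theorem FMem.mono {a b : Ordinal.{u}} {p q : Cn m} (h : FMem a b p) (hq : q ≤ p) : FMem a b q :=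
  fun r hr => h r (hr.trans hq)

theorem feq_iff {a b : Ordinal.{u}} {p : Cn m} : FEq a b p ↔
    (∀ x, ∀ q ≤ p, Cl a x q → FMem x b q) ∧ ∀ y, ∀ q ≤ p, Cl b y q → FMem y a q := by
  rw [feq_def]
  exact ⟨fun ⟨h₁, h₂⟩ => ⟨fun i q hq hi r hr => h₁ i r (hr.trans hq) (hi.mono hr),
    fun j q hq hj r hr => let ⟨s, hs, i, hi, e⟩ := h₂ j r (hr.trans hq) (hj.mono hr)
      ⟨s, hs, i, hi, e.symm⟩⟩, fun ⟨h₁, h₂⟩ => ⟨fun i q hq hi => h₁ i q hq hi q le_rfl,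
    fun j q hq hj => let ⟨s, hs, i, hi, e⟩ := h₂ j q hq hj q le_rfl; ⟨s, hs, i, hi, e.symm⟩⟩⟩

theorem FMem.reg {a b : Ordinal.{u}} {p : Cn m} (h : ∀ q ≤ p, ∃ r ≤ q, FMem a b r) :
    FMem a b p := fun q hq =>
  let ⟨r, hr, h⟩ := h q hq; let ⟨s, hs, h⟩ := h r le_rfl; ⟨s, hs.trans hr, h⟩

theorem FEq.reg {a b : Ordinal.{u}} {p : Cn m} (h : ∀ q ≤ p, ∃ r ≤ q, FEq a b r) : FEq a b p :=
  feq_iff.2 ⟨fun i _ hq hi => FMem.reg fun s hs => let ⟨r, hr, e⟩ := h s (hs.trans hq)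
      ⟨r, hr, (feq_iff.1 e).1 i r le_rfl (hi.mono (hr.trans hs))⟩,
    fun j _ hq hj => FMem.reg fun s hs => let ⟨r, hr, e⟩ := h s (hs.trans hq)
      ⟨r, hr, (feq_iff.1 e).2 j r le_rfl (hj.mono (hr.trans hs))⟩⟩

theorem FMem.of_feq {a b y : Ordinal.{u}} {p : Cn m} (hy : Cl b y p) (e : FEq a y p) :
    FMem a b p := fun q hq => ⟨q, le_rfl, y, hy.mono hq, e.mono hq⟩

def Forces : Fml → OL.{u} → Cn m → Prop
  | .mem i j, l, p => FMem (l.getD i 0) (l.getD j 0) p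
  | .eq i j, l, p => FEq (l.getD i 0) (l.getD j 0) p
  | .bot, _, _ => False
  | .imp φ ψ, l, p => ∀ q ≤ p, Forces φ l q → Forces ψ l q
  | .all φ, l, p => ∀ a, Forces φ (a :: l) p

theorem Forces.mono {φ : Fml} {l : OL.{u}} {p q : Cn m} (h : Forces φ l p) (hq : q ≤ p) :
    Forces φ l q := by
  induction φ generalizing l with
  | mem i j => exact FMem.mono h hq
  | eq i j => exact FEq.mono h hq
  | bot => exact h
  | imp φ ψ _ _ => exact fun r hr => h r (hr.trans hq)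
  | all φ ih => exact fun a => ih (h a)

theorem Forces.reg {φ : Fml} {l : OL.{u}} {p : Cn m} (h : ∀ q ≤ p, ∃ r ≤ q, Forces φ l r) :
    Forces φ l p := by
  induction φ generalizing l p with
  | mem i j => exact FMem.reg h
  | eq i j => exact FEq.reg h
  | bot => exact let ⟨_, _, h⟩ := h p le_rfl; h
  | imp φ ψ _ ih =>
    exact fun q hq hφ => ih fun r hr => let ⟨s, hs, h⟩ := h r (hr.trans hq)
      ⟨s, hs, h s le_rfl (hφ.mono (hs.trans hr))⟩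
  | all φ ih => exact fun a => ih fun q hq => let ⟨r, hr, h⟩ := h q hq; ⟨r, hr, h a⟩

/-- The name given by a relation. -/
noncomputable def nm (R : Ordinal.{u} → Cn m → Prop) : Ordinal.{u} :=
  cs m (fun z => ∃ p : Cn m, snd z = p.1 ∧ R (fst z) p)

/-- Canonical names. -/
noncomputable def chk (m : Mach.{u}) (c : Ordinal.{u}) : Ordinal.{u} :=
  nm (fun x (_ : Cn m) => ∃ z : Iio c, P m c z ∧ x = chk m z)
termination_by c
decreasing_by exact z.2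

section

variable {I : Type} {V : Type v} {𝒜 : FO.{u, v} I V} {Γ : Type*} [Cd 𝒜 Γ]
variable [Cd 𝒜 Mach.{u}] [HasQ 𝒜] [HasSep 𝒜] [Par 𝒜 m] {a b : Γ → Ordinal.{u}} {p : Γ → Cn m}

@[fun_prop] theorem tm_Cl (ha : 𝒜.Tm a) (hb : 𝒜.Tm b) (hp : 𝒜.Tm p) :
    𝒜.Tm (fun z => Cl (a z) (b z) (p z)) := by
  unfold Cl; fun_prop

@[fun_prop] theorem tm_FEq (ha : 𝒜.Tm a) (hb : 𝒜.Tm b) (hp : 𝒜.Tm p) :
    𝒜.Tm (fun z => FEq (a z) (b z) (p z)) := by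
  have := tm_grec (𝒜 := 𝒜) (Γ := ℕ) (A := Ordinal.{u} × Ordinal.{u} × Cn m) Prod.fst
    (fun z => G z.2.1 z.2.2.1) (by fun_prop) (by fun_prop)
    (fun _ _ h h' => Prod.ext h (Prod.ext (G_inj.1 h').1 (Subtype.ext (G_inj.1 h').2)))
    (fun _ z => FEq z.1 z.2.1 z.2.2)
    (fun _ R z => (∀ x, ∀ q ≤ z.2.2, Cl z.1 x q → ∃ r ≤ q, ∃ y, Cl z.2.1 y r ∧ R (x, y, r)) ∧
      ∀ y, ∀ q ≤ z.2.2, Cl z.2.1 y q → ∃ r ≤ q, ∃ x, Cl z.1 x r ∧ R (x, y, r))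
    (fun _ z w => w.1 < z.1 ∧ w.2.1 < z.2.1) (by fun_prop)
    (fun _ _ => feq_def.trans (and_congr (forall₄_congr fun _ _ _ h => exists_congr fun _ =>
      and_congr_right fun _ => exists_congr fun _ => and_congr_right fun h' =>
        (and_iff_right ⟨h.lt, h'.lt⟩).symm) (forall₄_congr fun _ _ _ h => exists_congr fun _ =>
      and_congr_right fun _ => exists_congr fun _ => and_congr_right fun h' =>
        (and_iff_right ⟨h'.lt, h.lt⟩).symm)))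
    (fun R hR => by fun_prop) (fun _ _ _ h => h.1) fun _ _ z => by
      obtain ⟨y, h₁, h₂, h₃⟩ := exists_gcl₂ (G z.2.1 z.2.2.1) (cb m (lam m))
      exact ⟨y, h₁, fun _ _ h w hw =>
        h₃.G (hw.2.trans ((left_le_G _ _).trans_lt h)) (w.2.2.2.1.trans h₂)⟩
  exact (this.comp (f := fun z => (0, a z, b z, p z)) (by fun_prop) :)

@[fun_prop] theorem tm_FMem (ha : 𝒜.Tm a) (hb : 𝒜.Tm b) (hp : 𝒜.Tm p) :
    𝒜.Tm (fun z => FMem (a z) (b z) (p z)) := by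
  unfold FMem; fun_prop

@[fun_prop] theorem tm_Forces (φ : Fml) {l : Γ → OL.{u}} (hl : 𝒜.Tm l) (hp : 𝒜.Tm p) :
    𝒜.Tm (fun z => Forces φ (l z) (p z)) := by
  have : 𝒜.Tm (fun z : OL.{u} × Cn m => Forces φ z.1 z.2) := by
    induction φ <;> unfold Forces <;> fun_prop
  exact (this.comp (f := fun z => (l z, p z)) (by fun_prop) :)

@[fun_prop] theorem tm_nm {R : Γ → Ordinal.{u} → Cn m → Prop}
    (hR : 𝒜.Tm (fun z : Γ × Ordinal.{u} × Cn m => R z.1 z.2.1 z.2.2)) :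
    𝒜.Tm (fun z => nm (fun x p => R z x p)) := by
  unfold nm; fun_prop

@[fun_prop] theorem tm_chk (ha : 𝒜.Tm a) : 𝒜.Tm (fun z => chk m (a z)) :=
  (tm_frec (𝒜 := 𝒜) (Γ := ℕ) (fun _ => chk m)
    (fun _ k c => nm (fun x (_ : Cn m) => ∃ z, P m c z ∧ x = k z))
    (fun _ a k hk => by
      rw [chk]
      exact congrArg _ (funext₂ fun x _ => propext
        ⟨fun ⟨b, h, e⟩ => ⟨⟨b, P_lt h⟩, h, hk b (P_lt h) ▸ e⟩,
          fun ⟨b, h, e⟩ => ⟨b, h, (hk b b.2).symm ▸ e⟩⟩))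
    (fun k hk => by fun_prop)).comp (f := fun z => (0, a z)) (by fun_prop)

end

theorem Cl_nm {R : Ordinal.{u} → Cn m → Prop}
    (hR : (SS m).Tm (fun z : Ordinal.{u} × Cn m => R z.1 z.2)) (b : Ordinal.{u})
    (hb : ∀ x p, R x p → x < b) (mono : ∀ x p q, R x p → q ≤ p → R x q) {x : Ordinal.{u}}
    {p : Cn m} : Cl (nm R) x p ↔ R x p := by
  have e : ∀ q : Cn m, P m (nm R) (G x q.1) ↔ R x q := fun q =>
    (cs_spec (by fun_prop) ⟨G b (cb m (lam m)), fun z ⟨r, e, h⟩ => by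
      simpa using G_lt_of_lt (hb _ _ h) (e ▸ r.2.1 : snd z < _)⟩ _).trans (by
        simp only [fst_G, snd_G]
        exact ⟨fun ⟨r, e, h⟩ => (Subtype.ext e : q = r) ▸ h, fun h => ⟨q, rfl, h⟩⟩)
  exact ⟨fun ⟨q, h₁, h₂⟩ => mono _ _ _ ((e q).1 h₂) h₁, fun h => ⟨p, le_rfl, (e p).2 h⟩⟩

theorem nm_bound (m : Mach.{u}) (a : Ordinal.{u}) :
    ∃ b, ∀ R : Ordinal.{u} → Cn m → Prop, (∀ x p, R x p → x < a) → nm R < b := by
  obtain ⟨b, hb⟩ := exists_bound (fun s : Set (Iio (G a (cb m (lam m)))) =>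
    cs m (fun z => ∃ h, ⟨z, h⟩ ∈ s))
  refine ⟨b, fun R h => lt_of_eq_of_lt (congrArg (cs m) (funext fun z => propext ?_))
    (hb {z | ∃ p : Cn m, snd z = p.1 ∧ R (fst z) p})⟩
  exact ⟨fun ⟨r, e, h'⟩ => ⟨by simpa using G_lt_of_lt (h _ _ h') (e ▸ r.2.1 : snd z < _),
    r, e, h'⟩, fun ⟨_, h⟩ => h⟩

theorem Cl_chk {c x : Ordinal.{u}} {p : Cn m} :
    Cl (chk m c) x p ↔ ∃ z, P m c z ∧ x = chk m z := by
  obtain ⟨b, hb⟩ := bound_fun c (chk m)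
  rw [chk, ← Cl_nm (m := m) (R := fun x _ => ∃ z, P m c z ∧ x = chk m z) (by fun_prop) b
    (fun _ _ ⟨z, h, e⟩ => e ▸ hb z (P_lt h)) fun _ _ _ h _ => h]
  exact iff_of_eq (congrArg (fun R => Cl (nm R) x p) (funext₂ fun x _ => propext
    ⟨fun ⟨b, h⟩ => ⟨b, h⟩, fun ⟨b, h⟩ => ⟨⟨b, P_lt h.1⟩, h⟩⟩))

/-- Generic sequences of conditions. -/
structure Gen (m : Mach.{u}) where
  hω : Ordinal.omega0 < m.κ
  s : ℕ → Cn m
  anti : Antitone s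
  par : ∀ n, Par (FF m) (s n)
  meet : ∀ D : Cn m → Prop, (FF m).Tm D → ∃ n, D (s n) ∨ ∀ q ≤ s n, ¬ D q

theorem exists_gen (hω : Ordinal.omega0 < m.κ) : Nonempty (Gen m) := by
  have := cn_nonempty (Ordinal.omega0_pos.trans (lt_ka hω))
  have : Nonempty Cx := ⟨.lt⟩
  obtain ⟨e, he⟩ := exists_surjective_nat Cx
  have st : ∀ (n : ℕ) (p : {p : Cn m // Par (FF m) p}), ∃ q : {p : Cn m // Par (FF m) p},
      q.1 ≤ p.1 ∧ ((e n).ev m q.1.1 ∨ ∀ r ≤ q.1, ¬ (e n).ev m r.1) := fun n ⟨p, _⟩ => by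
    have := (e n).tm (m := m)
    obtain ⟨q, h₁, h₂⟩ := wit_par (m := m)
      (Q := fun q => q ≤ p ∧ ((e n).ev m q.1 ∨ ∀ r ≤ q, ¬ (e n).ev m r.1)) (by fun_prop) (by
        by_cases h : ∃ r ≤ p, (e n).ev m r.1
        exacts [let ⟨r, h₁, h₂⟩ := h; ⟨r, h₁, Or.inl h₂⟩,
          ⟨p, le_rfl, Or.inr fun r h₁ h₂ => h ⟨r, h₁, h₂⟩⟩])
    exact ⟨⟨q, h₁⟩, h₂⟩
  choose f h₁ h₂ using st
  obtain ⟨p, hp, -⟩ := wit_par (m := m) (Q := fun _ : Cn m => True) (by fun_prop)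
    ⟨Classical.arbitrary _, trivial⟩
  let s : ℕ → {p : Cn m // Par (FF m) p} := fun n => n.rec ⟨p, hp⟩ f
  refine ⟨⟨hω, fun n => (s n).1, antitone_nat_of_succ_le fun n => h₁ n _, fun n => (s n).2,
    fun D hD => ?_⟩⟩
  obtain ⟨c, hc⟩ := FF_tm (m := m) (R := fun x => ∃ p : Cn m, p.1 = x ∧ D p) (by fun_prop)
  obtain ⟨n, rfl⟩ := he c
  have : ∀ p : Cn m, (e n).ev m p.1 ↔ D p := fun p =>
    hc ▸ ⟨fun ⟨q, e, h⟩ => (Subtype.ext e : q = p) ▸ h, fun h => ⟨p, rfl, h⟩⟩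
  exact ⟨n + 1, by simpa only [this] using h₂ n (s n)⟩

end Pool.Agent.MP_9a6faa_lc.W

end

section

namespace Pool.Agent.MP_9a6faa_lc.W

open Set Order FO Filter

universe u

variable [Pat]

namespace Gen

variable {m : Mach.{u}} (g : Gen m)

instance (n : ℕ) : Par (FF m) (g.s n) := g.par n

/-- The property holds eventually along the generic sequence. -/
def H (X : Cn m → Prop) : Prop := ∀ᶠ n in atTop, X (g.s n)

/-- The value of a name. -/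
noncomputable def val (a : Ordinal.{u}) : ZFSet.{u} :=
  ZFSet.range (fun x : {x : Iio a // Par (FF m) x.1 ∧ g.H (Cl a x)} => val x.1)
termination_by a
decreasing_by exact x.1.2

variable {g} {X Y : Cn m → Prop}

theorem H.and (h : g.H X) (h' : g.H Y) : g.H (fun p => X p ∧ Y p) := Eventually.and h h'

theorem H.mono (h : g.H X) (e : ∀ p, X p → Y p) : g.H Y := Eventually.mono h fun _ => e _

theorem H.exists (h : g.H X) : ∃ n, X (g.s n) := Eventually.exists h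

theorem H_of (n : ℕ) (h : ∀ q ≤ g.s n, X q) : g.H X :=
  eventually_atTop.2 ⟨n, fun _ hk => h _ (g.anti hk)⟩

theorem meet' (hX : (FF m).Tm X) : (∃ n, X (g.s n)) ∨ g.H (fun p => ∀ q ≤ p, ¬ X q) :=
  let ⟨n, h⟩ := g.meet X hX
  h.imp (fun h => ⟨n, h⟩) fun h => H_of n fun _ hq r hr => h r (hr.trans hq)

theorem dense (hX : (FF m).Tm X) (h : g.H (fun p => ∃ r ≤ p, X r)) : ∃ n, X (g.s n) :=
  (meet' hX).resolve_right fun h' => let ⟨_, ⟨r, h₁, h₂⟩, h₃⟩ := (h.and h').exists; h₃ r h₁ h₂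

theorem mem_val {a : Ordinal.{u}} {z : ZFSet.{u}} :
    z ∈ g.val a ↔ ∃ x, Par (FF m) x ∧ g.H (Cl a x) ∧ g.val x = z := by
  rw [val, ZFSet.mem_range]
  exact ⟨fun ⟨x, h⟩ => ⟨x.1, x.2.1, x.2.2, h⟩, fun ⟨x, h₁, h₂, h₃⟩ =>
    ⟨⟨⟨x, h₂.exists.choose_spec.lt⟩, h₁, h₂⟩, h₃⟩⟩

theorem meets_mem {a b : Ordinal.{u}} [Par (FF m) a] [Par (FF m) b] (h : g.H (FMem a b)) :
    ∃ y, Par (FF m) y ∧ g.H (Cl b y) ∧ g.H (FEq a y) := by
  obtain ⟨n, h⟩ := dense (X := fun r => ∃ y, Cl b y r ∧ FEq a y r) (by fun_prop)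
    (h.mono fun p hp => hp p le_rfl)
  obtain ⟨y, h₁, h₂, h₃⟩ := wit_par (m := m) (by fun_prop) h
  exact ⟨y, h₁, H_of n fun _ => h₂.mono, H_of n fun _ => h₃.mono⟩

theorem val_eq_iff {a b : Ordinal.{u}} [ha : Par (FF m) a] [hb : Par (FF m) b] :
    g.val a = g.val b ↔ g.H (FEq a b) := by
  revert ha
  induction a using WellFoundedLT.induction generalizing b with
  | ind a ih =>
    intro ha
    have lt : ∀ {x}, g.H (Cl a x) → x < a := fun h => h.exists.choose_spec.lt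
    constructor
    · intro e
      rcases meet' (g := g) (X := fun q => ∃ x, Cl a x q ∧ ∀ r ≤ q, ¬ FMem x b r) (by fun_prop)
        with ⟨n, h₁⟩ | h₁
      · obtain ⟨x, h₁, h₂, h₃⟩ := wit_par (m := m) (by fun_prop) h₁
        have h₄ : g.H (Cl a x) := H_of n fun _ => h₂.mono
        obtain ⟨y, h₅, h₆, h₇⟩ := mem_val.1 (e ▸ mem_val.2 ⟨x, h₁, h₄, rfl⟩)
        obtain ⟨k, h₈, h₉, h₀⟩ := ((H_of n h₃).and (h₆.and ((ih x (lt h₄)).1 h₇.symm))).exists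
        exact absurd (FMem.of_feq h₉ h₀) h₈
      rcases meet' (g := g) (X := fun q => ∃ x, Cl b x q ∧ ∀ r ≤ q, ¬ FMem x a r) (by fun_prop)
        with ⟨n, h₂⟩ | h₂
      · obtain ⟨x, h₁, h₂, h₃⟩ := wit_par (m := m) (by fun_prop) h₂
        obtain ⟨y, h₅, h₆, h₇⟩ := mem_val.1
          (e.symm ▸ mem_val.2 ⟨x, h₁, H_of n fun _ => h₂.mono, rfl⟩ : g.val x ∈ g.val a)
        obtain ⟨k, h₈, h₉, h₀⟩ := ((H_of n h₃).and (h₆.and ((ih y (lt h₆)).1 h₇))).exists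
        exact absurd (FMem.of_feq h₉ h₀.symm) h₈
      push Not at h₁ h₂
      exact (h₁.and h₂).mono fun p h => feq_iff.2
        ⟨fun x q hq hx => FMem.reg fun r hr => h.1 r (hr.trans hq) x (hx.mono hr),
          fun x q hq hx => FMem.reg fun r hr => h.2 r (hr.trans hq) x (hx.mono hr)⟩
    · intro h
      ext z
      simp only [mem_val]
      constructor
      · rintro ⟨x, h₁, h₂, rfl⟩
        obtain ⟨y, h₃, h₄, h₅⟩ := meets_mem (a := x) (b := b)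
          ((h.and h₂).mono fun p h => (feq_iff.1 h.1).1 x p le_rfl h.2)
        exact ⟨y, h₃, h₄, ((ih x (lt h₂)).2 h₅).symm⟩
      · rintro ⟨x, h₁, h₂, rfl⟩
        obtain ⟨y, h₃, h₄, h₅⟩ := meets_mem (a := x) (b := a)
          ((h.and h₂).mono fun p h => (feq_iff.1 h.1).2 x p le_rfl h.2)
        exact ⟨y, h₃, h₄, (ih y (lt h₄)).2 (h₅.mono fun _ => FEq.symm)⟩

theorem val_mem_iff {a b : Ordinal.{u}} [Par (FF m) a] [Par (FF m) b] :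
    g.val a ∈ g.val b ↔ g.H (FMem a b) :=
  ⟨fun h => let ⟨_, _, h₁, h₂⟩ := mem_val.1 h
    (h₁.and (val_eq_iff.1 h₂.symm)).mono fun _ h => FMem.of_feq h.1 h.2,
    fun h => let ⟨y, h₁, h₂, h₃⟩ := meets_mem h; mem_val.2 ⟨y, h₁, h₂, (val_eq_iff.2 h₃).symm⟩⟩

variable (g)

def InM (x : ZFSet.{u}) : Prop := ∃ a, Par (FF m) a ∧ g.val a = x

abbrev M : Type (u + 1) := Subtype g.InM

abbrev E : g.M → g.M → Prop := ES g.InM

open Classical in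
noncomputable def v (a : Ordinal.{u}) : g.M :=
  if h : Par (FF m) a then ⟨g.val a, a, h, rfl⟩ else ⟨g.val 0, 0, inferInstance, rfl⟩

variable {g}

theorem v_val {a : Ordinal.{u}} [h : Par (FF m) a] : (g.v a).1 = g.val a := by
  rw [v, dif_pos h]

theorem exists_v (x : g.M) : ∃ a, Par (FF m) a ∧ g.v a = x :=
  let ⟨_, a, h, e⟩ := x; ⟨a, h, Subtype.ext (v_val.trans e)⟩

theorem exists_vl (l : List g.M) : ∃ k : OL.{u}, Par (FF m) k ∧ k.map g.v = l := by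
  induction l with
  | nil => exact ⟨[], inferInstance, rfl⟩
  | cons x l ih =>
    obtain ⟨k, _, rfl⟩ := ih
    obtain ⟨a, _, rfl⟩ := exists_v x
    exact ⟨a :: k, ⟨by fun_prop⟩, rfl⟩

instance : Countable g.M :=
  Function.Surjective.countable (f := fun a : {a : Ordinal.{u} // Par (FF m) a} => g.v a)
    fun x => let ⟨a, h, e⟩ := exists_v x; ⟨⟨a, h⟩, e⟩

theorem E_v {x : g.M} {a : Ordinal.{u}} [Par (FF m) a] :
    g.E x (g.v a) ↔ ∃ y, Par (FF m) y ∧ g.H (Cl a y) ∧ g.v y = x := by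
  rw [E, ES, v_val, mem_val]
  exact exists_congr fun y => and_congr_right fun _ => and_congr_right fun _ => by
    rw [← v_val, Subtype.ext_iff]

theorem v_eq_iff {a b : Ordinal.{u}} [Par (FF m) a] [Par (FF m) b] :
    g.v a = g.v b ↔ g.H (FEq a b) := by
  rw [← val_eq_iff, ← v_val, ← v_val, Subtype.ext_iff]

theorem v_mem_iff {a b : Ordinal.{u}} [Par (FF m) a] [Par (FF m) b] :
    g.E (g.v a) (g.v b) ↔ g.H (FMem a b) := by
  rw [← val_mem_iff, ← v_val, ← v_val, E, ES]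

instance {l : OL.{u}} {a : Ordinal.{u}} [Par (FF m) l] [Par (FF m) a] : Par (FF m) (a :: l) :=
  ⟨by fun_prop⟩

instance {l : OL.{u}} {a : Ordinal.{u}} {i : ℕ} [Par (FF m) l] [Par (FF m) a] :
    Par (FF m) (l.getD i a) := ⟨by fun_prop⟩

/-- The truth lemma. -/
theorem truth (φ : Fml) {l : OL.{u}} [Par (FF m) l] :
    Sat g.E φ (env (g.v 0) (l.map g.v)) ↔ g.H (Forces φ l) := by
  induction φ generalizing l with
  | mem i j => simp only [Sat, env, List.getD_map]; exact v_mem_iff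
  | eq i j => simp only [Sat, env, List.getD_map]; exact v_eq_iff
  | bot => exact ⟨False.elim, fun h => h.exists.choose_spec⟩
  | imp φ ψ ih₁ ih₂ =>
    simp only [Sat, ih₁, ih₂]
    refine ⟨fun h => ?_, fun h h' => (h.and h').mono fun p h => h.1 p le_rfl h.2⟩
    rcases meet' (g := g) (X := Forces φ l) (by fun_prop) with ⟨n, h'⟩ | h'
    · exact (h (H_of n fun _ => h'.mono)).mono fun p hp q hq _ => hp.mono hq
    · exact h'.mono fun p hp q hq h => absurd h (hp q hq)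
  | all φ ih =>
    refine ⟨fun h => ?_, fun h x => ?_⟩
    · rcases meet' (g := g) (X := fun p => ∃ a, ∀ q ≤ p, ¬ Forces φ (a :: l) q) (by fun_prop)
        with ⟨n, h'⟩ | h'
      · obtain ⟨a, _, h'⟩ := wit_par (m := m) (by fun_prop) h'
        obtain ⟨k, h₁, h₂⟩ := ((H_of n h').and ((ih (l := a :: l)).1
          (env_cons _ _ _ ▸ h (g.v a)))).exists
        exact absurd h₂ h₁
      · push Not at h'
        exact h'.mono fun p hp a => Forces.reg fun q hq => hp q hq a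
    · obtain ⟨a, _, rfl⟩ := exists_v x
      exact env_cons _ _ _ ▸ (ih (l := a :: l)).2 (h.mono fun p hp => hp a)

theorem exists_set {R : Ordinal.{u} → Cn m → Prop}
    (hR : (FF m).Tm (fun z : Ordinal.{u} × Cn m => R z.1 z.2)) (b : Ordinal.{u})
    (hb : ∀ x p, R x p → x < b) (mono : ∀ x p q, R x p → q ≤ p → R x q) :
    Par (FF m) (nm R) ∧
      ∀ x, g.E x (g.v (nm R)) ↔ ∃ y, Par (FF m) y ∧ g.H (R y) ∧ g.v y = x := by
  have : Par (FF m) (nm R) := ⟨tm_nm (R := fun _ => R) (by fun_prop)⟩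
  have h : (SS m).Tm (fun z : Ordinal.{u} × Cn m => R z.1 z.2) :=
    Tm.congrP ((FF_SS (R := fun c => ∃ p : Cn m, p.1 = snd c ∧ R (fst c) p) (by fun_prop)).comp
      (f := fun z : Ordinal.{u} × Cn m => G z.1 z.2.1) (by fun_prop)) fun z => by
        simp only [fst_G, snd_G]
        exact ⟨fun ⟨q, e, h⟩ => (Subtype.ext e : q = z.2) ▸ h, fun h => ⟨_, rfl, h⟩⟩
  refine ⟨this, fun x => E_v.trans (exists_congr fun y => ?_)⟩
  rw [show Cl (nm R) y = R y from funext fun _ => propext (Cl_nm h b hb mono)]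

theorem trP (g : Gen m) : TrP g.InM where
  tr := by
    rintro _ _ ⟨a, _, rfl⟩ h
    exact let ⟨x, h, _, e⟩ := mem_val.1 h; ⟨x, h, e⟩
  up := by
    rintro _ _ ⟨a, _, rfl⟩ ⟨b, _, rfl⟩
    have h := fun {x p} => Cl_nm (m := m) (x := x) (p := p) (R := fun x _ => x = a ∨ x = b)
      (by fun_prop) (max a b + 1)
      (by rintro _ - (rfl | rfl) <;> simp) fun _ _ _ h _ => h
    refine ⟨nm fun x (_ : Cn m) => x = a ∨ x = b, ⟨by fun_prop⟩, ZFSet.ext fun z => ?_⟩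
    simp only [mem_val, ZFSet.mem_pair]
    exact ⟨fun ⟨x, _, h₁, e⟩ => (h.1 h₁.exists.choose_spec).imp
      (fun h : x = a => h ▸ e.symm) fun h : x = b => h ▸ e.symm, fun e => e.elim
        (fun e => ⟨a, ‹_›, H_of 0 fun _ _ => h.2 (Or.inl rfl), e.symm⟩)
        fun e => ⟨b, ‹_›, H_of 0 fun _ _ => h.2 (Or.inr rfl), e.symm⟩⟩

theorem E_lt {x : g.M} {a : Ordinal.{u}} [Par (FF m) a] (h : g.E x (g.v a)) :
    ∃ y < a, Par (FF m) y ∧ g.v y = x :=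
  let ⟨y, h₁, h₂, h₃⟩ := E_v.1 h; ⟨y, h₂.exists.choose_spec.lt, h₁, h₃⟩

theorem sep_fml (φ : Fml) (l : List g.M) (b : Ordinal.{u}) [Par (FF m) b] :
    ∃ c, ∀ x, g.E x c ↔ (∃ y < b, Par (FF m) y ∧ g.v y = x) ∧
      Sat g.E φ (cons x (env (g.v 0) l)) := by
  obtain ⟨l, hl, rfl⟩ := exists_vl l
  refine ⟨_, fun x => ((exists_set (R := fun y p => y < b ∧ Forces φ (y :: l) p) (by fun_prop) b
    (fun _ _ h => h.1) fun _ _ _ h e => ⟨h.1, h.2.mono e⟩).2 x).trans ⟨?_, ?_⟩⟩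
  · rintro ⟨y, h₁, h₂, rfl⟩
    exact ⟨⟨y, h₂.exists.choose_spec.1, h₁, rfl⟩,
      env_cons _ _ _ ▸ (truth φ (l := y :: l)).2 (h₂.mono fun _ h => h.2)⟩
  · rintro ⟨⟨y, h₁, h₂, rfl⟩, h⟩
    exact ⟨y, h₂, ((truth φ (l := y :: l)).1 (env_cons _ _ _ ▸ h)).mono fun _ h => ⟨h₁, h⟩, rfl⟩

theorem sep_udef {Ψ : ∀ (M : Type (u + 1)), (M → M → Prop) → (ℕ → M) → Prop} (h : UDef Ψ)
    (l : List g.M) (b : Ordinal.{u}) [Par (FF m) b]
    (hb : ∀ x, Ψ g.M g.E (cons x (env (g.v 0) l)) → ∃ y < b, Par (FF m) y ∧ g.v y = x) :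
    ∃ c, ∀ x, g.E x c ↔ Ψ g.M g.E (cons x (env (g.v 0) l)) := by
  obtain ⟨φ, h⟩ := h
  obtain ⟨c, hc⟩ := sep_fml φ l b
  exact ⟨c, fun x => (hc x).trans (by rw [h]; exact and_iff_right_of_imp (hb x))⟩

theorem union (a : g.M) : ∃ c, ∀ x, g.E x c ↔ ∃ y, g.E x y ∧ g.E y a := by
  obtain ⟨a, _, rfl⟩ := exists_v a
  refine sep_udef (Ψ := fun _ E w => ∃ y, E (w 0) y ∧ E y (w 1))
    (UDef.ex ((UDef.mem _ _).and (UDef.mem _ _))) [g.v a] a fun x ⟨y, h₁, h₂⟩ => ?_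
  obtain ⟨y, h₃, _, rfl⟩ := E_lt h₂
  exact let ⟨z, h₄, h₅⟩ := E_lt h₁; ⟨z, h₄.trans h₃, h₅⟩

theorem power (a : g.M) : ∃ c, ∀ x, g.E x c ↔ ∀ y, g.E y x → g.E y a := by
  obtain ⟨a, _, rfl⟩ := exists_v a
  obtain ⟨b, _, hb⟩ := wit_par (m := m)
    (Q := fun b => ∀ c, nm (fun x (p : Cn m) => x < a ∧ FMem x c p) < b) (by fun_prop)
    (let ⟨b, hb⟩ := nm_bound m a; ⟨b, fun _ => hb _ fun _ _ h => h.1⟩)
  refine sep_udef (Ψ := fun _ E w => ∀ y, E y (w 0) → E y (w 1))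
    (UDef.all ((UDef.mem _ _).imp (UDef.mem _ _))) [g.v a] b fun x hx => ?_
  obtain ⟨c, _, rfl⟩ := exists_v x
  obtain ⟨h₁, h₂⟩ := exists_set (g := g) (R := fun x p => x < a ∧ FMem x c p) (by fun_prop) a
    (fun _ _ h => h.1) fun _ _ _ h e => ⟨h.1, h.2.mono e⟩
  refine ⟨_, hb c, h₁, g.trP.ext fun y => (h₂ y).trans ⟨?_, fun hy => ?_⟩⟩
  · rintro ⟨y, _, h, rfl⟩
    exact v_mem_iff.2 (h.mono fun _ h => h.2)
  · obtain ⟨y, h₃, _, rfl⟩ := E_lt (hx y hy)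
    exact ⟨y, ‹_›, (v_mem_iff.1 hy).mono fun _ h => ⟨h₃, h⟩, rfl⟩

theorem repl (φ : Fml) (l : List g.M) (a : g.M)
    (ha : ∀ x, g.E x a → ∃! y, Sat g.E φ (cons y (cons x (env (g.v 0) l)))) :
    ∃ b, ∀ y, g.E y b ↔ ∃ x, g.E x a ∧ Sat g.E φ (cons y (cons x (env (g.v 0) l))) := by
  have hU : UDef.{u + 1} (fun _ E w => ∃ x, E x (w 1) ∧
      Sat E φ (cons (w 0) (cons x (fun k => w (k + 2))))) := by
    refine UDef.ex ((UDef.mem _ _).and ((UDef.sat φ (cons 1 (cons 0 (fun k => k + 3)))).congr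
      fun M E w => iff_of_eq (congrArg _ (funext fun k => ?_))))
    rcases k with _ | _ | k <;> rfl
  obtain ⟨a, _, rfl⟩ := exists_v a
  obtain ⟨l, hl, rfl⟩ := exists_vl l
  obtain ⟨b, _, hb⟩ := wit_par (m := m) (Q := fun b => ∀ x < a, ∀ p : Cn m,
      (∃ y, Forces φ (y :: x :: l) p) → ∃ y < b, Forces φ (y :: x :: l) p) (by fun_prop) (by
    obtain ⟨b, hb⟩ := bound_wit (G a (cb m (lam m)))
      (fun z y => ∃ p : Cn m, p.1 = snd z ∧ Forces φ (y :: fst z :: l) p)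
    refine ⟨b, fun x hx p ⟨y, hy⟩ => ?_⟩
    obtain ⟨y, h₁, q, h₂, h₃⟩ := hb _ (G_lt_of_lt hx p.2.1) ⟨y, p, by simp, by simpa using hy⟩
    exact ⟨y, h₁, by simpa [Subtype.ext (h₂.trans (snd_G _ _))] using h₃⟩)
  refine sep_udef hU (g.v a :: l.map g.v) b fun y ⟨x, h₁, h₂⟩ => ?_
  obtain ⟨x, h₃, _, rfl⟩ := E_lt h₁
  obtain ⟨y, _, rfl⟩ := exists_v y
  have e : ∀ (y) [Par (FF m) y], Sat g.E φ (cons (g.v y) (cons (g.v x) (env (g.v 0) (l.map g.v))))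
      ↔ g.H (Forces φ (y :: x :: l)) := fun y _ => by
    rw [← truth, List.map_cons, List.map_cons, env_cons, env_cons]
  obtain ⟨n, h₄⟩ := ((e y).1 h₂).exists
  obtain ⟨z, _, h₅, h₆⟩ := wit_par (m := m) (by fun_prop) (hb x h₃ _ ⟨y, h₄⟩)
  exact ⟨z, h₅, ‹_›, (ha _ h₁).unique ((e z).2 (H_of n fun _ => h₆.mono)) h₂⟩

theorem choice (a : g.M) (hne : ∀ x, g.E x a → ∃ y, g.E y x)
    (hdj : ∀ x y, g.E x a → g.E y a → (∃ z, g.E z x ∧ g.E z y) → x = y) :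
    ∃ c, ∀ x, g.E x a → ∃! y, g.E y x ∧ g.E y c := by
  obtain ⟨a, _, rfl⟩ := exists_v a
  obtain ⟨-, hc⟩ := exists_set (g := g) (R := fun y p => y < a ∧ ∃ x, FMem x a p ∧ FMem y x p ∧
    ∀ z < y, ∀ q ≤ p, ¬ FMem z x q) (by fun_prop) a (fun _ _ h => h.1)
    fun _ _ _ ⟨h₁, x, h₂, h₃, h₄⟩ e =>
      ⟨h₁, x, h₂.mono e, h₃.mono e, fun z hz r hr => h₄ z hz r (hr.trans e)⟩
  generalize g.v (nm _) = c at hc
  refine ⟨c, fun x hx => ?_⟩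
  obtain ⟨x, h₁, _, rfl⟩ := E_lt hx
  obtain ⟨y, hy⟩ := hne _ hx
  obtain ⟨y, h₂, _, rfl⟩ := E_lt hy
  obtain ⟨h₃, _, h₄⟩ := mu_lt (S := fun y => Par (FF m) y ∧ g.E (g.v y) (g.v x))
    ⟨y, h₂.trans h₁, ‹_›, hy⟩
  refine ⟨_, ⟨h₄, (hc _).2 ⟨_, ‹_›, ?_, rfl⟩⟩, fun z ⟨h₅, h₆⟩ => ?_⟩
  · rcases meet' (g := g) (X := fun q => ∃ z < mu fun y => Par (FF m) y ∧ g.E (g.v y) (g.v x),
      FMem z x q) (by fun_prop) with ⟨n, h⟩ | h
    · obtain ⟨z, _, h₅, h₆⟩ := wit_par (m := m) (by fun_prop) h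
      exact absurd ⟨‹_›, v_mem_iff.2 (H_of n fun _ => h₆.mono)⟩ (not_of_lt_mu h₅)
    · exact ((v_mem_iff.1 hx).and ((v_mem_iff.1 h₄).and h)).mono fun p h =>
        ⟨h₃, x, h.1, h.2.1, fun z hz q hq e => h.2.2 q hq ⟨z, hz, e⟩⟩
  · obtain ⟨z, _, h₇, rfl⟩ := (hc _).1 h₆
    obtain ⟨n, -, h₇⟩ := h₇.exists
    obtain ⟨w, _, h₇, h₈, h₉⟩ := wit_par (m := m) (by fun_prop) h₇
    have e := hdj _ _ hx (v_mem_iff.2 (H_of n fun _ => h₇.mono))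
      ⟨_, h₅, v_mem_iff.2 (H_of n fun _ => h₈.mono)⟩
    rcases (mu_le (R := fun y => Par (FF m) y ∧ g.E (g.v y) (g.v x)) ⟨‹_›, h₅⟩).eq_or_lt with h | h
    · rw [h]
    · obtain ⟨k, k₁, k₂⟩ := ((H_of n (h₉ _ h)).and (v_mem_iff.1
        ((congrArg (g.E _) e).mp h₄))).exists
      exact absurd k₂ k₁

end Gen

end Pool.Agent.MP_9a6faa_lc.W

end

section

namespace Pool.Agent.MP_9a6faa_lc.W

open Set Order FO Filter Ordinal

universe u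

variable [Pat]

variable {m : Mach.{u}}

section

variable {a b : Ordinal.{u}} [Par (FF m) a] [Par (FF m) b]

instance : Par (FF m) (chk m a) := ⟨by fun_prop⟩

instance : Par (FF m) (on m a) := ⟨by fun_prop⟩

instance : Par (FF m) (lv m a) := ⟨by fun_prop⟩

instance : Par (FF m) (a + 1) := ⟨by fun_prop⟩

instance : Par (FF m) (pn m a b) := ⟨by fun_prop⟩

instance : Par (FF m) (ap m a b) := ⟨by fun_prop⟩

instance (φ : QF) : Par (FF m) φ := by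
  have : Par (FF m) (qenc.{u} φ) := by
    induction φ <;> exact ⟨by unfold qenc; fun_prop⟩
  exact ⟨tm_of_rel (Q := fun _ ψ => qenc.{u} ψ = qenc φ) (by fun_prop) fun _ _ =>
    qenc_inj.eq_iff⟩

instance {φ : QF} {l : OL.{u}} [Par (FF m) l] : Par (FF m) (dc m a φ l) := ⟨by fun_prop⟩

end

theorem FF_SS₂ {R : Ordinal.{u} → Ordinal.{u} → Prop}
    (h : (FF m).Tm (fun z : Ordinal.{u} × Ordinal.{u} => R z.1 z.2)) :
    (SS m).Tm (fun z : Ordinal.{u} × Ordinal.{u} => R z.1 z.2) :=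
  Tm.congrP ((FF_SS (R := fun c => R (fst c) (snd c)) (by fun_prop)).comp
    (f := fun z : Ordinal.{u} × Ordinal.{u} => G z.1 z.2) (by fun_prop)) fun z => by simp

theorem eq0_iff {a b : Ordinal.{u}} : Eq0 m a b ↔
    (∀ x, P m a x → ∃ y, P m b y ∧ Eq0 m x y) ∧ ∀ y, P m b y → ∃ x, P m a x ∧ Eq0 m x y := by
  constructor
  · intro h
    refine ⟨fun x hx => ?_, fun y hy => ?_⟩
    · obtain ⟨y, h₁, h₂⟩ := mem_val0.1 (h ▸ mem_val0.2 ⟨x, hx, rfl⟩ : _ ∈ val0 m b)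
      exact ⟨y, h₁, h₂.symm⟩
    · exact mem_val0.1 (h ▸ mem_val0.2 ⟨y, hy, rfl⟩ : _ ∈ val0 m a)
  · rintro ⟨h₁, h₂⟩
    refine ZFSet.ext fun w => ?_
    simp only [mem_val0]
    exact ⟨fun ⟨x, hx, e⟩ => let ⟨y, h₃, h₄⟩ := h₁ x hx; ⟨y, h₃, h₄.symm.trans e⟩,
      fun ⟨y, hy, e⟩ => let ⟨x, h₃, h₄⟩ := h₂ y hy; ⟨x, h₃, h₄.trans e⟩⟩

namespace Gen

variable (g : Gen m)

/-- The image of a ground model set. -/
noncomputable def cv (c : Ordinal.{u}) : g.M := g.v (chk m c)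

variable {g}

theorem E_cv {c : Ordinal.{u}} [Par (FF m) c] {x : g.M} :
    g.E x (g.cv c) ↔ ∃ z, Par (FF m) z ∧ P m c z ∧ g.cv z = x := by
  refine E_v.trans ⟨fun ⟨y, _, h, e⟩ => ?_, fun ⟨z, _, h, e⟩ =>
    ⟨_, inferInstance, H_of 0 fun _ _ => Cl_chk.2 ⟨z, h, rfl⟩, e⟩⟩
  obtain ⟨z, _, h₁, rfl⟩ := wit_par (m := m) (by fun_prop) (Cl_chk.1 h.exists.choose_spec)
  exact ⟨z, ‹_›, h₁, e⟩

theorem cv_eq_iff {a b : Ordinal.{u}} [ha : Par (FF m) a] [Par (FF m) b] :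
    g.cv a = g.cv b ↔ Eq0 m a b := by
  revert ha
  induction a using WellFoundedLT.induction generalizing b with
  | ind a ih =>
    intro ha
    rw [eq0_iff]
    constructor
    · refine fun e => ⟨all_par (m := m) (by fun_prop) fun x _ hx => ?_,
        all_par (m := m) (by fun_prop) fun y _ hy => ?_⟩
      · obtain ⟨y, _, h₁, h₂⟩ := E_cv.1 (e ▸ E_cv.2 ⟨x, ‹_›, hx, rfl⟩)
        exact ⟨y, h₁, (ih x (P_lt hx)).1 h₂.symm⟩
      · obtain ⟨x, _, h₁, h₂⟩ := (E_cv (c := a)).1 (e ▸ E_cv.2 ⟨y, ‹_›, hy, rfl⟩)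
        exact ⟨x, h₁, (ih x (P_lt h₁)).1 h₂⟩
    · refine fun ⟨h₁, h₂⟩ => g.trP.ext fun z => E_cv.trans (Iff.trans ⟨?_, ?_⟩ E_cv.symm)
      · rintro ⟨x, _, hx, rfl⟩
        obtain ⟨y, _, h₃, h₄⟩ := wit_par (m := m) (by fun_prop) (h₁ x hx)
        exact ⟨y, ‹_›, h₃, ((ih x (P_lt hx)).2 h₄).symm⟩
      · rintro ⟨y, _, hy, rfl⟩
        obtain ⟨x, _, h₃, h₄⟩ := wit_par (m := m) (by fun_prop) (h₂ y hy)
        exact ⟨x, ‹_›, h₃, (ih x (P_lt h₃)).2 h₄⟩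

theorem cv_mem_iff {a b : Ordinal.{u}} [Par (FF m) a] [Par (FF m) b] :
    g.E (g.cv a) (g.cv b) ↔ Mem0 m a b := by
  refine E_cv.trans ⟨fun ⟨z, _, h, e⟩ => mem_val0.2 ⟨z, h, cv_eq_iff.1 e⟩, fun h => ?_⟩
  obtain ⟨z, _, h₁, h₂⟩ := wit_par (m := m) (Q := fun z => P m b z ∧ Eq0 m z a) (by fun_prop)
    (mem_val0.1 h)
  exact ⟨z, ‹_›, h₁, cv_eq_iff.2 h₂⟩

theorem E_on {a : Ordinal.{u}} [Par (FF m) a] {x : g.M} :
    g.E x (g.cv (on m a)) ↔ ∃ b < a, Par (FF m) b ∧ g.cv (on m b) = x := by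
  refine E_cv.trans ⟨fun ⟨y, _, h, e⟩ => ?_, fun ⟨z, h, _, e⟩ =>
    ⟨_, inferInstance, P_on.2 ⟨z, h, rfl⟩, e⟩⟩
  obtain ⟨z, _, h₁, rfl⟩ := wit_par (m := m) (by fun_prop) (P_on.1 h)
  exact ⟨z, h₁, ‹_›, e⟩

theorem on_lt {a b : Ordinal.{u}} [Par (FF m) a] [Par (FF m) b] :
    g.E (g.cv (on m a)) (g.cv (on m b)) ↔ a < b := by
  simp [cv_mem_iff, Mem0]

theorem on_inj {a b : Ordinal.{u}} [Par (FF m) a] [Par (FF m) b] :
    g.cv (on m a) = g.cv (on m b) ↔ a = b := by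
  simp [cv_eq_iff, Eq0, toZFSet_injective.eq_iff]

theorem cv_on (a : Ordinal.{u}) [ha : Par (FF m) a] :
    (g.cv (on m a)).1 = (col (fun x => Par (FF m) x) a).toZFSet := by
  revert ha
  induction a using WellFoundedLT.induction with
  | ind a ih =>
    intro ha
    ext x
    rw [mem_toZFSet_iff]
    constructor
    · intro h
      obtain ⟨b, h₁, _, e⟩ := (E_on (x := ⟨x, g.trP.tr (g.cv _).2 h⟩)).1 h
      exact ⟨_, col_lt ‹_› h₁, (ih b h₁).symm.trans (congrArg Subtype.val e)⟩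
    · rintro ⟨c, h, rfl⟩
      obtain ⟨b, h₁, _, rfl⟩ := col_surj h
      exact ih b h₁ ▸ on_lt.2 h₁

theorem rank_val (a : Ordinal.{u}) : (g.val a).rank ≤ col (fun x => Par (FF m) x) a := by
  induction a using WellFoundedLT.induction with
  | ind a ih =>
    refine ZFSet.rank_le_iff.2 fun y hy => ?_
    obtain ⟨x, h₁, h₂, rfl⟩ := mem_val.1 hy
    have := h₂.exists.choose_spec.lt
    exact (ih x this).trans_lt (col_lt h₁ this)

theorem isOrd_iff {x : g.M} : IsOrd g.E x ↔ ∃ a, Par (FF m) a ∧ g.cv (on m a) = x := by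
  refine g.trP.isOrd_iff.trans ⟨fun ⟨c, e⟩ => ?_, fun ⟨a, _, e⟩ => ⟨_, e ▸ (cv_on a).symm⟩⟩
  obtain ⟨_, a, h, rfl⟩ := x
  obtain ⟨b, -, _, rfl⟩ := col_surj (T := fun x => Par (FF m) x) (x := c)
    (lt_of_le_of_lt (by simpa [← (show _ = g.val a from e)] using rank_val (g := g) a)
      (col_lt h (lt_add_one a)))
  exact ⟨b, ‹_›, Subtype.ext ((cv_on b).trans e)⟩

theorem cv_omega : (g.cv (on m ω)).1 = toZFSet ω := by
  rw [cv_on, col_eq_self fun z hz => by obtain ⟨n, rfl⟩ := lt_omega0.1 hz; infer_instance]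

theorem isOmega_iff {x : g.M} : IsOmega g.E x ↔ x = g.cv (on m ω) := by
  rw [g.trP.isOmega_iff, ← cv_omega (g := g), Subtype.ext_iff]

theorem on_succ {a : Ordinal.{u}} [Par (FF m) a] {x : g.M} :
    g.E x (g.cv (on m (a + 1))) ↔ g.E x (g.cv (on m a)) ∨ x = g.cv (on m a) := by
  simp only [E_on, lt_add_one_iff, le_iff_lt_or_eq, or_and_right, exists_or, exists_eq_left]
  exact or_congr_right ⟨fun h => h.2.symm, fun h => ⟨‹_›, h.symm⟩⟩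

theorem isZFC (g : Gen m) : IsZFC g.E where
  ext := fun _ _ => g.trP.ext
  found := fun a h =>
    let ⟨x, hx, e⟩ := (InvImage.wf Subtype.val ZFSet.mem_wf).has_min {x | g.E x a} h
    ⟨x, hx, fun ⟨y, h₁, h₂⟩ => e y h₂ h₁⟩
  pair := fun a b => ⟨⟨_, g.trP.up a.2 b.2⟩, g.trP.up_iff.2 rfl⟩
  union := union
  power := power
  inf := ⟨g.cv (on m ω), ⟨_, on_lt.2 omega0_pos, fun y hy => by simpa using E_on.1 hy⟩,
    fun x hx => by
      obtain ⟨b, h, _, rfl⟩ := E_on.1 hx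
      exact ⟨_, on_lt.2 (isSuccLimit_omega0.add_one_lt h), fun _ => on_succ⟩⟩
  sep := fun S hS a => by
    obtain ⟨φ, l, h⟩ := exists_fml_of_definable₁ g.E S hS
    obtain ⟨a, _, rfl⟩ := exists_v a
    obtain ⟨c, hc⟩ := sep_udef (Ψ := fun _ E w => E (w 0) (w 1) ∧
      Sat E φ (fun k => w (cons 0 (fun k => k + 2) k))) ((UDef.mem _ _).and (UDef.sat φ _))
      (g.v a :: l) a fun x hx => E_lt hx.1
    refine ⟨c, fun x => (hc x).trans (and_congr_right fun _ => Iff.trans ?_ (h x (g.v 0)))⟩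
    exact iff_of_eq (congrArg _ (funext fun k => by cases k <;> rfl))
  repl := fun R hR a ha => by
    obtain ⟨φ, l, h⟩ := exists_fml_of_definable₂ g.E R hR
    simpa only [h] using repl φ l a (by simpa only [h] using ha)
  choice := choice

theorem cv_pn {a b : Ordinal.{u}} [Par (FF m) a] [Par (FF m) b] :
    (g.cv (pn m a b)).1 = ZFSet.pair (g.cv a).1 (g.cv b).1 := by
  have h : ∀ (a b : Ordinal.{u}) [Par (FF m) a] [Par (FF m) b], Par (FF m) (up m a b) ∧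
      (g.cv (up m a b)).1 = {(g.cv a).1, (g.cv b).1} := fun a b _ _ => by
    have : Par (FF m) (up m a b) := ⟨by unfold up; fun_prop⟩
    refine ⟨this, g.trP.up_iff.1 fun x => E_cv.trans ?_⟩
    simp only [P_up]
    exact ⟨by rintro ⟨_, _, rfl | rfl, rfl⟩ <;> simp, fun e => e.elim
      (fun e => ⟨a, ‹_›, Or.inl rfl, e.symm⟩) fun e => ⟨b, ‹_›, Or.inr rfl, e.symm⟩⟩
  have := (h a a).1
  have := (h a b).1
  simp [pn, h, ZFSet.pair]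

theorem app_iff {f a b : Ordinal.{u}} [Par (FF m) f] [Par (FF m) a] [Par (FF m) b] :
    App g.E (g.v f) (g.cv a) (g.cv b) ↔ g.H (FMem (chk m (pn m a b)) f) := by
  rw [g.trP.app_iff, ← cv_pn, ← v_mem_iff]
  rfl

end Gen

theorem TrP.fun_mem {A : ZFSet.{u} → Prop} (h : TrP A) {f X Y a b : Subtype A}
    (hf : IsFun (ES A) f X Y) (e : App (ES A) f a b) : ES A a X ∧ ES A b Y := by
  obtain ⟨p, h₂, h₃⟩ := e
  obtain ⟨j, B, h₄, h₅, h₆⟩ := hf.1 p h₂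
  have := ZFSet.pair_inj.1 ((h.isPair_iff.1 h₃).symm.trans (h.isPair_iff.1 h₆))
  exact ⟨(this.1 ▸ h₄ : a.1 ∈ _), (this.2 ▸ h₅ : b.1 ∈ _)⟩

theorem dt_cover {a : Ordinal.{u}} (h : Dt m a) : ∃ x < th m, ∃ c, (∀ z < lam m, ap m c z < a) ∧
    ∀ i < a, ∃ y < ta m x, ∀ z, y ≤ z → z < ta m x → i ≤ ap m c z := by
  obtain ⟨d, hd⟩ := cf_spec m a
  have h₁ : 1 < cf m a := not_le.1 fun e => by
    have k : ∀ x < a, x ≤ ap m d 0 ∧ ap m d 0 < a := fun x hx => by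
      obtain ⟨i, k₁, k₂⟩ := hd x hx
      rwa [lt_one_iff.1 (k₁.trans_le e)] at k₂
    exact (lt_add_one _).not_ge (k _ (h.1.2 _ (k 0 h.1.1).2)).1
  obtain ⟨x, hx, e⟩ : ∃ x < th m, ta m x = cf m a := by
    rcases h.2 with h' | ⟨z, hz, h'⟩
    · exact ⟨_, h'.trans ka_lt_th, by simp [ta, h', h₁.le]⟩
    · exact ⟨G (ka m) z, gcl_th.G ka_lt_th hz, by simp [ta, (left_le_G _ _).not_gt, h']⟩
  obtain ⟨c, hc⟩ := code_fun (m := m) (f := fun z =>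
    mu fun b => b < a ∧ ∀ j < z + 1, ap m d j < a → ap m d j < b) (by fun_prop) (lam m)
  refine ⟨x, hx, c, fun z hz => ?_, fun i hi => ?_⟩
  · rw [hc z hz]
    by_cases e : ∃ b < a, ∀ j < z + 1, ap m d j < a → ap m d j < b
    exacts [(mu_spec e).1, (mu_neg e).trans_lt h.1.1]
  · obtain ⟨j, h₂, h₃, h₄⟩ := hd i hi
    refine ⟨j, e ▸ h₂, fun z h₅ hz => ?_⟩
    rw [hc _ (hz.trans (ta_lt hx))]
    exact h₃.trans ((mu_spec (bdd_of_lt_cf (m := m) (f := ap m d) (by fun_prop)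
      ((lim_cf h₁).2 z (e ▸ hz)))).2 j (lt_add_one_iff.2 h₅) h₄).le

theorem exists_cofseq {R : Ordinal.{u} → Ordinal.{u} → Prop}
    (hR : (SS m).Tm (fun z : Ordinal.{u} × Ordinal.{u} => R z.1 z.2)) (A : Ordinal.{u})
    (irr : ∀ x, ¬ R x x) (tr : ∀ x y z, R x y → R y z → R x z)
    (tri : ∀ x y z, Fld R z → R x y → R x z ∨ R z y) (nm : ∀ x, Fld R x → ∃ y < A, R x y)
    (ne : ∃ x, Fld R x) : ∃ a c, Lim a ∧ (∀ i j, i < j → j < a → R (ap m c i) (ap m c j)) ∧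
      ∀ x, Fld R x → ∃ i < a, R x (ap m c i) := by
  obtain ⟨T, hT, eT⟩ : ∃ T : Ordinal.{u} → Prop, (SS m).Tm T ∧ ∀ y, T y ↔
      Fld R y ∧ ∀ z < y, Fld R z → R z y := ⟨_, by unfold Fld; fun_prop, fun _ => Iff.rfl⟩
  obtain ⟨c, hc⟩ := code_fun (m := m) (f := fun i => mu fun y => T y ∧ col T y = i)
    (by fun_prop) (col T A)
  have e : ∀ i < col T A, T (ap m c i) ∧ col T (ap m c i) = i := fun i hi => by
    obtain ⟨y, -, h⟩ := col_surj hi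
    exact hc i hi ▸ mu_spec (R := fun y => T y ∧ col T y = i) ⟨y, h⟩
  have cof : ∀ x, Fld R x → ∃ i < col T A, R x (ap m c i) := fun x hx => by
    obtain ⟨h₁, h₂⟩ := mu_lt (nm x hx)
    have h₃ : T (mu (R x)) := (eT _).2 ⟨⟨x, Or.inr h₂⟩, fun z hz h =>
      (tri x _ z h h₂).resolve_left (not_of_lt_mu hz)⟩
    have := e _ (col_lt h₃ h₁)
    exact ⟨_, col_lt h₃ h₁, (col_inj this.1 h₃ this.2).symm ▸ h₂⟩
  have inc : ∀ i j, i < j → j < col T A → R (ap m c i) (ap m c j) := fun i j h h' =>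
    ((eT _).1 (e j h').1).2 _ ((col_lt_iff (e i (h.trans h')).1).1
      (by rwa [(e i (h.trans h')).2, (e j h').2])) ((eT _).1 (e i (h.trans h')).1).1
  refine ⟨_, c, ⟨?_, fun i hi => ?_⟩, inc, cof⟩
  · obtain ⟨x, hx⟩ := ne
    exact zero_le.trans_lt (cof x hx).choose_spec.1
  · obtain ⟨j, h₁, h₂⟩ := cof _ ((eT _).1 (e i hi).1).1
    refine (add_one_le_iff.2 (not_le.1 fun h => ?_)).trans_lt h₁
    rcases h.eq_or_lt with rfl | h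
    exacts [irr _ h₂, irr _ (tr _ _ _ h₂ (inc _ _ h hi))]

end Pool.Agent.MP_9a6faa_lc.W

end

section

namespace Pool.Agent.MP_9a6faa_lc.W

open Set Order FO Filter Ordinal

universe u v

variable [Pat]

variable {m : Mach.{u}}

/-- The condition `p` decides the value of the generic function at `(x, n)`. -/
def Sq (p : Cn m) (x : Ordinal.{u}) (n : ℕ) (z : Ordinal.{u}) : Prop :=
  p.St (G (G x n) z) ∨ (z = 0 ∧ ∀ q ≤ p, ∀ w, ¬ q.St (G (G x n) w))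

@[fun_prop] theorem tm_Sq {I : Type} {V : Type v} {𝒜 : FO.{u, v} I V} {Γ : Type*} [Cd 𝒜 Γ]
    [Cd 𝒜 Mach.{u}] [HasQ 𝒜] [HasSep 𝒜] [Par 𝒜 m] {p : Γ → Cn m} {x z : Γ → Ordinal.{u}}
    {n : Γ → ℕ} (hp : 𝒜.Tm p) (hx : 𝒜.Tm x) (hn : 𝒜.Tm n) (hz : 𝒜.Tm z) :
    𝒜.Tm (fun w => Sq (p w) (x w) (n w) (z w)) := by
  unfold Sq; fun_prop

namespace Sq

variable {p q : Cn m} {x y z : Ordinal.{u}} {n : ℕ}

theorem mono (h : Sq p x n z) (e : q ≤ p) : Sq q x n z :=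
  h.imp (·.mono e) fun h => ⟨h.1, fun r hr => h.2 r (hr.trans e)⟩

theorem lt (h : Sq p x n z) : z < lam m :=
  h.elim (fun h => (right_le_G _ _).trans_lt h.lt) fun h => h.1 ▸ gcl_lam.pos

theorem uniq (h : Sq p x n y) (h' : Sq p x n z) : y = z := by
  rcases h with h | h <;> rcases h' with h' | h'
  exacts [h.uniq h', absurd h (h'.2 p le_rfl y), absurd h' (h.2 p le_rfl z), h.1.trans h'.1.symm]

theorem ex (p : Cn m) (x : Ordinal.{u}) (n : ℕ) : ∃ q ≤ p, ∃ z, Sq q x n z := by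
  by_cases h : ∃ q ≤ p, ∃ w, q.St (G (G x n) w)
  exacts [let ⟨q, h₁, w, h₂⟩ := h; ⟨q, h₁, w, Or.inl h₂⟩,
    ⟨p, le_rfl, 0, Or.inr ⟨rfl, fun q h₁ w h₂ => h ⟨q, h₁, w, h₂⟩⟩⟩]

end Sq

namespace Gen

variable {g : Gen m}

/-- The generic function at a coordinate. -/
theorem exists_fun {s a c e : Ordinal.{u}} [Par (FF m) s] [Par (FF m) c] [Par (FF m) e]
    (hs : s < th m) (h₁ : ∀ z < lam m, ap m e z < a) :
    ∃ f, (∀ p, g.E p f → ∃ x y, App g.E f x y ∧ IsPair g.E p x y) ∧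
      (∀ x y, App g.E f x y → g.E x (g.cv (on m ω)) ∧
        ∃ i < a, Par (FF m) i ∧ y = g.cv (ap m c i)) ∧
      (∀ x, g.E x (g.cv (on m ω)) → ∃! y, App g.E f x y) ∧
      ∀ y < ta m s, Par (FF m) y → ∃ z, Par (FF m) z ∧ Lq m s y z ∧
        ∃ x, App g.E f x (g.cv (ap m c (ap m e z))) := by
  obtain ⟨b, hb⟩ := bound_fun (lam m) (fun i =>
    chk m (pn m (on m (fst i)) (ap m c (ap m e (snd i)))))
  obtain ⟨-, hf⟩ := exists_set (g := g) (R := fun y p => ∃ n : ℕ, ∃ z, Sq p s n z ∧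
    y = chk m (pn m (on m n) (ap m c (ap m e z)))) (by fun_prop) b
    (fun _ _ ⟨n, z, h, e⟩ => by simpa [e] using hb _ (gcl_lam.G (gcl_lam.nat n) h.lt))
    fun _ _ _ ⟨x, t, h, e⟩ h' => ⟨x, t, h.mono h', e⟩
  generalize g.v (nm _) = f at hf
  have hf' : ∀ p, g.E p f ↔ ∃ n : ℕ, ∃ z, Par (FF m) z ∧ g.H (fun q => Sq q s n z) ∧
      g.cv (pn m (on m n) (ap m c (ap m e z))) = p := fun p => by
    refine (hf p).trans ⟨fun ⟨y, _, h, e'⟩ => ?_, fun ⟨n, z, _, h, e'⟩ =>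
      ⟨_, inferInstance, h.mono fun _ h => ⟨n, z, h, rfl⟩, e'⟩⟩
    obtain ⟨k, n, h⟩ := h.exists
    obtain ⟨z, _, h', rfl⟩ := wit_par (m := m) (by fun_prop) h
    exact ⟨n, z, ‹_›, H_of k fun _ => h'.mono, e'⟩
  have ha : ∀ x y, App g.E f x y ↔ ∃ n : ℕ, ∃ z, Par (FF m) z ∧ g.H (fun q => Sq q s n z) ∧
      g.cv (on m n) = x ∧ g.cv (ap m c (ap m e z)) = y := fun x y => by
    refine g.trP.app_iff.trans ((hf' ⟨_, g.trP.pair x.2 y.2⟩).trans (exists₂_congr fun z t =>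
      and_congr_right fun _ => and_congr_right fun _ => ?_))
    simp only [Subtype.ext_iff, cv_pn, ZFSet.pair_inj]
  refine ⟨f, fun p hp => ?_, fun x y h => ?_, fun x hx => ?_, fun y hy _ => ?_⟩
  · obtain ⟨n, z, _, h, rfl⟩ := (hf' p).1 hp
    exact ⟨_, _, (ha _ _).2 ⟨n, z, ‹_›, h, rfl, rfl⟩, g.trP.isPair_iff.2 cv_pn⟩
  · obtain ⟨n, z, _, h', rfl, rfl⟩ := (ha _ _).1 h
    exact ⟨on_lt.2 (natCast_lt_omega0 _), _, h₁ _ h'.exists.choose_spec.lt, inferInstance, rfl⟩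
  · obtain ⟨_, h, -, rfl⟩ := E_on.1 hx
    obtain ⟨n, rfl⟩ := lt_omega0.1 h
    obtain ⟨k, h⟩ := dense (g := g) (X := fun p => ∃ z, Sq p s n z) (by fun_prop)
      (H_of 0 fun p _ => Sq.ex p s n)
    obtain ⟨z, _, h'⟩ := wit_par (m := m) (by fun_prop) h
    have h₃ : g.H fun q => Sq q s n z := H_of k fun _ => h'.mono
    refine ⟨_, (ha _ _).2 ⟨n, z, ‹_›, h₃, rfl, rfl⟩, fun y hy => ?_⟩
    obtain ⟨n', w, _, h₄, h₅, rfl⟩ := (ha _ _).1 hy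
    obtain rfl : n' = n := by simpa using on_inj.1 h₅
    obtain ⟨_, h₆, h₇⟩ := (h₃.and h₄).exists
    rw [h₆.uniq h₇]
  · obtain ⟨k, n, h⟩ := dense (g := g) (X := fun q => ∃ n : ℕ, ∃ z, Lq m s y z ∧
      q.St (G (G s n) z)) (by fun_prop) (H_of 0 fun p _ => p.dense_ok hs hy)
    obtain ⟨z, _, h, h'⟩ := wit_par (m := m) (by fun_prop) h
    exact ⟨z, ‹_›, h, _, (ha _ _).2 ⟨n, z, ‹_›, H_of k fun _ e => Or.inl (h'.mono e), rfl, rfl⟩⟩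

/-- The generic functions yield countable cofinal sequences. -/
theorem exists_seq {a c : Ordinal.{u}} [Par (FF m) a] [Par (FF m) c] (h : Dt m a) :
    ∃ f, (∀ p, g.E p f → ∃ x y, App g.E f x y ∧ IsPair g.E p x y) ∧
      (∀ x y, App g.E f x y → g.E x (g.cv (on m ω)) ∧
        ∃ i < a, Par (FF m) i ∧ y = g.cv (ap m c i)) ∧
      (∀ x, g.E x (g.cv (on m ω)) → ∃! y, App g.E f x y) ∧
      ∀ i < a, Par (FF m) i → ∃ j, i ≤ j ∧ j < a ∧ Par (FF m) j ∧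
        ∃ x, App g.E f x (g.cv (ap m c j)) := by
  obtain ⟨s, _, hs, h⟩ := wit_par (m := m) (by fun_prop) (dt_cover h)
  obtain ⟨e, _, h₁, h₂⟩ := wit_par (m := m) (by fun_prop) h
  obtain ⟨f, k₁, k₂, k₃, k₄⟩ := exists_fun (g := g) (c := c) hs h₁
  refine ⟨f, k₁, k₂, k₃, fun i hi _ => ?_⟩
  obtain ⟨y, _, h₃, h₄⟩ := wit_par (m := m) (by fun_prop) (h₂ i hi)
  obtain ⟨z, _, h₅, h₆⟩ := k₄ y h₃ ‹_›
  exact ⟨_, h₄ z h₅.1 h₅.2.1, h₁ z (h₅.2.1.trans (ta_lt hs)), inferInstance, h₆⟩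

/-- Small ordinals are collapsed. -/
theorem ctbl {a : Ordinal.{u}} [Par (FF m) a] (h : a < ka m) : IsCtbl g.E (g.cv (on m a)) := by
  classical
  have : Par (FF m) (max a 1) := ⟨by fun_prop⟩
  have hs := h.trans ka_lt_th
  obtain ⟨e, _, he⟩ := wit_par (m := m) (by fun_prop)
    (code_fun (m := m) (f := fun z => if z < a then z else 0) (by fun_prop) (lam m))
  obtain ⟨c, _, hc⟩ := wit_par (m := m) (by fun_prop)
    (code_fun (m := m) (f := on m) (by fun_prop) (max a 1))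
  obtain ⟨f, k₁, k₂, k₃, k₄⟩ := exists_fun (g := g) (a := max a 1) (c := c) (e := e) hs
    fun z hz => by
      rw [he z hz]
      split_ifs with h'
      exacts [lt_max_of_lt_left h', lt_max_of_lt_right one_pos]
  refine ⟨_, f, g.cv (on m (max a 1)), isOmega_iff.2 rfl, ⟨fun p hp => ?_, k₃⟩, fun x hx => ?_⟩
  · obtain ⟨x, y, h₁, h₂⟩ := k₁ p hp
    obtain ⟨h₃, i, h₄, _, rfl⟩ := k₂ x y h₁
    exact ⟨x, _, h₃, hc i h₄ ▸ on_lt.2 h₄, h₂⟩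
  · obtain ⟨y, h₁, _, rfl⟩ := E_on.1 hx
    obtain ⟨z, _, h₂, h₃⟩ := k₄ y (by simp [ta, h, h₁]) ‹_›
    obtain rfl := h₂.2.2 h
    rwa [he y (h₁.trans (hs.trans th_lt_lam)), if_pos h₁, hc y (lt_max_of_lt_left h₁)] at h₃

/-- Other cofinalities stay uncountable. -/
theorem bdd_seq {ρ f : Ordinal.{u}} [Par (FF m) ρ] [Par (FF m) f] (hρ : Reg m ρ) (hθ : ka m ≤ ρ)
    (hS : ∀ x < th m, ρ ≠ sa m x) {K : Ordinal.{u} → Ordinal.{u} → Prop}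
    (hK : (FF m).Tm (fun z : Ordinal.{u} × Ordinal.{u} => K z.1 z.2))
    (mono : ∀ z b b', K z b → b ≤ b' → K z b') :
    ∃ b < ρ, Par (FF m) b ∧ ∀ (n : ℕ) (z : Ordinal.{u}), Par (FF m) z → (∃ c < ρ, K z c) →
      App g.E (g.v f) (g.cv (on m n)) (g.cv z) →
        ∃ w, Par (FF m) w ∧ K w b ∧ App g.E (g.v f) (g.cv (on m n)) (g.cv w) := by
  have hK' := FF_SS₂ hK
  obtain ⟨k, h⟩ := dense (g := g) (X := fun q => ∃ b < ρ, ∀ n : ℕ, ∀ r ≤ q, ∃ r' ≤ r,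
    (∃ z, K z b ∧ FMem (chk m (pn m (on m n) z)) f r') ∨
      ∀ s ≤ r', ∀ z, ∀ c < ρ, K z c → ¬ FMem (chk m (pn m (on m n) z)) f s) (by fun_prop)
    (H_of 0 fun p _ => namba hρ hθ hS (D := fun r' n b =>
      (∃ z, K z b ∧ FMem (chk m (pn m (on m n) z)) f r') ∨
        ∀ s ≤ r', ∀ z, ∀ c < ρ, K z c → ¬ FMem (chk m (pn m (on m n) z)) f s) (by fun_prop)
      (fun q n => by
        by_cases h : ∀ s ≤ q, ∀ z, ∀ c < ρ, K z c → ¬ FMem (chk m (pn m (on m n) z)) f s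
        · exact ⟨q, le_rfl, 0, hρ.lim.1, Or.inr h⟩
        · push Not at h
          obtain ⟨s, h₁, z, c, h₂, h₃⟩ := h
          exact ⟨s, h₁, c, h₂, Or.inl ⟨z, h₃⟩⟩)
      (fun q r n b b' h h₁ h₂ => h.imp (fun ⟨z, h₃, h₄⟩ => ⟨z, mono _ _ _ h₃ h₂, h₄.mono h₁⟩)
        fun h s hs => h s (hs.trans h₁)) p)
  obtain ⟨b, _, h₁, h₂⟩ := wit_par (m := m) (by fun_prop) h
  refine ⟨b, h₁, ‹_›, fun n z _ ⟨c, h₃, h₄⟩ h₅ => ?_⟩
  obtain ⟨l, h | h⟩ := dense (g := g) (by fun_prop) (H_of k (h₂ n))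
  · obtain ⟨w, _, h₆, h₇⟩ := wit_par (m := m) (by fun_prop) h
    exact ⟨w, ‹_›, h₆, app_iff.2 (H_of l fun _ => h₇.mono)⟩
  · obtain ⟨_, h₆, h₇⟩ := ((H_of l h).and (app_iff.1 h₅)).exists
    exact absurd h₇ (h₆ z c h₃ h₄)

theorem not_ctbl {ρ : Ordinal.{u}} [Par (FF m) ρ] (hρ : Reg m ρ) (hθ : ka m ≤ ρ)
    (hS : ρ < th m) : ¬ IsCtbl g.E (g.cv (on m ρ)) := by
  rintro ⟨w, f, Y, h₁, h₂, h₃⟩
  obtain rfl := isOmega_iff.1 h₁
  obtain ⟨f, _, rfl⟩ := exists_v f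
  obtain ⟨b, k₁, _, k₂⟩ := bdd_seq (g := g) (f := f) hρ hθ (fun x _ => (hS.trans (th_lt_sa x)).ne)
    (K := fun z b => ∃ j ≤ b, z = on m j) (by fun_prop)
    fun _ _ _ ⟨j, h, h'⟩ h'' => ⟨j, h.trans h'', h'⟩
  obtain ⟨n, k₃⟩ := h₃ _ (on_lt.2 (hρ.lim.2 b k₁))
  have k₄ := (g.trP.fun_mem h₂ k₃).1
  obtain ⟨_, h, -, rfl⟩ := E_on.1 k₄
  obtain ⟨n, rfl⟩ := lt_omega0.1 h
  obtain ⟨w, _, k₅, k₆⟩ := k₂ n _ inferInstance ⟨_, hρ.lim.2 b k₁, _, le_rfl, rfl⟩ k₃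
  obtain ⟨j, _, k₇, rfl⟩ := wit_par (m := m) (by fun_prop) k₅
  exact (lt_add_one b).not_ge ((on_inj.1 ((h₂.2 _ k₄).unique k₃ k₆)).trans_le k₇)

theorem cof_iff {A : Ordinal.{u}} [Par (FF m) A] {R : g.M → g.M → Prop}
    {S : Ordinal.{u} → Ordinal.{u} → Prop}
    (hS : (FF m).Tm (fun z : Ordinal.{u} × Ordinal.{u} => S z.1 z.2))
    (hR : ∀ x y, R x y → g.E x (g.cv A) ∧ g.E y (g.cv A))
    (e : ∀ (s t) [Par (FF m) s] [Par (FF m) t], R (g.cv s) (g.cv t) ↔ S s t) :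
    CofOm g.E R ↔ DCof0 m S := by
  have fA : ∀ x, Fld R x → g.E x (g.cv A) := fun x ⟨y, h⟩ =>
    h.elim (fun h => (hR _ _ h).1) fun h => (hR _ _ h).2
  have fc : ∀ x, Fld R x → ∃ s, Par (FF m) s ∧ P m A s ∧ g.cv s = x := fun x h => E_cv.1 (fA x h)
  have fld : ∀ (s) [Par (FF m) s], Fld R (g.cv s) ↔ ∃ z, S s z ∨ S z s := fun s _ =>
    ⟨fun ⟨y, h⟩ => by
      obtain ⟨t, _, -, rfl⟩ := fc y ⟨_, h.symm⟩
      exact ⟨t, by simpa only [e] using h⟩, fun h => by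
      obtain ⟨t, _, h⟩ := wit_par (m := m) (by fun_prop) h
      exact ⟨g.cv t, by simpa only [e] using h⟩⟩
  constructor
  · rintro ⟨⟨l₁, l₂, l₃⟩, w, f, Y, h₁, h₂, h₃, h₄⟩
    obtain rfl := isOmega_iff.1 h₁
    obtain ⟨f, _, rfl⟩ := exists_v f
    have k₁ : ∀ x, ¬ S x x := all_par (m := m) (by fun_prop) fun x _ h => l₁ _ ((e x x).2 h)
    have k₂ : ∀ x y z, S x y → S y z → S x z := all_par (m := m) (by fun_prop) fun x _ =>
      all_par (m := m) (by fun_prop) fun y _ => all_par (m := m) (by fun_prop) fun z _ h h' =>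
        (e x z).1 (l₂ _ _ _ ((e x y).2 h) ((e y z).2 h'))
    obtain ⟨a, _, h₅⟩ := wit_par (m := m) (by unfold Fld; fun_prop) (exists_cofseq (FF_SS₂ hS) A
      k₁ k₂ (all_par (m := m) (by unfold Fld; fun_prop) fun x _ =>
        all_par (m := m) (by unfold Fld; fun_prop) fun y _ =>
        all_par (m := m) (by unfold Fld; fun_prop) fun z _ hz h => by
          rw [← e] at h
          simp only [← e]
          rcases l₃ _ _ ⟨_, Or.inl h⟩ ((fld z).2 hz) with h' | h' | h'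
          exacts [Or.inl h', Or.inr (h' ▸ h), Or.inr (l₂ _ _ _ h' h)])
      (all_par (m := m) (by unfold Fld; fun_prop) fun x _ hx => by
        obtain ⟨_, y, -, h⟩ := h₄ _ ((fld x).2 hx)
        obtain ⟨t, _, h', rfl⟩ := fc y ⟨_, Or.inr h⟩
        exact ⟨t, P_lt h', (e _ _).1 h⟩) (by
        obtain ⟨y, hy, -⟩ := h₂.2 _ (on_lt.2 omega0_pos)
        obtain ⟨t, _, -, rfl⟩ := fc y (h₃ _ _ hy)
        exact ⟨t, (fld t).1 (h₃ _ _ hy)⟩))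
    obtain ⟨c, _, h₅, h₆, h₇⟩ := wit_par (m := m) (by unfold Fld; fun_prop) h₅
    refine ⟨⟨k₁, k₂, all_par (m := m) (by fun_prop) fun x _ => all_par (m := m) (by fun_prop)
      fun y _ hx hy => by simpa only [e, cv_eq_iff] using l₃ _ _ ((fld x).2 hx) ((fld y).2 hy)⟩,
      a, c, ⟨h₅, ?_⟩, h₆, h₇⟩
    by_contra! h₈
    have : Par (FF m) (cf m a) := ⟨by fun_prop⟩
    have hρ := reg_cf ((lt_ka g.hω).trans_le h₈.1)
    obtain ⟨d, _, hd⟩ := wit_par (m := m) (by unfold Cof; fun_prop) (cf_spec m a)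
    obtain ⟨b, k₃, _, k₄⟩ := bdd_seq (g := g) (f := f) hρ h₈.1 h₈.2
      (K := fun z b => ∃ j ≤ b, ap m d j < a ∧ S z (ap m c (ap m d j))) (by fun_prop)
      fun _ _ _ ⟨j, h, h'⟩ h'' => ⟨j, h.trans h'', h'⟩
    obtain ⟨i, _, k₅, k₆⟩ := wit_par (m := m) (by fun_prop)
      (bdd_of_lt_cf (m := m) (f := ap m d) (by fun_prop) (hρ.lim.2 b k₃))
    obtain ⟨n, y, k₇, k₈⟩ := h₄ _ ((fld _).2 ⟨_, Or.inl (h₆ i _ (lt_add_one i) (h₅.2 i k₅))⟩)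
    obtain ⟨z, _, -, rfl⟩ := fc y ⟨_, Or.inr k₈⟩
    have k₉ := (g.trP.fun_mem h₂ k₇).1
    obtain ⟨_, h, -, rfl⟩ := E_on.1 k₉
    obtain ⟨n, rfl⟩ := lt_omega0.1 h
    obtain ⟨w, _, ⟨j, r₁, r₂, r₃⟩, r₄⟩ := k₄ n z ‹_› (by
      obtain ⟨i, r₁, r₂⟩ := h₇ z ((fld z).1 ⟨_, Or.inr k₈⟩)
      obtain ⟨j, r₃, r₄, r₅⟩ := hd _ (h₅.2 i r₁)
      exact ⟨j, r₃, j, le_rfl, r₅, k₂ _ _ _ r₂ (h₆ _ _ (add_one_le_iff.1 r₄) r₅)⟩) k₇
    rw [(h₂.2 _ k₉).unique k₇ r₄, e] at k₈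
    exact k₁ _ (k₂ _ _ _ k₈ (k₂ _ _ _ r₃ (h₆ _ _ (k₆ j (lt_add_one_iff.2 r₁) r₂) k₅)))
  · rintro ⟨⟨l₁, l₂, l₃⟩, h⟩
    obtain ⟨a, _, h⟩ := wit_par (m := m) (by fun_prop) h
    obtain ⟨c, _, h₁, h₂, h₃⟩ := wit_par (m := m) (by fun_prop) h
    obtain ⟨f, k₁, k₂, k₃, k₄⟩ := exists_seq (g := g) (c := c) h₁
    have k₅ : ∀ x y, App g.E f x y → Fld R y := fun x y h => by
      obtain ⟨i, h₄, _, rfl⟩ := (k₂ x y h).2
      exact (fld _).2 ⟨_, Or.inl (h₂ i _ (lt_add_one i) (h₁.1.2 i h₄))⟩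
    refine ⟨⟨fun x h => ?_, fun x y z h h' => ?_, fun x y hx hy => ?_⟩, _, f, g.cv A,
      isOmega_iff.2 rfl, ⟨fun p hp => ?_, k₃⟩, k₅, fun x hx => ?_⟩
    · obtain ⟨s, _, -, rfl⟩ := fc x ⟨_, Or.inl h⟩
      exact l₁ s ((e _ _).1 h)
    · obtain ⟨s, _, -, rfl⟩ := fc x ⟨_, Or.inl h⟩
      obtain ⟨t, _, -, rfl⟩ := fc y ⟨_, Or.inl h'⟩
      obtain ⟨r, _, -, rfl⟩ := fc z ⟨_, Or.inr h'⟩
      exact (e _ _).2 (l₂ _ _ _ ((e _ _).1 h) ((e _ _).1 h'))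
    · obtain ⟨s, _, -, rfl⟩ := fc x hx
      obtain ⟨t, _, -, rfl⟩ := fc y hy
      simpa only [e, cv_eq_iff] using l₃ _ _ ((fld s).1 hx) ((fld t).1 hy)
    · obtain ⟨x, y, h, h'⟩ := k₁ p hp
      exact ⟨x, y, (k₂ x y h).1, fA y (k₅ x y h), h'⟩
    · obtain ⟨s, _, -, rfl⟩ := fc x hx
      obtain ⟨i, _, h₄, h₅⟩ := wit_par (m := m) (by fun_prop) (h₃ s ((fld s).1 hx))
      obtain ⟨j, h₆, h₇, _, n, h₈⟩ := k₄ (i + 1) (h₁.1.2 i h₄) inferInstance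
      exact ⟨n, _, h₈, (e _ _).2 (l₂ _ _ _ h₅ (h₂ _ _ (add_one_le_iff.1 h₆) h₇))⟩

end Gen

end Pool.Agent.MP_9a6faa_lc.W

end

section

namespace Pool.Agent.MP_9a6faa_lc.W

open Set Order FO Filter Ordinal

universe u v

variable [Pat]

variable {m : Mach.{u}}

theorem UDef.isMeas (i : ℕ) : UDef.{v} (fun _ E w => IsMeas E (w i)) := by
  unfold IsMeas IsOmega IsOrd
  repeat' first
    | exact UDef.mem _ _ | exact UDef.eq _ _ | exact UDef.ne _ _ | exact UDef.app _ _ _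
    | exact UDef.isFun _ _ _ | apply UDef.and | apply UDef.or | apply UDef.iff
    | apply UDef.not | apply UDef.imp | apply UDef.all | apply UDef.ex

/-- Elementarity of the definable part of a definable structure. -/
theorem elem {A B : Type v} {EA : A → A → Prop} {EB : B → B → Prop} {f : Ordinal.{u} → A}
    {g : Ordinal.{u} → B} (hf : Function.Surjective f) (hg : ∀ b, ∃ z, Par (FF m) z ∧ g z = b)
    (t₁ : (FF m).Tm (fun z : Ordinal.{u} × Ordinal.{u} => EA (f z.1) (f z.2)))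
    (t₂ : (FF m).Tm (fun z : Ordinal.{u} × Ordinal.{u} => f z.1 = f z.2))
    (e₁ : ∀ (s t) [Par (FF m) s] [Par (FF m) t], EB (g s) (g t) ↔ EA (f s) (f t))
    (e₂ : ∀ (s t) [Par (FF m) s] [Par (FF m) t], g s = g t ↔ f s = f t) (φ : Fml) :
    (FF m).Tm (fun l : OL.{u} => Sat EA φ (env (f 0) (l.map f))) ∧ ∀ (l : OL.{u}) [Par (FF m) l],
      Sat EB φ (env (g 0) (l.map g)) ↔ Sat EA φ (env (f 0) (l.map f)) := by
  induction φ with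
  | mem i j =>
    simp only [Sat, env, List.getD_map]
    exact ⟨t₁.comp (f := fun l : OL.{u} => (l.getD i 0, l.getD j 0)) (by fun_prop),
      fun _ _ => e₁ _ _⟩
  | eq i j =>
    simp only [Sat, env, List.getD_map]
    exact ⟨t₂.comp (f := fun l : OL.{u} => (l.getD i 0, l.getD j 0)) (by fun_prop),
      fun _ _ => e₂ _ _⟩
  | bot => exact ⟨Tm.const False, fun _ _ => Iff.rfl⟩
  | imp φ ψ ih₁ ih₂ => exact ⟨tm_imp ih₁.1 ih₂.1, fun l _ => imp_congr (ih₁.2 l) (ih₂.2 l)⟩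
  | all φ ih =>
    have e : ∀ l : OL.{u}, (∀ z, Sat EA φ (env (f 0) ((z :: l).map f))) ↔
        Sat EA φ.all (env (f 0) (l.map f)) := fun l => by
      simp only [Sat, List.map_cons, env_cons, hf.forall]
    refine ⟨Tm.congrP (tm_all (ih.1.comp (f := fun z : OL.{u} × Ordinal.{u} => z.2 :: z.1)
      (by fun_prop))) e, fun l _ => Iff.trans ⟨fun h => all_par (ih.1.comp
        (f := fun z : Ordinal.{u} => z :: l) (by fun_prop)) fun z _ =>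
          (ih.2 _).1 (env_cons _ _ _ ▸ h (g z)), fun h x => ?_⟩ (e l)⟩
    obtain ⟨z, _, rfl⟩ := hg x
    exact env_cons _ _ _ ▸ (ih.2 (z :: l)).2 (h z)

namespace Gen

variable {g : Gen m}

theorem sat_iff {A d : Ordinal.{u}} [Par (FF m) A] [Par (FF m) d] (φ : QF) (l : OL.{u})
    [Par (FF m) l] : SatQ g.E (CofOm g.E) {x | g.E x (g.cv A)} (g.cv d) φ (l.map g.cv) ↔
      Sat0 m A d φ l := by
  induction φ generalizing l with
  | mem i j => simp only [Sat0, SatQ, List.getD_map]; exact cv_mem_iff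
  | eq i j => simp only [Sat0, SatQ, List.getD_map]; exact cv_eq_iff
  | bot => rfl
  | imp φ ψ ih₁ ih₂ => exact imp_congr (ih₁ l) (ih₂ l)
  | all φ ih =>
    refine ⟨fun h x hx => ?_, fun h x hx => ?_⟩
    · obtain ⟨z, hz, rfl⟩ := mem_val0.1 hx
      exact all_par (m := m) (Q := fun z => P m A z → Sat0 m A d φ (z :: l)) (by fun_prop)
        (fun z _ hz => (ih (z :: l)).1 (h _ (E_cv.2 ⟨z, ‹_›, hz, rfl⟩))) z hz
    · obtain ⟨z, _, hz, rfl⟩ := E_cv.1 hx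
      exact (ih (z :: l)).2 (h _ (mem_val0.2 ⟨z, hz, rfl⟩))
  | cof φ ih =>
    exact (cof_iff (A := A) (S := fun s t => Mem0 m s A ∧ Mem0 m t A ∧ Sat0 m A d φ (s :: t :: l))
      (by fun_prop) (fun _ _ h => ⟨h.1, h.2.1⟩) fun s t _ _ =>
        and_congr cv_mem_iff (and_congr cv_mem_iff (ih (s :: t :: l)))).trans
      (dcof_iff (R := fun x y => x ∈ val0 m A ∧ y ∈ val0 m A ∧ SatQ (· ∈ ·) (DCof m)
        {x | x ∈ val0 m A} (val0 m d) φ (x :: y :: l.map (val0 m)))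
        fun x ⟨_, h⟩ => let ⟨c, _, e⟩ := mem_val0.1 (h.elim (·.1) (·.2.1)); ⟨c, e⟩)

theorem def_dc {A : Ordinal.{u}} [Par (FF m) A] (φ : QF) (l : OL.{u}) [Par (FF m) l] :
    Defines g.E (CofOm g.E) {x | g.E x (g.cv A)} φ (l.map g.cv) (g.cv (dc m A φ l)) := fun x => by
  refine E_cv.trans ⟨?_, fun ⟨h₁, h₂⟩ => ?_⟩
  · rintro ⟨z, _, h, rfl⟩
    exact ⟨E_cv.2 ⟨z, ‹_›, (P_dc.1 h).1, rfl⟩, (sat_iff φ (z :: l)).2 (P_dc.1 h).2⟩
  · obtain ⟨z, _, h, rfl⟩ := E_cv.1 h₁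
    exact ⟨z, ‹_›, P_dc.2 ⟨h, (sat_iff φ (z :: l)).1 h₂⟩, rfl⟩

theorem exists_cl {A : Ordinal.{u}} [Par (FF m) A] {l : List g.M} (h : ∀ y ∈ l, g.E y (g.cv A)) :
    ∃ k : OL.{u}, Par (FF m) k ∧ (∀ x, x ∈ k → P m A x) ∧ k.map g.cv = l := by
  induction l with
  | nil => exact ⟨[], inferInstance, by simp, rfl⟩
  | cons a l ih =>
    obtain ⟨k, _, h₁, rfl⟩ := ih fun y hy => h y (List.mem_cons_of_mem _ hy)
    obtain ⟨z, _, h₂, rfl⟩ := E_cv.1 (h a List.mem_cons_self)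
    exact ⟨z :: k, inferInstance, List.forall_mem_cons.2 ⟨h₂, h₁⟩, rfl⟩

/-- The hierarchy of the generic model. -/
def L (g : Gen m) (a : g.M) : Set g.M :=
  {x | ∃ b, Par (FF m) b ∧ g.cv (on m b) = a ∧ g.E x (g.cv (lv m b))}

theorem L_on (a : Ordinal.{u}) [Par (FF m) a] :
    g.L (g.cv (on m a)) = {x | g.E x (g.cv (lv m a))} :=
  Set.ext fun _ => ⟨fun ⟨_, _, e, h⟩ => on_inj.1 e ▸ h, fun h => ⟨a, ‹_›, rfl, h⟩⟩

theorem isHier (g : Gen m) : IsHier g.E (CofOm g.E) g.L := fun a ha => by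
  obtain ⟨a, _, rfl⟩ := isOrd_iff.1 ha
  rw [L_on]
  refine ⟨fun φ l hl => ?_, fun h => ?_, fun s hs => ?_, fun _ h => ?_⟩
  · obtain ⟨k, _, -, rfl⟩ := exists_cl hl
    exact ⟨_, def_dc φ k⟩
  · obtain rfl : a = 0 := le_antisymm (not_lt.1 fun h' => h _ (on_lt.2 h')) zero_le
    refine Set.eq_empty_of_forall_notMem fun x hx => ?_
    obtain ⟨z, _, hz, -⟩ := E_cv.1 hx
    simpa using P_lv.1 hz
  · obtain rfl : s = g.cv (on m (a + 1)) := g.trP.ext fun x => (hs x).trans on_succ.symm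
    rw [L_on]
    refine Set.ext fun x => ⟨fun hx => ?_, fun ⟨φ, l, h₁, h₂⟩ => ?_⟩
    · obtain ⟨z, _, hz, rfl⟩ := E_cv.1 hx
      obtain ⟨φ, l, h₁, h₂⟩ := mem_Lv_succ.1 (mem_val0.2 ⟨z, hz, rfl⟩)
      obtain ⟨k, h₃, rfl⟩ := exists_codes h₁
      obtain ⟨k, hk, h₃, h₄⟩ := wit_par (m := m) (Q := fun k : OL.{u} =>
        (∀ x, x ∈ k → P m (lv m a) x) ∧ Eq0 m z (dc m (lv m a) φ k)) (by fun_prop)
        ⟨k, h₃, ZFSet.ext fun y => (h₂ y).trans mem_val0_dc.symm⟩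
      refine ⟨φ, k.map g.cv, fun y hy => ?_, cv_eq_iff.2 h₄ ▸ def_dc φ k⟩
      obtain ⟨w, hw, rfl⟩ := List.mem_map.1 hy
      exact E_cv.2 ⟨w, par_list.1 hk w hw, h₃ w hw, rfl⟩
    · obtain ⟨k, _, h₃, rfl⟩ := exists_cl h₁
      exact E_cv.2 ⟨_, inferInstance, P_lv.2 ⟨a, lt_add_one a, φ, k, h₃, rfl⟩,
        g.trP.ext fun y => (def_dc φ k y).trans (h₂ y).symm⟩
  · have hl : ∀ b < a, b + 1 < a := all_par (m := m) (by fun_prop) fun b _ hb => by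
      obtain ⟨y, h₁, h₂⟩ := h _ (on_lt.2 hb)
      obtain ⟨c, h₃, _, rfl⟩ := E_on.1 h₁
      exact (add_one_le_iff.2 (on_lt.1 h₂)).trans_lt h₃
    refine Set.ext fun x => ⟨fun hx => ?_, fun ⟨b, h₁, h₂⟩ => ?_⟩
    · obtain ⟨z, _, hz, rfl⟩ := E_cv.1 hx
      obtain ⟨b, _, h₁, h₂⟩ := wit_par (m := m) (Q := fun b => b < a ∧ Mem0 m z (lv m b))
        (by fun_prop) ((mem_Lv_lim hl).1 (mem_val0.2 ⟨z, hz, rfl⟩))
      exact ⟨_, on_lt.2 h₁, b, ‹_›, rfl, cv_mem_iff.2 h₂⟩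
    · obtain ⟨b, h₃, _, rfl⟩ := E_on.1 h₁
      rw [L_on] at h₂
      obtain ⟨z, _, hz, rfl⟩ := E_cv.1 h₂
      exact cv_mem_iff.2 (Lv_mono h₃.le (mem_val0.2 ⟨z, hz, rfl⟩))

theorem isMeas (g : Gen m) {s : Ordinal.{u}} [hs : Par (FF m) s]
    (hk : IsMeas (ES (InC m)) (oC m s)) : ∃ k : {x // ∃ a, IsOrd g.E a ∧ x ∈ g.L a},
      IsMeas (fun x y => g.E x.1 y.1) k ∧ k.1 = g.cv (on m s) := by
  classical
  obtain ⟨cl, t, h₁, h₂⟩ : ∃ cl : Ordinal.{u} → Ordinal.{u}, (FF m).Tm cl ∧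
      (∀ z, ∃ a, Mem0 m (cl z) (lv m a)) ∧ ∀ z, (∃ a, Mem0 m z (lv m a)) → cl z = z :=
    ⟨fun z => if ∃ a, Mem0 m z (lv m a) then z else on m 0, by fun_prop, fun z => by
      dsimp only
      split_ifs with h
      exacts [h, by simp only [Mem0, val0_on]; exact inC_ord 0], fun z h => if_pos h⟩
  have h₃ : ∀ z, Par (FF m) z → ∃ a, IsOrd g.E a ∧ g.cv (cl z) ∈ g.L a := fun z _ => by
    have := par_of t z
    obtain ⟨a, _, h⟩ := wit_par (m := m) (by fun_prop) (h₁ z)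
    exact ⟨_, isOrd_iff.2 ⟨a, ‹_›, rfl⟩, a, ‹_›, rfl, cv_mem_iff.2 h⟩
  obtain ⟨φ, hφ⟩ := UDef.isMeas.{u + 1} 0
  have hf : Function.Surjective (fun z => (⟨val0 m (cl z), h₁ z⟩ : Subtype (InC m))) :=
    fun ⟨x, hx⟩ => by
      obtain ⟨c, rfl⟩ := hx.code
      exact ⟨c, Subtype.ext (congrArg (val0 m) (h₂ c hx))⟩
  obtain ⟨t', e⟩ := elem (m := m) (EA := ES (InC m))
    (EB := fun x y : {x // ∃ a, IsOrd g.E a ∧ x ∈ g.L a} => g.E x.1 y.1)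
    (g := fun z => if h : Par (FF m) z then ⟨_, h₃ z h⟩ else ⟨_, h₃ 0 inferInstance⟩) hf
    (fun ⟨x, _, _, b, _, _, h⟩ => by
      obtain ⟨z, hz, h', rfl⟩ := E_cv.1 h
      exact ⟨z, hz, (dif_pos hz).trans (Subtype.ext (congrArg g.cv
        (h₂ z ⟨b, mem_val0.2 ⟨z, h', rfl⟩⟩)))⟩)
    (Tm.congrP (Q := fun z => Mem0 m (cl z.1) (cl z.2)) (by fun_prop) fun _ => Iff.rfl)
    (Tm.congrP (Q := fun z => Eq0 m (cl z.1) (cl z.2)) (by fun_prop)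
      fun _ => by simp only [Eq0, Subtype.mk.injEq])
    (fun s r hs hr => by
      have := par_of t s
      have := par_of t r
      simp only [dif_pos hs, dif_pos hr]
      exact cv_mem_iff)
    (fun s r hs hr => by
      have := par_of t s
      have := par_of t r
      simp only [dif_pos hs, dif_pos hr, Subtype.mk.injEq]
      exact cv_eq_iff) φ
  have h₄ : cl (on m s) = on m s := h₂ _ (by simp only [Mem0, val0_on]; exact inC_ord s)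
  have h₅ : (⟨val0 m (cl (on m s)), h₁ _⟩ : Subtype (InC m)) = oC m s :=
    Subtype.ext ((congrArg (val0 m) h₄).trans (val0_on s))
  rw [← h₅] at hk
  refine ⟨_, (hφ _ _ _).1 ((e [on m s]).2 ((hφ _ _ _).2 hk)), ?_⟩
  simp [env, dif_pos (inferInstance : Par (FF m) (on m s)), h₄]

end Gen

omit [Pat] in
/-- A measurable cardinal is above the first uncountable regular ordinal. -/
theorem sc_lt_κ (μ : Meas.{u}) : sc μ.mach ω < μ.κ := by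
  classical
  suffices ∃ y < μ.κ, ω < y ∧ Reg μ.mach y from let ⟨y, h, h'⟩ := this; (mu_le h').trans_lt h
  by_contra h
  push Not at h
  obtain ⟨d, h₂⟩ := μ.regress (f := cf μ.mach) ((μ.hκ.and (μ.hI _ μ.hω)).mono fun y hy =>
    (cf_le Tm.id fun x hx => ⟨x, hx, le_rfl, hx⟩).lt_of_ne fun e =>
      h y hy.1 hy.2 (e ▸ reg_cf (e.symm ▸ hy.2)))
  have hd : d < μ.κ := let ⟨y, k₁, k₂⟩ := (h₂.and μ.hκ).exists
    (k₁ ▸ cf_le Tm.id fun x hx => ⟨x, hx, le_rfl, hx⟩ : d ≤ y).trans_lt k₂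
  choose c hc using cf_spec μ.mach
  have lt : ∀ i y, 0 < y → (if ap μ.mach (c y) i < y then ap μ.mach (c y) i else 0) < y :=
    fun i y hy => by split_ifs <;> assumption
  choose v hv using fun i => μ.regress ((μ.hI 0 μ.gcl.pos).mono (lt i))
  have h₃ := μ.compl hd fun i _ => hv i
  obtain ⟨y, k₁, k₂, k₃⟩ := (h₃.and (μ.hκ.and (μ.hI 0 μ.gcl.pos))).exists
  obtain ⟨z, k₄, k₅, k₆⟩ := (h₃.and (h₂.and (μ.hI y k₂))).exists
  obtain ⟨i, k₇, k₈, k₉⟩ := hc z y k₆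
  have := k₄ i (k₅ ▸ k₇)
  rw [if_pos k₉] at this
  exact (k₁ i (k₅ ▸ k₇) ▸ lt i y k₃).not_ge (this ▸ k₈)

theorem main (μ : Meas.{u}) (g : Gen μ.mach) : ∃ k : {x // ∃ a, IsOrd g.E a ∧ x ∈ g.L a},
    IsMeas (fun x y => g.E x.1 y.1) k ∧ IsOrd g.E k.1 ∧ ¬ IsCtbl g.E k.1 ∧
      ((∀ a, g.E a k.1 → IsCtbl g.E a) ↔ Pat.b) := by
  obtain ⟨k, h₁, h₂⟩ := g.isMeas (s := μ.mach.κ) (isMeasC μ)
  refine ⟨k, h₁, Gen.isOrd_iff.2 ⟨_, inferInstance, h₂.symm⟩,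
    h₂ ▸ Gen.not_ctbl (μ.reg _) (ka_le μ.hω) κ_lt_th,
    h₂ ▸ ⟨fun h => ?_, fun h a ha => ?_⟩⟩
  · have : Par (FF μ.mach) (sc μ.mach ω) := ⟨by fun_prop⟩
    by_contra hb
    exact Gen.not_ctbl (reg_sc ω) (by simpa [ka, hb] using lt_sc ω) ((sc_lt_κ μ).trans κ_lt_th)
      (h _ (Gen.on_lt.2 (sc_lt_κ μ)))
  · obtain ⟨b, h₃, _, rfl⟩ := Gen.E_on.1 ha
    exact Gen.ctbl (by simpa [ka, h] using h₃)

end Pool.Agent.MP_9a6faa_lc.W

end
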