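import Pool.Agent.MP_9a6faa_lc.Defs

namespace Pool.Agent.MP_9a6faa_lc.W

universe u

variable {M : Type u} (E : M → M → Prop)

/-- `a` is countable in the model: the range of some function on `ω` contains all members of
`a`. -/
def IsCtbl (a : M) : Prop :=
  ∃ w f Y, IsOmega E w ∧ IsFun E f w Y ∧ ∀ x, E x a → ∃ n, App E f n x

/-- `k` is the first uncountable ordinal of the model. -/
def IsOmegaOne (k : M) : Prop := IsOrd E k ∧ ¬ IsCtbl E k ∧ ∀ a, E a k → IsCtbl E a

end Pool.Agent.MP_9a6faa_lc.W
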